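import Mathlib

/-!
# Polarized Hodge structures of Calabi-Yau type, Hodge structures of bounded level, and systems of
classes on the tensor powers of their sum
-/

set_option linter.unusedSectionVars false

namespace Pool.Agent.W437.CY

open Matrix ComplexOrder

/-- A polarized rational Hodge structure of weight `k` on `ℚ ^ N`: `H p` is the subspace
`H^{p, k - p}` of `ℂ ^ N`, and `Q` is the matrix of the polarization. -/
structure PolHS (k N : ℕ) where
  /-- the Hodge decomposition -/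
  H : Fin (k + 1) → Submodule ℂ (Fin N → ℂ)
  /-- the polarization -/
  Q : Matrix (Fin N) (Fin N) ℚ
  dec : DirectSum.IsInternal H
  conj : ∀ p, ∀ x ∈ H p, (fun i => starRingEnd ℂ (x i)) ∈ H (Fin.rev p)
  sym : Qᵀ = (-1 : ℚ) ^ k • Q
  orth : ∀ p q : Fin (k + 1), (p : ℕ) + q ≠ k → ∀ x ∈ H p, ∀ y ∈ H q,
    ∑ i, ∑ j, x i * (Q i j : ℂ) * y j = 0
  pos : ∀ p, ∀ x ∈ H p, x ≠ 0 →
    0 < Complex.I ^ (2 * (p : ℤ) - k) * ∑ i, ∑ j, x i * (Q i j : ℂ) * starRingEnd ℂ (x j)

/-- The Hodge structure is simple: the only rational subspaces `U` which are sub-Hodge structures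
(the complexification of `U` is contained in the sum of its intersections with the `H p`) are the
trivial ones. -/
def PolHS.IsSimple {k N : ℕ} (V : PolHS k N) : Prop :=
  ∀ U : Submodule ℚ (Fin N → ℚ),
    (Submodule.span ℂ ((fun (u : Fin N → ℚ) i => ((u i : ℚ) : ℂ)) '' (U : Set (Fin N → ℚ))) ≤
      ⨆ p, Submodule.span ℂ ((fun (u : Fin N → ℚ) i => ((u i : ℚ) : ℂ)) '' (U : Set (Fin N → ℚ)))
        ⊓ V.H p) → U = ⊥ ∨ U = ⊤

/-- Half of the periods are independent: `H^{k,0}` is spanned by a vector `v` with a coordinate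
equal to one and with at least `N / 2` algebraically independent coordinates. -/
def PolHS.HalfIndep {k N : ℕ} (V : PolHS k N) : Prop :=
  ∃ v : Fin N → ℂ, V.H (Fin.last k) = Submodule.span ℂ {v} ∧ ∃ b, v b = 1 ∧
    ∃ s : Finset (Fin N), N ≤ 2 * s.card ∧ AlgebraicIndependent ℚ (fun i : s => v i)

/-- A self-dual rational Hodge structure of level at most `d` on `ℚ ^ l`, possibly with several
weights: `H a` is the part of `ℂ ^ l` where `p - q = a - d`, and `S` is a nondegenerate form. -/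
structure LowHS (d l : ℕ) where
  /-- the decomposition by `p - q` -/
  H : Fin (2 * d + 1) → Submodule ℂ (Fin l → ℂ)
  /-- the form -/
  S : Matrix (Fin l) (Fin l) ℚ
  dec : DirectSum.IsInternal H
  unit : IsUnit S
  orth : ∀ a b : Fin (2 * d + 1), (a : ℕ) + b ≠ 2 * d → ∀ x ∈ H a, ∀ y ∈ H b,
    ∑ i, ∑ j, x i * (S i j : ℂ) * y j = 0

/-- The basis of the sum `M ⊕ ⨁ V i`: first the basis of `M`, then the bases of the `V i`. -/
abbrev Bas {ι : Type} (l : ℕ) (N : ι → ℕ) : Type := Fin l ⊕ (Σ i, Fin (N i))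

variable {ι : Type} {k N : ι → ℕ} {d l : ℕ} (M : LowHS d l) (V : ∀ i, PolHS (k i) (N i))

/-- The vector `x` of the complexification of `M ⊕ ⨁ V i` is homogeneous with `p - q = a`: it lies
in the corresponding part of `M` or of one of the `V i`. -/
def Homog (x : Bas l N → ℂ) (a : ℤ) : Prop :=
  (∃ p : Fin (2 * d + 1), (∀ b, x (Sum.inr b) = 0) ∧ (fun t => x (Sum.inl t)) ∈ M.H p ∧
    a = (p : ℤ) - d) ∨
  ∃ (i : ι) (p : Fin (k i + 1)), (∀ t, x (Sum.inl t) = 0) ∧
    (∀ b : Σ i, Fin (N i), b.1 ≠ i → x (Sum.inr b) = 0) ∧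
    (fun b => x (Sum.inr ⟨i, b⟩)) ∈ (V i).H p ∧ a = 2 * (p : ℤ) - k i

/-- The rational tensor with coefficients `c` in the tensor power `(M ⊕ ⨁ V i)^{⊗ κ}` is a Hodge
class: it is a complex linear combination of products of homogeneous vectors with total `p - q`
equal to zero. -/
def IsHodgeClass {κ : Type} [Fintype κ] (c : (κ → Bas l N) → ℚ) : Prop :=
  (fun I => ((c I : ℚ) : ℂ)) ∈ Submodule.span ℂ {F | ∃ (x : κ → Bas l N → ℂ) (a : κ → ℤ),
    (∀ j, Homog M V (x j) (a j)) ∧ ∑ j, a j = 0 ∧ F = fun I => ∏ j, x j (I j)}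

/-- The tensor in `V i ⊗ V j` with the coefficient matrix `m`. -/
def pairClass [Fintype ι] [DecidableEq ι] (l : ℕ) (i j : ι)
    (m : Matrix (Fin (N i)) (Fin (N j)) ℚ) : (Fin 2 → Bas l N) → ℚ :=
  fun I => ∑ b, ∑ b', if I 0 = Sum.inr ⟨i, b⟩ ∧ I 1 = Sum.inr ⟨j, b'⟩ then m b b' else 0

/-- A system of rational tensors, for all finite sets `κ` of factors, with the formal properties
of the algebraic (motivated, absolute Hodge) classes: it is closed under products (`mul`) and
permutations of the factors (`perm`), it contains the Hodge classes of the tensor powers of `M`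
(`low`), the classes dual to the polarizations of the `V i` (`diag`), and the Hodge classes of
`V i ⊗ V j` for `i ≠ j` (`cross`). -/
structure IsSystem [Fintype ι] [DecidableEq ι]
    (A : ∀ κ : Type, Submodule ℚ ((κ → Bas l N) → ℚ)) : Prop where
  mul : ∀ (κ κ' : Type) [Finite κ] [Finite κ'] (c : (κ → Bas l N) → ℚ)
    (c' : (κ' → Bas l N) → ℚ), c ∈ A κ → c' ∈ A κ' →
    (fun I : κ ⊕ κ' → Bas l N => c (fun j => I (Sum.inl j)) * c' (fun j => I (Sum.inr j))) ∈
      A (κ ⊕ κ')
  perm : ∀ (κ κ' : Type) [Finite κ] (e : κ ≃ κ') (c : (κ → Bas l N) → ℚ), c ∈ A κ →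
    (fun I : κ' → Bas l N => c (fun j => I (e j))) ∈ A κ'
  low : ∀ (κ : Type) [Fintype κ] (c : (κ → Bas l N) → ℚ), IsHodgeClass M V c →
    (∀ I, (∃ j b, I j = Sum.inr b) → c I = 0) → c ∈ A κ
  diag : ∀ i, pairClass l i i (V i).Q⁻¹ ∈ A (Fin 2)
  cross : ∀ i j, i ≠ j → ∀ m, IsHodgeClass M V (pairClass l i j m) → pairClass l i j m ∈ A (Fin 2)

end Pool.Agent.W437.CY
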