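import Mathlib
import Pool.Agent.W437.HD.Rat

/-!
# The components of the elements of the Lie algebra with respect to the Hodge decomposition
-/

set_option linter.unusedSectionVars false

namespace Pool.Agent.W437.CY

open Matrix Polynomial Pool.Agent.W437.HC Pool.Agent.W437.HD

variable {B : Type*} [Fintype B] [DecidableEq B]

/-- The projections to the eigenspaces of an operator with integral eigenvalues. -/
structure Proj (D : Matrix B B ℂ) (S : Finset ℤ) (P : ℤ → Matrix B B ℂ) : Prop where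
  tot : ∑ a ∈ S, P a = 1
  left : ∀ a, D * P a = (a : ℂ) • P a
  right : ∀ a, P a * D = (a : ℂ) • P a

variable {D : Matrix B B ℂ} {S : Finset ℤ} {P : ℤ → Matrix B B ℂ} (h : Proj D S P)

include h

theorem Proj.off {a b : ℤ} (hab : a ≠ b) : P a * P b = 0 := by
  have h1 : (a : ℂ) • (P a * P b) = (b : ℂ) • (P a * P b) := by
    rw [← smul_mul_assoc, ← h.right, Matrix.mul_assoc, h.left, mul_smul_comm]
  have h2 : ((a : ℂ) - b) • (P a * P b) = 0 := by rw [sub_smul, h1, sub_self]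
  exact (smul_eq_zero.1 h2).resolve_left (sub_ne_zero.2 (by exact_mod_cast hab))

theorem Proj.zero {a : ℤ} (ha : a ∉ S) : P a = 0 := by
  rw [← Matrix.mul_one (P a), ← h.tot, Matrix.mul_sum]
  refine Finset.sum_eq_zero fun b hb => h.off ?_
  rintro rfl
  exact ha hb

theorem Proj.idem (a : ℤ) : P a * P a = P a := by
  by_cases ha : a ∈ S
  · conv_rhs => rw [← Matrix.mul_one (P a), ← h.tot, Matrix.mul_sum]
    rw [Finset.sum_eq_single a (fun b _ hb => h.off (Ne.symm hb)) (fun h => absurd ha h)]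
  · rw [h.zero ha, Matrix.mul_zero]

theorem Proj.sum_vec (x : B → ℂ) : ∑ a ∈ S, P a *ᵥ x = x := by
  rw [← Matrix.sum_mulVec, h.tot, one_mulVec]

theorem Proj.eig {a : ℤ} {x : B → ℂ} (hx : D *ᵥ x = (a : ℂ) • x) (b : ℤ) :
    P b *ᵥ x = if b = a then x else 0 := by
  have h1 : ∀ b, b ≠ a → P b *ᵥ x = 0 := by
    intro b hb
    have h1 : (b : ℂ) • (P b *ᵥ x) = (a : ℂ) • (P b *ᵥ x) := by
      rw [← smul_mulVec, ← h.right, ← mulVec_mulVec, hx, mulVec_smul]
    have h2 : ((b : ℂ) - a) • (P b *ᵥ x) = 0 := by rw [sub_smul, h1, sub_self]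
    exact (smul_eq_zero.1 h2).resolve_left (sub_ne_zero.2 (by exact_mod_cast hb))
  by_cases hb : b = a
  · subst hb
    rw [if_pos rfl]
    have h2 := h.sum_vec x
    by_cases hS : b ∈ S
    · rwa [Finset.sum_eq_single b (fun c _ hc => h1 c hc) (fun hh => absurd hS hh)] at h2
    · rw [Finset.sum_eq_zero (fun c hc => h1 c (by rintro rfl; exact hS hc))] at h2
      rw [← h2, mulVec_zero]
  · rw [if_neg hb, h1 b hb]

theorem Proj.pow_mem (n : ℕ) : ∀ X ∈ lieM D ℂ,
    ∑ a ∈ S, ∑ b ∈ S, (((a - b : ℤ) : ℂ) ^ n) • (P a * X * P b) ∈ lieM D ℂ := by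
  induction n with
  | zero =>
    intro X hX
    have h1 : ∑ a ∈ S, ∑ b ∈ S, (((a - b : ℤ) : ℂ) ^ 0) • (P a * X * P b) = X := by
      simp only [pow_zero, one_smul]
      rw [← Finset.sum_mul_sum, ← Finset.sum_mul, h.tot, one_mul, mul_one]
    rw [h1]
    exact hX
  | succ n ih =>
    intro X hX
    have h1 := lieM_bracket D (D_mem D) (ih X hX)
    have h2 : D * (∑ a ∈ S, ∑ b ∈ S, (((a - b : ℤ) : ℂ) ^ n) • (P a * X * P b)) -
        (∑ a ∈ S, ∑ b ∈ S, (((a - b : ℤ) : ℂ) ^ n) • (P a * X * P b)) * D =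
        ∑ a ∈ S, ∑ b ∈ S, (((a - b : ℤ) : ℂ) ^ (n + 1)) • (P a * X * P b) := by
      rw [Finset.mul_sum, Finset.sum_mul, ← Finset.sum_sub_distrib]
      refine Finset.sum_congr rfl fun a _ => ?_
      rw [Finset.mul_sum, Finset.sum_mul, ← Finset.sum_sub_distrib]
      refine Finset.sum_congr rfl fun b _ => ?_
      rw [mul_smul_comm, smul_mul_assoc, ← mul_assoc, ← mul_assoc, h.left, mul_assoc (P a * X),
        h.right, smul_mul_assoc, smul_mul_assoc, mul_smul_comm, smul_smul, smul_smul, ← sub_smul]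
      congr 1
      push_cast
      ring
    rw [← h2]
    exact h1

theorem Proj.poly_mem (q : ℂ[X]) : ∀ X ∈ lieM D ℂ,
    ∑ a ∈ S, ∑ b ∈ S, q.eval ((a - b : ℤ) : ℂ) • (P a * X * P b) ∈ lieM D ℂ := by
  induction q using Polynomial.induction_on' with
  | add p q hp hq =>
    intro X hX
    simp only [eval_add, add_smul, Finset.sum_add_distrib]
    exact Submodule.add_mem _ (hp X hX) (hq X hX)
  | monomial n c =>
    intro X hX
    have h1 := Submodule.smul_mem _ c (h.pow_mem n X hX)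
    rw [Finset.smul_sum] at h1
    simp only [eval_monomial]
    convert h1 using 2 with a _
    rw [Finset.smul_sum]
    refine Finset.sum_congr rfl fun b _ => ?_
    rw [smul_smul]

/-- All combinations of the components with coefficients which depend only on the weight are in
the Lie algebra. -/
theorem Proj.fun_mem (φ : ℤ → ℂ) {X : Matrix B B ℂ} (hX : X ∈ lieM D ℂ) :
    ∑ a ∈ S, ∑ b ∈ S, φ (a - b) • (P a * X * P b) ∈ lieM D ℂ := by
  classical
  let T : Finset ℤ := (S ×ˢ S).image (fun p => p.1 - p.2)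
  have h1 := h.poly_mem (Lagrange.interpolate T (fun a : ℤ => (a : ℂ)) φ) X hX
  have h2 : ∀ a ∈ S, ∀ b ∈ S,
      (Lagrange.interpolate T (fun a : ℤ => (a : ℂ)) φ).eval ((a - b : ℤ) : ℂ) = φ (a - b) := by
    intro a ha b hb
    refine Lagrange.eval_interpolate_at_node φ (fun x _ y _ hxy => by exact_mod_cast hxy) ?_
    exact Finset.mem_image.2 ⟨(a, b), Finset.mem_product.2 ⟨ha, hb⟩, rfl⟩
  have h3 : ∑ a ∈ S, ∑ b ∈ S, φ (a - b) • (P a * X * P b) =
      ∑ a ∈ S, ∑ b ∈ S, (Lagrange.interpolate T (fun a : ℤ => (a : ℂ)) φ).eval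
        ((a - b : ℤ) : ℂ) • (P a * X * P b) := by
    refine Finset.sum_congr rfl fun a ha => Finset.sum_congr rfl fun b hb => ?_
    rw [h2 a ha b hb]
  rw [h3]
  exact h1

/-- Applied to an eigenvector. -/
theorem Proj.fun_vec (φ : ℤ → ℂ) {X : Matrix B B ℂ} {b : ℤ} {x : B → ℂ}
    (hx : D *ᵥ x = (b : ℂ) • x) :
    (∑ a ∈ S, ∑ b ∈ S, φ (a - b) • (P a * X * P b)) *ᵥ x =
      ∑ a ∈ S, φ (a - b) • (P a *ᵥ (X *ᵥ x)) := by
  rw [Matrix.sum_mulVec]
  refine Finset.sum_congr rfl fun a _ => ?_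
  rw [Matrix.sum_mulVec]
  by_cases hb : b ∈ S
  · rw [Finset.sum_eq_single b]
    · rw [smul_mulVec, ← mulVec_mulVec, h.eig hx, if_pos rfl, mulVec_mulVec]
    · intro c _ hc
      rw [smul_mulVec, ← mulVec_mulVec, h.eig hx, if_neg hc, mulVec_zero, smul_zero]
    · intro hh
      exact absurd hb hh
  · have hx0 : x = 0 := by
      have h1 := h.eig hx b
      rw [if_pos rfl, h.zero hb, zero_mulVec] at h1
      exact h1.symm
    subst hx0
    simp

end Pool.Agent.W437.CY
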