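import Mathlib
import Pool.Agent.W437.CY.Wt

/-!
# Elements of rank one in the Lie algebra of a Hodge structure of Calabi-Yau type
-/

set_option linter.unusedSectionVars false

namespace Pool.Agent.W437.CY

open Matrix Pool.Agent.W437.HC Pool.Agent.W437.HD

variable {B : Type*} [Fintype B] [DecidableEq B]

theorem ww_sp {Om X : Matrix B B ℂ} (hX : Xᵀ * Om + Om * X = 0) (x y : B → ℂ) :
    ww Om (X *ᵥ x) y = -ww Om x (X *ᵥ y) := by
  unfold ww
  rw [mulVec_mulVec, eq_neg_of_add_eq_zero_right hX, neg_mulVec, dotProduct_neg, neg_neg,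
    ← mulVec_mulVec, dotProduct_mulVec x, vecMul_transpose]

theorem ww_zero_left {Om : Matrix B B ℂ} (y : B → ℂ) : ww Om 0 y = 0 := zero_dotProduct _

theorem ww_zero_right {Om : Matrix B B ℂ} (y : B → ℂ) : ww Om y 0 = 0 := by
  unfold ww
  rw [mulVec_zero, dotProduct_zero]

theorem ww_sum_right {Om : Matrix B B ℂ} {ι : Type*} (s : Finset ι) (x : B → ℂ)
    (y : ι → B → ℂ) : ww Om x (∑ i ∈ s, y i) = ∑ i ∈ s, ww Om x (y i) := by
  rw [← wwL_apply, map_sum]
  rfl

/-- The complex conjugate of a vector. -/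
noncomputable def cj (x : B → ℂ) : B → ℂ := fun i => starRingEnd ℂ (x i)

theorem cj_cj (x : B → ℂ) : cj (cj x) = x := by
  funext i
  exact Complex.conj_conj _

theorem cj_smul (a : ℂ) (x : B → ℂ) : cj (a • x) = starRingEnd ℂ a • cj x := by
  funext i
  simp [cj]

theorem cj_mulVec (M : Matrix B B ℂ) (x : B → ℂ) :
    cj (M *ᵥ x) = M.map (starRingEnd ℂ) *ᵥ cj x := by
  funext i
  simp [cj, mulVec, dotProduct]

/-- The data of a Hodge structure of Calabi-Yau type of weight `k`. -/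
structure Dat (D Om : Matrix B B ℂ) (S : Finset ℤ) (P : ℤ → Matrix B B ℂ) (k : ℤ)
    (v : B → ℂ) : Prop where
  prj : Proj D S P
  sub : ∀ a ∈ S, -k ≤ a ∧ a ≤ k
  pos : 0 < k
  skew : Omᵀ = -Om
  rat : ∀ σ : ℂ →+* ℂ, Om.map σ = Om
  sp : ∀ X ∈ lieM D ℂ, Xᵀ * Om + Om * X = 0
  cjD : D.map (starRingEnd ℂ) = -D
  eig : D *ᵥ v = (k : ℂ) • v
  top : ∀ x, D *ᵥ x = (k : ℂ) • x → ∃ c : ℂ, x = c • v
  nz : ww Om v (cj v) ≠ 0

variable {D Om : Matrix B B ℂ} {S : Finset ℤ} {P : ℤ → Matrix B B ℂ} {k : ℤ} {v : B → ℂ}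
  (d : Dat D Om S P k v)

include d

theorem Dat.D_cj (x : B → ℂ) : D *ᵥ cj x = -cj (D *ᵥ x) := by
  rw [cj_mulVec, d.cjD, neg_mulVec, neg_neg]

theorem Dat.eig_cj : D *ᵥ cj v = ((-k : ℤ) : ℂ) • cj v := by
  rw [d.D_cj, d.eig, cj_smul]
  simp

theorem Dat.bot {y : B → ℂ} (hy : D *ᵥ y = ((-k : ℤ) : ℂ) • y) : ∃ c : ℂ, y = c • cj v := by
  obtain ⟨c, hc⟩ := d.top (cj y) (by rw [d.D_cj, hy, cj_smul]; simp)
  refine ⟨starRingEnd ℂ c, ?_⟩
  rw [← cj_smul, ← hc, cj_cj]

theorem Dat.ww_eig {a b : ℤ} {x y : B → ℂ} (hx : D *ᵥ x = (a : ℂ) • x)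
    (hy : D *ᵥ y = (b : ℂ) • y) (hab : a + b ≠ 0) : ww Om x y = 0 := by
  have h1 := ww_sp (d.sp D (D_mem D)) x y
  rw [hx, hy, ww_smul_left, ww_smul_right] at h1
  have h2 : ((a : ℂ) + b) * ww Om x y = 0 := by linear_combination h1
  exact (mul_eq_zero.1 h2).resolve_left (by exact_mod_cast hab)

theorem Dat.P_eig (a : ℤ) (x : B → ℂ) : D *ᵥ (P a *ᵥ x) = (a : ℂ) • (P a *ᵥ x) := by
  rw [mulVec_mulVec, d.prj.left, smul_mulVec]

theorem Dat.ww_sym (x y : B → ℂ) : ww Om x y = -ww Om y x := ww_anti d.skew x y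

/-- If an element of the Lie algebra moves `v` to a vector which is not orthogonal to `v` then
the square of `v` is in the Lie algebra. -/
theorem Dat.good_of_ne {Y : Matrix B B ℂ} (hY : Y ∈ lieM D ℂ) (hne : ww Om v (Y *ᵥ v) ≠ 0) :
    Good D Om v := by
  have hk := d.pos
  -- the component
  obtain ⟨μ, hμ⟩ := d.bot (d.P_eig (-k) (Y *ᵥ v))
  have h1 : ww Om v (Y *ᵥ v) = μ * ww Om v (cj v) := by
    conv_lhs => rw [← d.prj.sum_vec (Y *ᵥ v)]
    rw [ww_sum_right]
    by_cases hS : -k ∈ S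
    · rw [Finset.sum_eq_single (-k)]
      · rw [hμ, ww_smul_right]
      · intro b _ hb
        exact d.ww_eig d.eig (d.P_eig b _) (by intro h; apply hb; omega)
      · intro h
        exact absurd hS h
    · rw [Finset.sum_eq_zero]
      · rw [← ww_smul_right, ← hμ, d.prj.zero hS, zero_mulVec, ww_zero_right]
      · intro b hb
        refine d.ww_eig d.eig (d.P_eig b _) ?_
        intro h
        apply hS
        have : b = -k := by omega
        rwa [← this]
  have hμ0 : μ ≠ 0 := by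
    rintro rfl
    rw [zero_mul] at h1
    exact hne h1
  have hw : ww Om (cj v) v ≠ 0 := by
    rw [d.ww_sym, neg_ne_zero]
    exact d.nz
  obtain ⟨t, ht⟩ : ∃ t : ℂ, t = μ * (2 * ww Om (cj v) v)⁻¹ := ⟨_, rfl⟩
  have ht0 : t ≠ 0 := by
    rw [ht]
    exact mul_ne_zero hμ0 (inv_ne_zero (mul_ne_zero two_ne_zero hw))
  have hZ := d.prj.fun_mem (fun c => if c = -(2 * k) then 1 else 0) hY
  have hZeq : ∑ a ∈ S, ∑ b ∈ S, (if a - b = -(2 * k) then (1 : ℂ) else 0) • (P a * Y * P b) =
      t • SS Om (cj v) (cj v) := by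
    have key : ∀ x, (∑ a ∈ S, ∑ b ∈ S, (if a - b = -(2 * k) then (1 : ℂ) else 0) •
        (P a * Y * P b)) *ᵥ x = (t • SS Om (cj v) (cj v)) *ᵥ x := by
      intro x
      rw [← d.prj.sum_vec x, mulVec_sum, mulVec_sum]
      refine Finset.sum_congr rfl fun b hb => ?_
      have hb' := d.sub b hb
      rw [d.prj.fun_vec (fun c => if c = -(2 * k) then 1 else 0) (d.P_eig b x), smul_mulVec,
        SS_vec]
      by_cases hbk : b = k
      · subst hbk
        obtain ⟨c, hc⟩ := d.top _ (d.P_eig b x)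
        rw [hc]
        have h2 : ∑ a ∈ S, (if a - b = -(2 * b) then (1 : ℂ) else 0) • P a *ᵥ (Y *ᵥ (c • v)) =
            P (-b) *ᵥ (Y *ᵥ (c • v)) := by
          by_cases hS : -b ∈ S
          · rw [Finset.sum_eq_single (-b)]
            · rw [if_pos (by omega), one_smul]
            · intro a _ ha
              rw [if_neg (by intro h; apply ha; omega), zero_smul]
            · intro h
              exact absurd hS h
          · rw [d.prj.zero hS, zero_mulVec]
            refine Finset.sum_eq_zero fun a ha => ?_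
            rw [if_neg, zero_smul]
            intro h
            apply hS
            have : a = -b := by omega
            rwa [← this]
        rw [h2, mulVec_smul, mulVec_smul, hμ, ← two_smul ℂ, smul_smul, smul_smul, smul_smul,
          ww_smul_right, ht]
        congr 1
        field_simp
      · have h3 : ww Om (cj v) (P b *ᵥ x) = 0 :=
          d.ww_eig d.eig_cj (d.P_eig b x) (by intro h; apply hbk; omega)
        rw [h3, zero_smul, add_zero, smul_zero]
        refine Finset.sum_eq_zero fun a ha => ?_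
        have ha' := d.sub a ha
        rw [if_neg, zero_smul]
        intro h
        apply hbk
        omega
    ext i j
    have h2 := congrFun (key (Pi.single j 1)) i
    rwa [mulVec_single_one, mulVec_single_one] at h2
  rw [hZeq] at hZ
  have h4 : SS Om (cj v) (cj v) ∈ lieM D ℂ := mem_of_smul_mem ht0 hZ
  have h5 : SS Om v v ∈ lieM D ℂ := by
    have h6 := map_mem_aut h4 (starRingEnd ℂ)
    rw [SS_map (d.rat _)] at h6
    have h7 : (fun i => starRingEnd ℂ (cj v i)) = v := cj_cj v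
    rwa [h7] at h6
  exact ⟨h5, cj v, h4, d.nz⟩

end Pool.Agent.W437.CY
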