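import Mathlib
import Pool.Agent.W437.CY.Core
import Pool.Agent.W437.HP.Ideal

/-!
# The trace form on the Lie algebra of a polarized Hodge structure of odd weight
-/

set_option linter.unusedSectionVars false

namespace Pool.Agent.W437.CY

open Matrix ComplexOrder Pool.Agent.W437.HC Pool.Agent.W437.HD Pool.Agent.W437.HP

variable {B : Type*} [Fintype B] [DecidableEq B]

/-- The data of a polarized Hodge structure of odd weight. -/
structure Pol (D : Matrix B B ℂ) (Om : Matrix B B ℚ) (S : Finset ℤ) (P : ℤ → Matrix B B ℂ) :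
    Prop where
  prj : Proj D S P
  skew : Omᵀ = -Om
  unit : IsUnit Om
  spD : Dᵀ * cK ℂ Om + cK ℂ Om * D = 0
  cjD : D.map (starRingEnd ℂ) = -D
  odd : ∀ a : ℤ, ∀ x, D *ᵥ x = (a : ℂ) • x → x ≠ 0 → Odd a
  pos : ∀ a : ℤ, ∀ x, D *ᵥ x = (a : ℂ) • x → x ≠ 0 →
    0 < Complex.I ^ a * ww (cK ℂ Om) x (cj x)

variable {D : Matrix B B ℂ} {Om : Matrix B B ℚ} {S : Finset ℤ} {P : ℤ → Matrix B B ℂ}
  (d : Pol D Om S P)

include d

theorem Pol.skewC : (cK ℂ Om)ᵀ = -cK ℂ Om := by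
  rw [← cK_transpose, d.skew]
  ext i j
  simp [cK]

theorem Pol.D_cj (x : B → ℂ) : D *ᵥ cj x = -cj (D *ᵥ x) := by
  rw [cj_mulVec, d.cjD, neg_mulVec, neg_neg]

theorem Pol.P_eig (a : ℤ) (x : B → ℂ) : D *ᵥ (P a *ᵥ x) = (a : ℂ) • (P a *ᵥ x) := by
  rw [mulVec_mulVec, d.prj.left, smul_mulVec]

theorem Pol.cj_eig {a : ℤ} {x : B → ℂ} (hx : D *ᵥ x = (a : ℂ) • x) :
    D *ᵥ cj x = ((-a : ℤ) : ℂ) • cj x := by
  rw [d.D_cj, hx, cj_smul]
  simp

theorem Pol.ww_eig {a b : ℤ} {x y : B → ℂ} (hx : D *ᵥ x = (a : ℂ) • x)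
    (hy : D *ᵥ y = (b : ℂ) • y) (hab : a + b ≠ 0) : ww (cK ℂ Om) x y = 0 := by
  have h1 := ww_sp d.spD x y
  rw [hx, hy, ww_smul_left, ww_smul_right] at h1
  have h2 : ((a : ℂ) + b) * ww (cK ℂ Om) x y = 0 := by linear_combination h1
  exact (mul_eq_zero.1 h2).resolve_left (by exact_mod_cast hab)

omit d in
theorem mat_ext {M N : Matrix B B ℂ} (h : ∀ x : B → ℂ, M *ᵥ x = N *ᵥ x) : M = N := by
  ext i j
  have h2 := congrFun (h (Pi.single j 1)) i
  rwa [mulVec_single_one, mulVec_single_one] at h2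

omit d in
theorem mat_ext' {M N : Matrix B B ℂ} (h : ∀ x y : B → ℂ, x ⬝ᵥ (M *ᵥ y) = x ⬝ᵥ (N *ᵥ y)) :
    M = N := by
  refine mat_ext fun y => ?_
  funext i
  have h2 := h (Pi.single i 1) y
  rwa [single_one_dotProduct, single_one_dotProduct] at h2

/-- The projections are adjoint. -/
theorem Pol.P_adj (a : ℤ) : (P a)ᵀ * cK ℂ Om = cK ℂ Om * P (-a) := by
  refine mat_ext' fun x y => ?_
  have h1 : x ⬝ᵥ (((P a)ᵀ * cK ℂ Om) *ᵥ y) = ww (cK ℂ Om) (P a *ᵥ x) y := by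
    unfold ww
    rw [← mulVec_mulVec, dotProduct_mulVec x, vecMul_transpose]
  have h2 : x ⬝ᵥ ((cK ℂ Om * P (-a)) *ᵥ y) = ww (cK ℂ Om) x (P (-a) *ᵥ y) := by
    unfold ww
    rw [mulVec_mulVec]
  rw [h1, h2]
  have h3 : ww (cK ℂ Om) (P a *ᵥ x) y = ww (cK ℂ Om) (P a *ᵥ x) (P (-a) *ᵥ y) := by
    conv_lhs => rw [← d.prj.sum_vec y]
    rw [ww_sum_right]
    by_cases hS : -a ∈ S
    · rw [Finset.sum_eq_single (-a)]
      · intro b _ hb
        exact d.ww_eig (d.P_eig a x) (d.P_eig b y) (by intro h; apply hb; omega)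
      · intro h
        exact absurd hS h
    · rw [d.prj.zero hS, zero_mulVec, ww_zero_right]
      refine Finset.sum_eq_zero fun b hb => d.ww_eig (d.P_eig a x) (d.P_eig b y) ?_
      intro h
      apply hS
      have : b = -a := by omega
      rwa [← this]
  have h4 : ww (cK ℂ Om) x (P (-a) *ᵥ y) = ww (cK ℂ Om) (P a *ᵥ x) (P (-a) *ᵥ y) := by
    rw [ww_anti d.skewC x, ww_anti d.skewC (P a *ᵥ x)]
    congr 1
    conv_lhs => rw [← d.prj.sum_vec x]
    rw [ww_sum_right]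
    by_cases hS : a ∈ S
    · rw [Finset.sum_eq_single a]
      · intro b _ hb
        exact d.ww_eig (d.P_eig (-a) y) (d.P_eig b x) (by intro h; apply hb; omega)
      · intro h
        exact absurd hS h
    · rw [d.prj.zero hS, zero_mulVec, ww_zero_right]
      refine Finset.sum_eq_zero fun b hb => d.ww_eig (d.P_eig (-a) y) (d.P_eig b x) ?_
      intro h
      apply hS
      have : b = a := by omega
      rwa [← this]
  rw [h3, h4]

theorem Pol.cj_P (a : ℤ) (x : B → ℂ) : cj (P a *ᵥ x) = P (-a) *ᵥ cj x := by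
  conv_rhs => rw [← d.prj.sum_vec x]
  have h1 : cj (∑ b ∈ S, P b *ᵥ x) = ∑ b ∈ S, cj (P b *ᵥ x) := by
    funext i
    simp [cj, Finset.sum_apply, map_sum]
  rw [h1, mulVec_sum]
  have h2 : ∀ b, P (-a) *ᵥ cj (P b *ᵥ x) = if b = a then cj (P b *ᵥ x) else 0 := by
    intro b
    rw [d.prj.eig (d.cj_eig (d.P_eig b x))]
    by_cases hb : b = a
    · rw [if_pos (by rw [hb]), if_pos hb]
    · rw [if_neg (by omega), if_neg hb]
  rw [Finset.sum_congr rfl (fun b _ => h2 b)]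
  by_cases ha : a ∈ S
  · rw [Finset.sum_ite_eq' S a, if_pos ha]
  · rw [Finset.sum_ite_eq' S a, if_neg ha, d.prj.zero ha, zero_mulVec]
    funext i
    simp [cj]

/-- The Weil operator. -/
noncomputable def Cw (S : Finset ℤ) (P : ℤ → Matrix B B ℂ) : Matrix B B ℂ :=
  ∑ a ∈ S, Complex.I ^ a • P a

omit d in
theorem I_zpow_neg {a : ℤ} (ha : Odd a) : Complex.I ^ (-a) = -Complex.I ^ a := by
  rw [_root_.zpow_neg]
  refine inv_eq_of_mul_eq_one_right ?_
  rw [mul_neg, ← mul_zpow, Complex.I_mul_I, ha.neg_one_zpow, neg_neg]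

theorem Pol.C_vec (x : B → ℂ) : Cw S P *ᵥ x = ∑ a ∈ S, Complex.I ^ a • (P a *ᵥ x) := by
  unfold Cw
  rw [Matrix.sum_mulVec]
  exact Finset.sum_congr rfl fun a _ => smul_mulVec _ _ _

theorem Pol.P_zero_of_not_odd {a : ℤ} (ha : ¬Odd a) : P a = 0 := by
  refine mat_ext fun x => ?_
  rw [zero_mulVec]
  by_contra h
  exact ha (d.odd a _ (d.P_eig a x) h)

theorem Pol.C_mul_neg : Cw S P * (-Cw S P) = 1 := by
  have h1 : Cw S P * Cw S P = ∑ a ∈ S, (Complex.I ^ a * Complex.I ^ a) • P a := by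
    unfold Cw
    rw [Finset.sum_mul]
    refine Finset.sum_congr rfl fun a ha => ?_
    rw [Finset.mul_sum, Finset.sum_eq_single a]
    · rw [smul_mul_smul_comm, d.prj.idem]
    · intro b _ hb
      rw [smul_mul_smul_comm, d.prj.off (Ne.symm hb), smul_zero]
    · intro h
      exact absurd ha h
  rw [mul_neg, h1, ← Finset.sum_neg_distrib, ← d.prj.tot]
  refine Finset.sum_congr rfl fun a _ => ?_
  by_cases ha : Odd a
  · rw [← mul_zpow, Complex.I_mul_I, ha.neg_one_zpow, neg_one_smul, neg_neg]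
  · rw [d.P_zero_of_not_odd ha, smul_zero, neg_zero]

/-- The hermitian form of the polarization. -/
theorem Pol.posDef : (-(cK ℂ Om * Cw S P)).PosDef := by
  refine PosDef.of_dotProduct_mulVec_pos ?_ fun x hx => ?_
  · -- hermitian
    have h1 : (cK ℂ Om)ᴴ = -cK ℂ Om := by
      have h2 : (cK ℂ Om)ᴴ = (cK ℂ Om)ᵀ := by
        ext i j
        simp [cK]
      rw [h2, d.skewC]
    have h3 : (Cw S P)ᴴ * cK ℂ Om = -(cK ℂ Om * Cw S P) := by
      have h4 : (Cw S P)ᴴ = ∑ a ∈ S, (starRingEnd ℂ (Complex.I ^ a)) • (P a)ᴴ := by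
        unfold Cw
        rw [conjTranspose_sum]
        refine Finset.sum_congr rfl fun a _ => ?_
        rw [conjTranspose_smul]
        rfl
      have h5 : ∀ a, (P a)ᴴ * cK ℂ Om = cK ℂ Om * P a := by
        intro a
        have h6 : (P a)ᴴ = (P (-a))ᵀ := by
          have h7 : (P a).map (starRingEnd ℂ) = P (-a) := by
            refine mat_ext fun x => ?_
            have h8 := d.cj_P a (cj x)
            rw [cj_mulVec, cj_cj] at h8
            exact h8
          rw [← h7]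
          rfl
        rw [h6, d.P_adj, neg_neg]
      rw [h4, Finset.sum_mul]
      have h9 : cK ℂ Om * Cw S P = ∑ a ∈ S, Complex.I ^ a • (cK ℂ Om * P a) := by
        unfold Cw
        rw [Finset.mul_sum]
        exact Finset.sum_congr rfl fun a _ => mul_smul_comm _ _ _
      rw [h9, ← Finset.sum_neg_distrib]
      refine Finset.sum_congr rfl fun a _ => ?_
      rw [smul_mul_assoc, h5, ← neg_smul]
      by_cases ha : Odd a
      · congr 1
        rw [map_zpow₀, Complex.conj_I, ← I_zpow_neg ha, _root_.zpow_neg, ← _root_.inv_zpow,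
          Complex.inv_I]
      · rw [d.P_zero_of_not_odd ha, mul_zero, smul_zero, smul_zero]
    rw [Matrix.IsHermitian, conjTranspose_neg, conjTranspose_mul, h1, mul_neg, h3, neg_neg]
  · -- positive
    have h1 : star x ⬝ᵥ (-(cK ℂ Om * Cw S P) *ᵥ x) = ww (cK ℂ Om) (Cw S P *ᵥ x) (cj x) := by
      rw [ww_anti d.skewC, neg_mulVec, dotProduct_neg, ← mulVec_mulVec]
      rfl
    rw [h1]
    have h2 : cj x = ∑ b ∈ S, cj (P b *ᵥ x) := by
      conv_lhs => rw [← d.prj.sum_vec x]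
      funext i
      simp [cj, Finset.sum_apply, map_sum]
    have h3 : ww (cK ℂ Om) (Cw S P *ᵥ x) (cj x) =
        ∑ a ∈ S, Complex.I ^ a * ww (cK ℂ Om) (P a *ᵥ x) (cj (P a *ᵥ x)) := by
      rw [d.C_vec, ww_anti d.skewC, ww_sum_right, ← Finset.sum_neg_distrib]
      refine Finset.sum_congr rfl fun a ha => ?_
      rw [ww_smul_right, ← mul_neg, ← ww_anti d.skewC, h2, ww_sum_right,
        Finset.sum_eq_single a]
      · intro b _ hb
        exact d.ww_eig (d.P_eig a x) (d.cj_eig (d.P_eig b x)) (by intro h; apply hb; omega)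
      · intro h
        exact absurd ha h
    rw [h3]
    have h4 : ∃ a ∈ S, P a *ᵥ x ≠ 0 := by
      by_contra h
      push Not at h
      apply hx
      rw [← d.prj.sum_vec x]
      exact Finset.sum_eq_zero h
    obtain ⟨a, ha, hax⟩ := h4
    refine Finset.sum_pos' (fun b _ => ?_) ⟨a, ha, d.pos a _ (d.P_eig a x) hax⟩
    by_cases hb : P b *ᵥ x = 0
    · rw [hb, ww_zero_left, mul_zero]
    · exact (d.pos b _ (d.P_eig b x) hb).le

open scoped MatrixOrder in
omit d in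
theorem exists_sqrtC {n : Type*} [Fintype n] [DecidableEq n] {H : Matrix n n ℂ} (hH : H.PosDef) :
    ∃ y : Matrix n n ℂ, IsUnit y ∧ H = star y * y :=
  CStarAlgebra.isStrictlyPositive_iff_eq_star_mul_self.mp hH.isStrictlyPositive

/-- A real element of the symplectic Lie algebra which is orthogonal to its transform by the
Weil operator is zero. -/
theorem Pol.aniso {X : Matrix B B ℚ} (hX : Xᵀ * Om + Om * X = 0)
    (h0 : trace (cK ℂ X * ∑ a ∈ S, ∑ b ∈ S, (Complex.I ^ (-(a - b))) • (P a * cK ℂ X * P b)) = 0) :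
    X = 0 := by
  obtain ⟨y, ⟨u, rfl⟩, hy⟩ := exists_sqrtC d.posDef
  set C := Cw S P with hC
  set Xc := cK ℂ X with hXc
  have hXO : Xcᵀ * cK ℂ Om = -(cK ℂ Om * Xc) := by
    have h1 := congrArg (cK ℂ) hX
    have h2 : cK ℂ (Xᵀ * Om + Om * X) = cK ℂ (Xᵀ * Om) + cK ℂ (Om * X) := by
      ext i j
      simp [cK]
    rw [h2, cK_mul, cK_mul, cK_transpose, cK_zero] at h1
    exact eq_neg_of_add_eq_zero_left h1
  have hXH : Xcᴴ = Xcᵀ := by
    ext i j
    simp [hXc, cK]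
  -- the transform
  have hC1 : C * (-C) = 1 := d.C_mul_neg
  have hC2 : (-C) * C = 1 := mul_eq_one_comm.1 hC1
  have hY : ∑ a ∈ S, ∑ b ∈ S, (Complex.I ^ (-(a - b))) • (P a * Xc * P b) = (-C) * Xc * C := by
    have h1 : -C = ∑ a ∈ S, Complex.I ^ (-a) • P a := by
      rw [hC, Cw, ← Finset.sum_neg_distrib]
      refine Finset.sum_congr rfl fun a _ => ?_
      by_cases ha : Odd a
      · rw [I_zpow_neg ha, neg_smul]
      · rw [d.P_zero_of_not_odd ha, smul_zero, smul_zero, neg_zero]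
    rw [h1, hC, Cw, Finset.sum_mul, Finset.sum_mul]
    refine Finset.sum_congr rfl fun a _ => ?_
    rw [Finset.mul_sum]
    refine Finset.sum_congr rfl fun b _ => ?_
    rw [smul_mul_assoc, smul_mul_smul_comm, ← zpow_add₀ Complex.I_ne_zero]
    congr 2
    ring
  rw [hY] at h0
  obtain ⟨M, hM⟩ : ∃ M, M = -(cK ℂ Om * C) := ⟨_, rfl⟩
  rw [← hM] at hy
  have h1 : M * (-((-C) * Xc * C)) = Xcᴴ * M := by
    rw [hM, hXH]
    have h2 : -(cK ℂ Om * C) * -(-C * Xc * C) = cK ℂ Om * (C * (-C)) * Xc * C := by noncomm_ring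
    have h3 : Xcᵀ * -(cK ℂ Om * C) = -(Xcᵀ * cK ℂ Om) * C := by noncomm_ring
    rw [h2, h3, hC1, hXO, mul_one, neg_neg]
  obtain ⟨yi, hyi⟩ : ∃ yi, yi = ((u⁻¹ : (Matrix B B ℂ)ˣ) : Matrix B B ℂ) := ⟨_, rfl⟩
  obtain ⟨y, hyy⟩ : ∃ y, y = (u : Matrix B B ℂ) := ⟨_, rfl⟩
  rw [← hyy] at hy
  have hy1 : yi * y = 1 := by rw [hyi, hyy, Units.inv_mul]
  have hy2 : y * yi = 1 := by rw [hyi, hyy, Units.mul_inv]
  have hy3 : yiᴴ * yᴴ = 1 := by rw [← conjTranspose_mul, hy2, conjTranspose_one]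
  have h2 : -((-C) * Xc * C) = yi * yiᴴ * Xcᴴ * yᴴ * y := by
    have h3 : yi * yiᴴ * (M * (-((-C) * Xc * C))) = -((-C) * Xc * C) := by
      rw [hy, star_eq_conjTranspose]
      have h4 : yi * yiᴴ * (yᴴ * y * -(-C * Xc * C)) =
          yi * (yiᴴ * yᴴ) * y * -(-C * Xc * C) := by noncomm_ring
      rw [h4, hy3, mul_one, hy1, one_mul]
    rw [← h3, h1, hy, star_eq_conjTranspose]
    noncomm_ring
  have h3 : trace ((y * Xc * yi) * (y * Xc * yi)ᴴ) = 0 := by
    rw [conjTranspose_mul, conjTranspose_mul]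
    have h4 : y * Xc * yi * (yiᴴ * (Xcᴴ * yᴴ)) = y * (Xc * yi * yiᴴ * Xcᴴ * yᴴ) := by
      noncomm_ring
    rw [h4, trace_mul_comm]
    have h5 : Xc * yi * yiᴴ * Xcᴴ * yᴴ * y = Xc * (yi * yiᴴ * Xcᴴ * yᴴ * y) := by noncomm_ring
    rw [h5, ← h2, mul_neg, trace_neg, h0, neg_zero]
  rw [trace_mul_conjTranspose_self_eq_zero_iff] at h3
  have h6 : Xc = 0 := by
    have h7 : yi * (y * Xc * yi) * y = Xc := by
      have : yi * (y * Xc * yi) * y = (yi * y) * Xc * (yi * y) := by noncomm_ring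
      rw [this, hy1, one_mul, mul_one]
    rw [← h7, h3, mul_zero, zero_mul]
  ext i j
  have h7 := congrFun (congrFun h6 i) j
  simpa [hXc, cK] using h7

end Pool.Agent.W437.CY
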