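import Mathlib
import Pool.Agent.W437.CY.Core
import Pool.Agent.W437.HD.Deriv

/-!
# The orbit of the top vector and derivations of its coordinates
-/

set_option linter.unusedSectionVars false

namespace Pool.Agent.W437.CY

open Matrix Pool.Agent.W437.HC Pool.Agent.W437.HD

variable {B : Type*} [Fintype B] [DecidableEq B]

/-- The vectors of the form `X v`. -/
noncomputable def Wm (D : Matrix B B ℂ) (v : B → ℂ) : Submodule ℂ (B → ℂ) :=
  (lieM D ℂ).map ((Matrix.mulVecBilin ℂ ℂ).flip v)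

theorem mem_Wm {D : Matrix B B ℂ} {v x : B → ℂ} : x ∈ Wm D v ↔ ∃ X ∈ lieM D ℂ, X *ᵥ v = x :=
  Iff.rfl

variable {D Om : Matrix B B ℂ} {S : Finset ℤ} {P : ℤ → Matrix B B ℂ} {k : ℤ} {v : B → ℂ}
  (d : Dat D Om S P k v)

include d

theorem Dat.self_mem : v ∈ Wm D v := by
  have hk : (k : ℂ) ≠ 0 := by exact_mod_cast d.pos.ne'
  refine mem_Wm.2 ⟨(k : ℂ)⁻¹ • D, Submodule.smul_mem _ _ (D_mem D), ?_⟩
  rw [smul_mulVec, d.eig, smul_smul, inv_mul_cancel₀ hk, one_smul]

/-- The components of the elements of `Wm`. -/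
theorem Dat.P_mem {x : B → ℂ} (hx : x ∈ Wm D v) (a : ℤ) : P a *ᵥ x ∈ Wm D v := by
  obtain ⟨X, hX, rfl⟩ := mem_Wm.1 hx
  refine mem_Wm.2 ⟨_, d.prj.fun_mem (fun c => if c = a - k then 1 else 0) hX, ?_⟩
  rw [d.prj.fun_vec (fun c => if c = a - k then 1 else 0) d.eig]
  by_cases ha : a ∈ S
  · rw [Finset.sum_eq_single a]
    · rw [if_pos rfl, one_smul]
    · intro b _ hb
      rw [if_neg (by intro h; apply hb; omega), zero_smul]
    · intro h
      exact absurd ha h
  · rw [d.prj.zero ha, zero_mulVec]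
    refine Finset.sum_eq_zero fun b hb => ?_
    rw [if_neg, zero_smul]
    intro h
    apply ha
    have : b = a := by omega
    rwa [← this]

/-- The derivatives of the top vector. -/
theorem Dat.deriv_mem (δ : Derivation ℚ ℂ ℂ) : (fun i => δ (v i)) ∈ Wm D v := by
  have h1 : ((k : ℂ) • fun i => δ (v i)) =
      D.map δ.toLinearMap *ᵥ v + D *ᵥ (fun i => δ (v i)) := by
    funext i
    have h2 := congrFun d.eig i
    rw [Pi.smul_apply, smul_eq_mul, mulVec, dotProduct] at h2
    have h3 := congrArg δ h2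
    rw [map_sum, Derivation.leibniz] at h3
    have hk : δ (k : ℂ) = 0 := by simp
    rw [hk, smul_zero, add_zero, smul_eq_mul] at h3
    rw [Pi.smul_apply, smul_eq_mul, ← h3, Pi.add_apply, mulVec, mulVec, dotProduct, dotProduct,
      ← Finset.sum_add_distrib]
    refine Finset.sum_congr rfl fun j _ => ?_
    rw [Derivation.leibniz, Matrix.map_apply, smul_eq_mul, smul_eq_mul]
    change D i j * δ (v j) + v j * δ (D i j) = δ (D i j) * v j + D i j * δ (v j)
    ring
  obtain ⟨y, hy⟩ : ∃ y : B → ℂ, y = fun i => δ (v i) := ⟨_, rfl⟩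
  rw [← hy] at h1 ⊢
  have h2 : D.map δ.toLinearMap *ᵥ v ∈ Wm D v :=
    mem_Wm.2 ⟨_, map_mem_C (D_mem D) δ.toLinearMap, rfl⟩
  rw [← d.prj.sum_vec y]
  refine Submodule.sum_mem _ fun a _ => ?_
  by_cases hak : a = k
  · obtain ⟨c, hc⟩ := d.top (P a *ᵥ y) (by rw [← hak]; exact d.P_eig a y)
    rw [hc]
    exact Submodule.smul_mem _ _ d.self_mem
  · have h3 := d.P_mem h2 a
    have h4 : D.map δ.toLinearMap *ᵥ v = (k : ℂ) • y - D *ᵥ y := by
      rw [h1, add_sub_cancel_right]
    have h5 : P a *ᵥ (D *ᵥ y) = (a : ℂ) • (P a *ᵥ y) := by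
      rw [mulVec_mulVec, d.prj.right, smul_mulVec]
    rw [h4, mulVec_sub, mulVec_smul, h5, ← sub_smul] at h3
    have hne : ((k : ℂ) - a) ≠ 0 := sub_ne_zero.2 (by
      intro h
      have h' : k = a := by exact_mod_cast h
      exact hak h'.symm)
    have h6 := Submodule.smul_mem _ ((k : ℂ) - a)⁻¹ h3
    rwa [smul_smul, inv_mul_cancel₀ hne, one_smul] at h6

/-- If the Lie algebra does not move `v` to a vector which is not orthogonal to it then `Wm` is
isotropic. -/
theorem Dat.isotropic (h0 : ∀ Y ∈ lieM D ℂ, ww Om v (Y *ᵥ v) = 0) {x y : B → ℂ}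
    (hx : x ∈ Wm D v) (hy : y ∈ Wm D v) : ww Om x y = 0 := by
  obtain ⟨X, hX, rfl⟩ := mem_Wm.1 hx
  obtain ⟨Y, hY, rfl⟩ := mem_Wm.1 hy
  have h1 := h0 _ (lieM_bracket D hX hY)
  rw [sub_mulVec, ← mulVec_mulVec, ← mulVec_mulVec, sub_eq_add_neg, ww_add_right,
    ← neg_one_smul ℂ, ww_smul_right] at h1
  have h2 := ww_sp (d.sp X hX) v (Y *ᵥ v)
  have h3 := ww_sp (d.sp Y hY) v (X *ᵥ v)
  have h4 := d.ww_sym (X *ᵥ v) (Y *ᵥ v)
  have h5 : (2 : ℂ) * ww Om (X *ᵥ v) (Y *ᵥ v) = 0 := by linear_combination h2 - h3 + h4 - h1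
  exact (mul_eq_zero.1 h5).resolve_left two_ne_zero

omit d in
/-- The dimension of an isotropic subspace. -/
theorem two_mul_finrank_le (hOm : Omᵀ = -Om) (hu : IsUnit Om) {W W' : Submodule ℂ (B → ℂ)}
    (hW : ∀ x ∈ W, ∀ y ∈ W', ww Om x y = 0) :
    Module.finrank ℂ W + Module.finrank ℂ W' ≤ Fintype.card B := by
  have hnd : (wwL Om).Nondegenerate := by
    have h0 : ∀ x, (∀ y, ww Om y x = 0) → x = 0 := by
      intro x hx
      have h2 : Om *ᵥ x = 0 := by
        funext i
        have h3 := hx (Pi.single i 1)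
        unfold ww at h3
        rwa [single_one_dotProduct] at h3
      obtain ⟨u, hu⟩ := hu
      have h3 : ((u⁻¹ : (Matrix B B ℂ)ˣ) : Matrix B B ℂ) *ᵥ (Om *ᵥ x) = x := by
        rw [← hu, mulVec_mulVec, Units.inv_mul, one_mulVec]
      rw [← h3, h2, mulVec_zero]
    refine ⟨fun x hx => h0 x fun y => ?_, fun x hx => h0 x fun y => hx y⟩
    rw [ww_anti hOm]
    exact neg_eq_zero.2 (hx y)
  have hr : LinearMap.BilinForm.IsRefl (wwL Om) := by
    intro x y h
    rw [wwL_apply] at h ⊢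
    rw [ww_anti hOm, h, neg_zero]
  have h1 := LinearMap.BilinForm.finrank_orthogonal hnd W
  have h2 : W' ≤ LinearMap.BilinForm.orthogonal (wwL Om) W := by
    intro y hy x hx
    exact hW x hx y hy
  have h3 := Submodule.finrank_mono h2
  have h4 : Module.finrank ℂ (B → ℂ) = Fintype.card B := Module.finrank_fintype_fun_eq_card ℂ
  have h5 := Submodule.finrank_le W
  omega

omit d in
/-- The dimension of the span of a vector and its derivatives. -/
theorem le_finrank {W : Submodule ℂ (B → ℂ)} (hv : v ∈ W)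
    (hd : ∀ δ : Derivation ℚ ℂ ℂ, (fun i => δ (v i)) ∈ W) {b0 : B} (hb0 : v b0 = 1)
    {s : Finset B} (hs : AlgebraicIndependent ℚ (fun i : s => v i)) :
    s.card + 1 ≤ Module.finrank ℂ W := by
  classical
  have hb : b0 ∉ s := by
    intro h
    have h1 : Transcendental ℚ (v b0) := hs.transcendental ⟨b0, h⟩
    rw [hb0] at h1
    exact h1 isAlgebraic_one
  choose δ hδ using fun j : s => exists_derivation hs (fun i : s => if i = j then (1 : ℂ) else 0)
  let f : Option s → W := fun o => o.elim ⟨v, hv⟩ fun j => ⟨fun i => δ j (v i), hd (δ j)⟩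
  have hli : LinearIndependent ℂ f := by
    rw [Fintype.linearIndependent_iff]
    intro g hg
    rw [Fintype.sum_option] at hg
    have hg' : ∀ i, g none * v i + ∑ j : s, g (some j) * δ j (v i) = 0 := by
      intro i
      have h1 := congrFun (congrArg Subtype.val hg) i
      simp only [Submodule.coe_add, Submodule.coe_smul, AddSubmonoidClass.coe_finsetSum,
        Pi.add_apply, Finset.sum_apply, Pi.smul_apply, smul_eq_mul] at h1
      exact h1
    have h0 : g none = 0 := by
      have h1 := hg' b0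
      rw [hb0, mul_one, Finset.sum_eq_zero, add_zero] at h1
      · exact h1
      · intro j _
        rw [Derivation.map_one_eq_zero, mul_zero]
    rintro (_ | j)
    · exact h0
    · have h1 := hg' j.1
      rw [h0, zero_mul, zero_add, Finset.sum_eq_single j] at h1
      · rwa [hδ j j, if_pos rfl, mul_one] at h1
      · intro i _ hi
        rw [hδ i j, if_neg (Ne.symm hi), mul_zero]
      · intro h
        exact absurd (Finset.mem_univ _) h
  have h1 := hli.fintype_card_le_finrank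
  rwa [Fintype.card_option, Fintype.card_coe] at h1

end Pool.Agent.W437.CY
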