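import Mathlib
import Pool.Agent.W437.CY.Dim

/-!
# The Lie algebra is the full symplectic Lie algebra
-/

set_option linter.unusedSectionVars false

namespace Pool.Agent.W437.CY

open Matrix Pool.Agent.W437.HC Pool.Agent.W437.HD

variable {B : Type*} [Fintype B] [DecidableEq B]

/-- The complexification of a rational subspace. -/
def cspan (U : Submodule ℚ (B → ℚ)) : Submodule ℂ (B → ℂ) :=
  Submodule.span ℂ ((fun (u : B → ℚ) i => ((u i : ℚ) : ℂ)) '' (U : Set (B → ℚ)))

/-- There are no rational subspaces whose complexifications are stable. -/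
def SimpleD (D : Matrix B B ℂ) : Prop :=
  ∀ U : Submodule ℚ (B → ℚ), (∀ x ∈ cspan U, D *ᵥ x ∈ cspan U) → U = ⊥ ∨ U = ⊤

/-- A nonzero subspace which is stable under all automorphisms of the complex numbers and under
the Hodge operator is everything. -/
theorem eq_top_of_stable {D : Matrix B B ℂ} (hs : SimpleD D) (U : Submodule ℂ (B → ℂ))
    (hσ : ∀ (σ : ℂ ≃+* ℂ), ∀ v ∈ U, (fun i => σ (v i)) ∈ U)
    (hD : ∀ v ∈ U, D *ᵥ v ∈ U) (hne : U ≠ ⊥) : U = ⊤ := by
  have hrat := span_rational U hσ
  let U0 : Submodule ℚ (B → ℚ) :=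
    { carrier := {u | (fun i => ((u i : ℚ) : ℂ)) ∈ U}
      zero_mem' := by
        have h1 : (fun i : B => (((0 : B → ℚ) i : ℚ) : ℂ)) = 0 := by
          funext i
          simp
        change _ ∈ U
        rw [h1]
        exact Submodule.zero_mem _
      add_mem' := by
        intro u v hu hv
        have h1 : (fun i : B => (((u + v) i : ℚ) : ℂ)) =
            (fun i => ((u i : ℚ) : ℂ)) + fun i => ((v i : ℚ) : ℂ) := by
          funext i
          simp
        change _ ∈ U
        rw [h1]
        exact Submodule.add_mem _ hu hv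
      smul_mem' := by
        intro a u hu
        have h1 : (fun i : B => (((a • u) i : ℚ) : ℂ)) =
            (a : ℂ) • (fun i => ((u i : ℚ) : ℂ)) := by
          funext i
          simp
        change _ ∈ U
        rw [h1]
        exact Submodule.smul_mem _ _ hu }
  have hc : cspan U0 = U := by
    conv_rhs => rw [hrat]
    unfold cspan
    congr 1
    ext w
    constructor
    · rintro ⟨u, hu, rfl⟩
      exact ⟨hu, u, rfl⟩
    · rintro ⟨hw, u, rfl⟩
      exact ⟨u, hw, rfl⟩
  rcases hs U0 (by rw [hc]; exact hD) with h0 | h0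
  · exfalso
    apply hne
    rw [← hc, h0, cspan, Submodule.span_eq_bot]
    rintro _ ⟨u, hu, rfl⟩
    have h2 : u = 0 := hu
    subst h2
    funext i
    simp
  · rw [eq_top_iff]
    intro x _
    have h1 : x = ∑ i, x i • (fun j => (((Pi.single i 1 : B → ℚ) j : ℚ) : ℂ)) := by
      funext j
      rw [Finset.sum_apply, Finset.sum_eq_single j]
      · simp
      · intro b _ hb
        rw [Pi.smul_apply, Pi.single_eq_of_ne (Ne.symm hb)]
        simp
      · intro h
        exact absurd (Finset.mem_univ _) h
    rw [h1]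
    refine Submodule.sum_mem _ fun i _ => Submodule.smul_mem _ _ ?_
    have h2 : (Pi.single i 1 : B → ℚ) ∈ U0 := by
      rw [h0]
      trivial
    exact h2

variable {D Om : Matrix B B ℂ} {S : Finset ℤ} {P : ℤ → Matrix B B ℂ} {k : ℤ} {v : B → ℂ}

theorem VV_map {σ : ℂ →+* ℂ} (hOm : Om.map σ = Om) {x y : B → ℂ} (hx : x ∈ VV D Om y) :
    (fun i => σ (x i)) ∈ VV D Om (fun i => σ (y i)) := by
  rw [mem_VV, ← SS_map hOm]
  exact map_mem_aut hx σ

/-- The dimensions of conjugate spaces. -/
theorem finrank_VV (hOm : ∀ σ : ℂ →+* ℂ, Om.map σ = Om) (σ : ℂ ≃+* ℂ) (y : B → ℂ) :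
    Module.finrank ℂ (VV D Om (fun i => σ (y i))) = Module.finrank ℂ (VV D Om y) := by
  have h1 : Module.rank ℂ (VV D Om y) = Module.rank ℂ (VV D Om (fun i => σ (y i))) := by
    refine rank_eq_of_equiv_equiv (σ : ℂ → ℂ)
      { toFun := fun x => ⟨fun i => σ (x.1 i), VV_map (σ := (σ : ℂ →+* ℂ)) (hOm _) x.2⟩
        invFun := fun x => ⟨fun i => σ.symm (x.1 i), by
          have h := VV_map (σ := (σ.symm : ℂ →+* ℂ)) (hOm _) x.2
          have h2 : (fun i => (σ.symm : ℂ →+* ℂ) (σ (y i))) = y := by
            funext i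
            exact σ.symm_apply_apply _
          rwa [h2] at h⟩
        left_inv := fun x => by
          apply Subtype.ext
          funext i
          exact σ.symm_apply_apply _
        right_inv := fun x => by
          apply Subtype.ext
          funext i
          exact σ.apply_symm_apply _
        map_add' := fun x y => by
          apply Subtype.ext
          funext i
          exact map_add σ _ _ } σ.bijective (fun r m => ?_)
    apply Subtype.ext
    funext i
    exact map_mul σ _ _
  unfold Module.finrank
  rw [h1]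

variable (d : Dat D Om S P k v)

include d

/-- If the dimension is large then the Lie algebra is the full symplectic Lie algebra. -/
theorem Dat.VV_top (hs : SimpleD D) (hu : IsUnit Om) (hg : Good D Om v)
    (hdim : Fintype.card B < 2 * Module.finrank ℂ (VV D Om v)) : VV D Om v = ⊤ := by
  refine eq_top_of_stable hs _ (fun σ x hx => ?_)
    (fun x hx => VV_stable d.skew d.sp hg (D_mem D) hx) ?_
  · have h1 := VV_map (σ := (σ : ℂ →+* ℂ)) (d.rat _) hx
    have h2 : Good D Om (fun i => (σ : ℂ →+* ℂ) (v i)) := hg.map (d.rat _)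
    by_cases hne : VV D Om v = VV D Om (fun i => (σ : ℂ →+* ℂ) (v i))
    · rw [hne]
      exact h1
    · exfalso
      have h3 := two_mul_finrank_le d.skew hu
        (fun x hx y hy => VV_orth d.skew d.sp hg h2 hne hx hy)
      have h4 := finrank_VV (D := D) d.rat σ v
      have h5 : (fun i => (σ : ℂ →+* ℂ) (v i)) = fun i => σ (v i) := rfl
      rw [h5, h4] at h3
      omega
  · intro h
    have h1 := self_mem_VV hg
    rw [h, Submodule.mem_bot] at h1
    apply d.nz
    rw [h1, ww_zero_left]

/-- If at least half of the coordinates of the normalized top vector are algebraically independent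
then the Lie algebra is the full symplectic Lie algebra. -/
theorem Dat.SS_mem_of_indep (hs : SimpleD D) (hu : IsUnit Om) {b0 : B} (hb0 : v b0 = 1)
    {s : Finset B} (hsi : AlgebraicIndependent ℚ (fun i : s => v i))
    (hcard : Fintype.card B ≤ 2 * s.card) (x y : B → ℂ) : SS Om x y ∈ lieM D ℂ := by
  have hW := le_finrank d.self_mem d.deriv_mem hb0 hsi
  have hg : Good D Om v := by
    by_contra hng
    have h0 : ∀ Y ∈ lieM D ℂ, ww Om v (Y *ᵥ v) = 0 := by
      intro Y hY
      by_contra h
      exact hng (d.good_of_ne hY h)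
    have h1 := two_mul_finrank_le d.skew hu (W := Wm D v) (W' := Wm D v)
      (fun x hx y hy => d.isotropic h0 hx hy)
    omega
  have hle : Wm D v ≤ VV D Om v := by
    intro x hx
    obtain ⟨X, hX, rfl⟩ := mem_Wm.1 hx
    exact SS_mem_self d.sp hX hg.1
  have h1 := Submodule.finrank_mono hle
  have htop := d.VV_top hs hu hg (by omega)
  refine VV_pair d.skew d.sp hg ?_ ?_ <;> rw [htop] <;> trivial

end Pool.Agent.W437.CY
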