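import Mathlib
import Pool.Agent.W437.CY.Nd
import Pool.Agent.W437.CY.Top
import Pool.Agent.W437.HR.Pcs

/-!
# Direct sums of polarized Hodge structures of odd weights
-/

set_option linter.unusedSectionVars false

namespace Pool.Agent.W437.CY

open Matrix ComplexOrder Pool.Agent.W437.HC Pool.Agent.W437.HD Pool.Agent.W437.HP
  Pool.Agent.W437.HR

variable {B : Type} [Fintype B] [DecidableEq B] {D : Matrix B B ℂ} {ι : Type}
    [Fintype ι] [DecidableEq ι] {R : ι → Type} [∀ i, Fintype (R i)] [∀ i, DecidableEq (R i)]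
    {D' : ∀ i, Matrix (R i) (R i) ℂ} {Om' : ∀ i, Matrix (R i) (R i) ℚ}
    (b : Blocks B D R D' Om') {S : Finset ℤ} {P' : ∀ i, ℤ → Matrix (R i) (R i) ℂ}

/-- The projections of the direct sum. -/
noncomputable def gP (b : Blocks B D R D' Om') (P' : ∀ i, ℤ → Matrix (R i) (R i) ℂ) (a : ℤ) :
    Matrix B B ℂ := ∑ i, (cK ℂ (b.P i))ᵀ * P' i a * cK ℂ (b.P i)

theorem prj_gP (i : ι) (a : ℤ) : cK ℂ (b.P i) * gP b P' a = P' i a * cK ℂ (b.P i) := by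
  unfold gP
  rw [Matrix.mul_sum, Finset.sum_eq_single i]
  · have h1 : cK ℂ (b.P i) * ((cK ℂ (b.P i))ᵀ * P' i a * cK ℂ (b.P i)) =
      (cK ℂ (b.P i) * (cK ℂ (b.P i))ᵀ) * P' i a * cK ℂ (b.P i) := by
      simp only [Matrix.mul_assoc]
    rw [h1, b.sameK, Matrix.one_mul]
  · intro j _ hj
    have h1 : cK ℂ (b.P i) * ((cK ℂ (b.P j))ᵀ * P' j a * cK ℂ (b.P j)) =
      (cK ℂ (b.P i) * (cK ℂ (b.P j))ᵀ) * P' j a * cK ℂ (b.P j) := by
      simp only [Matrix.mul_assoc]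
    rw [h1, b.offK (Ne.symm hj), Matrix.zero_mul, Matrix.zero_mul]
  · intro h
    exact absurd (Finset.mem_univ _) h

theorem gP_inc (i : ι) (a : ℤ) : gP b P' a * (cK ℂ (b.P i))ᵀ = (cK ℂ (b.P i))ᵀ * P' i a := by
  unfold gP
  rw [Matrix.sum_mul, Finset.sum_eq_single i]
  · have h1 : (cK ℂ (b.P i))ᵀ * P' i a * cK ℂ (b.P i) * (cK ℂ (b.P i))ᵀ =
      (cK ℂ (b.P i))ᵀ * P' i a * (cK ℂ (b.P i) * (cK ℂ (b.P i))ᵀ) := by
      simp only [Matrix.mul_assoc]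
    rw [h1, b.sameK, Matrix.mul_one]
  · intro j _ hj
    have h1 : (cK ℂ (b.P j))ᵀ * P' j a * cK ℂ (b.P j) * (cK ℂ (b.P i))ᵀ =
      (cK ℂ (b.P j))ᵀ * P' j a * (cK ℂ (b.P j) * (cK ℂ (b.P i))ᵀ) := by
      simp only [Matrix.mul_assoc]
    rw [h1, b.offK hj, Matrix.mul_zero]
  · intro h
    exact absurd (Finset.mem_univ _) h

theorem gP_proj (hp : ∀ i, Proj (D' i) S (P' i)) : Proj D S (gP b P') := by
  refine ⟨?_, fun a => ?_, fun a => ?_⟩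
  · unfold gP
    rw [Finset.sum_comm, ← b.totK (K := ℂ)]
    refine Finset.sum_congr rfl fun i _ => ?_
    rw [← Matrix.sum_mul, ← Matrix.mul_sum, (hp i).tot, Matrix.mul_one]
  · unfold gP
    rw [Finset.mul_sum, Finset.smul_sum]
    refine Finset.sum_congr rfl fun i _ => ?_
    have h1 := b.mul_inc (D_mem D) i
    rw [b.bl_D] at h1
    rw [← Matrix.mul_assoc, ← Matrix.mul_assoc, h1, Matrix.mul_assoc _ (D' i), (hp i).left,
      Matrix.mul_smul, Matrix.smul_mul]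
  · unfold gP
    rw [Finset.sum_mul, Finset.smul_sum]
    refine Finset.sum_congr rfl fun i _ => ?_
    rw [Matrix.mul_assoc, b.com, ← Matrix.mul_assoc, Matrix.mul_assoc _ (P' i a), (hp i).right,
      Matrix.mul_smul, Matrix.smul_mul]

theorem bl_gP (i : ι) (a c : ℤ) (X : Matrix B B ℂ) :
    b.bl ℂ i (gP b P' a * X * gP b P' c) = P' i a * b.bl ℂ i X * P' i c := by
  rw [b.bl_apply, b.bl_apply]
  have h1 : cK ℂ (b.P i) * (gP b P' a * X * gP b P' c) * (cK ℂ (b.P i))ᵀ =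
      (cK ℂ (b.P i) * gP b P' a) * X * (gP b P' c * (cK ℂ (b.P i))ᵀ) := by
    simp only [Matrix.mul_assoc]
  rw [h1, prj_gP, gP_inc]
  simp only [Matrix.mul_assoc]

/-- The trace form on the image of the Lie algebra is nondegenerate. -/
theorem nondeg (hp : ∀ i, Pol (D' i) (Om' i) S (P' i)) (i : ι) :
    ∀ X ∈ (lieM D ℚ).map (b.bl ℚ i),
      (∀ Y ∈ (lieM D ℚ).map (b.bl ℚ i), trace (X * Y) = 0) → X = 0 := by
  rintro X ⟨X0, hX0, rfl⟩ h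
  have hX1 := b.bl_mem hX0 i
  have hsp : (b.bl ℚ i X0)ᵀ * Om' i + Om' i * b.bl ℚ i X0 = 0 := by
    have h1 := lieM_bil _ (isH_bilc _ (b.sp i)) hX1
    change (b.bl ℚ i X0)ᵀ * cK ℚ (Om' i) + cK ℚ (Om' i) * b.bl ℚ i X0 = 0 at h1
    rwa [cK_rat] at h1
  refine (hp i).aniso hsp ?_
  have hproj := gP_proj b fun i => (hp i).prj
  have hY := hproj.fun_mem (fun c => Complex.I ^ (-c)) (cast_mem (K := ℂ) D hX0)
  have h1 : ∑ a ∈ S, ∑ c ∈ S, (Complex.I ^ (-(a - c))) •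
      (P' i a * cK ℂ (b.bl ℚ i X0) * P' i c) =
      b.bl ℂ i (∑ a ∈ S, ∑ c ∈ S, (Complex.I ^ (-(a - c))) •
        (gP b P' a * X0.map (fun x : ℚ => (x : ℂ)) * gP b P' c)) := by
    rw [map_sum]
    refine Finset.sum_congr rfl fun a _ => ?_
    rw [map_sum]
    refine Finset.sum_congr rfl fun c _ => ?_
    rw [map_smul, bl_gP]
    congr 3
    exact (b.bl_cast (K := ℂ) X0 i).symm
  rw [h1]
  generalize ∑ a ∈ S, ∑ c ∈ S, (Complex.I ^ (-(a - c))) •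
    (gP b P' a * X0.map (fun x : ℚ => (x : ℂ)) * gP b P' c) = Y at hY
  have h2 := mem_span_rat hY
  clear hY h1
  induction h2 using Submodule.span_induction with
  | mem Y hY =>
    obtain ⟨Y0, hY0, rfl⟩ := hY
    rw [b.bl_cast, ← cK_mul]
    have h3 := h (b.bl ℚ i Y0) ⟨Y0, hY0, rfl⟩
    have h4 : trace (cK ℂ (b.bl ℚ i X0 * b.bl ℚ i Y0)) =
        ((trace (b.bl ℚ i X0 * b.bl ℚ i Y0) : ℚ) : ℂ) := by
      simp [trace, cK]
    rw [h4, h3, Rat.cast_zero]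
  | zero => rw [map_zero, Matrix.mul_zero, trace_zero]
  | add x y _ _ h1 h2 => rw [map_add, Matrix.mul_add, trace_add, h1, h2, add_zero]
  | smul a x _ h1 => rw [map_smul, Matrix.mul_smul, trace_smul, h1, smul_zero]

/-- The action of the Lie algebra on a piece is the full symplectic Lie algebra. -/
theorem full' (i : ι)
    (hnd : ∀ X ∈ (lieM D ℚ).map (b.bl ℚ i),
      (∀ Y ∈ (lieM D ℚ).map (b.bl ℚ i), trace (X * Y) = 0) → X = 0)
    (hD0 : ∀ z, D' i *ᵥ z = 0 → z = 0) (N : Submodule ℂ (R i → ℂ)) (w : N →ₗ[ℂ] N →ₗ[ℂ] ℂ)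
    (hst : ∀ X ∈ lieM (D' i) ℂ, ∀ x ∈ N, X *ᵥ x ∈ N) (hnt : Nontrivial N)
    (halt : ∀ x, w x x = 0) (hnon : ∀ x, (∀ y, w x y = 0) → x = 0)
    (hsp : ∀ X, IsSp w (rsN N hst X)) (hful : ∀ x y, ∃ X, rsN N hst X = EE w x y) (x y : N) :
    ∃ X, ((rsN N hst) ∘ₗ b.blL i) X = EE w x y := by
  have h := ideal_full (w := w) (ρ := rsN N hst) (br := brL (D' i)) halt hnon
    (rsN_brL N hst) hsp hful
    (LinearMap.range ((rsN N hst) ∘ₗ b.blL i)) ?_ (A := rsN N hst (b.blL i ⟨D, D_mem D⟩))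
    ⟨_, rfl⟩ (hsp _) ?_ x y
  · exact h
  · rintro X _ ⟨Y, rfl⟩
    obtain ⟨W, hW, hW'⟩ := b.ideal_C i hnd X.2 (X := b.bl ℂ i Y.1) ⟨Y.1, Y.2, rfl⟩
    refine ⟨⟨W, hW⟩, ?_⟩
    rw [LinearMap.comp_apply, LinearMap.comp_apply, ← rsN_brL]
    congr 1
    exact Subtype.ext hW'
  · intro h0
    obtain ⟨z, hz⟩ := exists_ne (0 : N)
    apply hz
    apply Subtype.ext
    refine hD0 _ ?_
    have h1 : (rsN N hst (b.blL i ⟨D, D_mem D⟩) z : R i → ℂ) = D' i *ᵥ (z : R i → ℂ) := by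
      rw [rsN_coe]
      have h2 : (b.blL i ⟨D, D_mem D⟩).1 = D' i := b.bl_D i
      rw [h2]
    rw [← h1, h0]
    rfl

/-- The forms killed by the operator of the direct sum are linear combinations of products of
bilinear forms. -/
theorem mem_MS'
    (hnd : ∀ i, ∀ X ∈ (lieM D ℚ).map (b.bl ℚ i),
      (∀ Y ∈ (lieM D ℚ).map (b.bl ℚ i), trace (X * Y) = 0) → X = 0)
    (hD0 : ∀ i, ∀ z, D' i *ᵥ z = 0 → z = 0) (hp : ∀ i, HasPcs (D' i))
    {m : ℕ} (c : (Fin m × Fin 2 → B) → ℚ) (hc : IsH D c) : c ∈ MS D m := by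
  classical
  choose A hA1 hA2 N w π hst hsum hnt halt hnon hsp hful hπ using hp
  let s : Sys (lieM D ℂ) (brL D) (N := fun a : (Σ i, A i) => ↥(N a.1 a.2)) :=
    { w := fun a => w a.1 a.2
      ρ := fun a => (rsN (N a.1 a.2) (hst a.1 a.2)) ∘ₗ b.blL a.1
      alt := fun a x => halt a.1 a.2 x
      nd := fun a x hx => hnon a.1 a.2 x hx
      brk := fun a X Y => by
        rw [LinearMap.comp_apply, b.blL_brL, rsN_brL]
        rfl
      sp := fun a X => hsp a.1 a.2 (b.blL a.1 X)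
      full := fun a x y => full' b a.1 (hnd a.1) (hD0 a.1) (N a.1 a.2) (w a.1 a.2)
        (hst a.1 a.2) (hnt a.1 a.2) (halt a.1 a.2) (hnon a.1 a.2) (hsp a.1 a.2)
        (hful a.1 a.2) x y }
  have hntn : ∀ a : (Σ i, A i), Nontrivial ↥(N a.1 a.2) := fun a => hnt a.1 a.2
  refine mem_MS_of_sys s
    (fun a => (Matrix.mulVecLin (cK ℂ (b.P a.1))ᵀ) ∘ₗ (N a.1 a.2).subtype)
    (fun a => (π a.1 a.2) ∘ₗ (Matrix.mulVecLin (cK ℂ (b.P a.1)))) ?_ ?_ ?_ c hc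
  · intro y
    have h1 : y = ∑ i, (cK ℂ (b.P i))ᵀ *ᵥ (cK ℂ (b.P i) *ᵥ y) := by
      conv_lhs => rw [← one_mulVec y, ← b.totK, sum_mulVec]
      exact Finset.sum_congr rfl fun i _ => (mulVec_mulVec _ _ _).symm
    conv_lhs => rw [h1]
    rw [Fintype.sum_sigma]
    refine Finset.sum_congr rfl fun i _ => ?_
    conv_lhs => rw [hsum i (cK ℂ (b.P i) *ᵥ y)]
    rw [mulVec_sum]
    rfl
  · intro a X u
    change X.1 *ᵥ ((cK ℂ (b.P a.1))ᵀ *ᵥ (u : R a.1 → ℂ)) =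
      (cK ℂ (b.P a.1))ᵀ *ᵥ (b.bl ℂ a.1 X.1 *ᵥ (u : R a.1 → ℂ))
    rw [mulVec_mulVec, mulVec_mulVec, b.mul_inc X.2]
  · intro a X y
    apply Subtype.ext
    change (π a.1 a.2 (cK ℂ (b.P a.1) *ᵥ (X.1 *ᵥ y)) : R a.1 → ℂ) =
      b.bl ℂ a.1 X.1 *ᵥ (π a.1 a.2 (cK ℂ (b.P a.1) *ᵥ y) : R a.1 → ℂ)
    rw [mulVec_mulVec, b.prj_mul X.2, ← mulVec_mulVec, hπ a.1 a.2 _ (b.bl_mem X.2 a.1)]

theorem Pol.inj {R : Type} [Fintype R] [DecidableEq R] {D : Matrix R R ℂ} {Om : Matrix R R ℚ}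
    {P : ℤ → Matrix R R ℂ} (d : Pol D Om S P) (z : R → ℂ) (hz : D *ᵥ z = 0) : z = 0 := by
  by_contra h
  have h1 := d.odd 0 z (by rw [hz, Int.cast_zero, zero_smul]) h
  exact absurd h1 (by decide)

/-- A polarized Hodge structure of Calabi-Yau type gives the data. -/
theorem Pol.dat {R : Type} [Fintype R] [DecidableEq R] {D : Matrix R R ℂ} {Om : Matrix R R ℚ}
    {P : ℤ → Matrix R R ℂ} (d : Pol D Om S P) {k : ℤ} (hk : 0 < k)
    (hS : ∀ a, P a ≠ 0 → -k ≤ a ∧ a ≤ k) {v : R → ℂ} (hv0 : v ≠ 0) (hv : D *ᵥ v = (k : ℂ) • v)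
    (htop : ∀ x, D *ᵥ x = (k : ℂ) • x → ∃ c : ℂ, x = c • v) :
    ∃ S', Dat D (cK ℂ Om) S' P k v := by
  classical
  refine ⟨S.filter (fun a => P a ≠ 0), ⟨⟨?_, d.prj.left, d.prj.right⟩, ?_, hk, d.skewC, ?_, ?_,
    d.cjD, hv, htop, ?_⟩⟩
  · rw [← d.prj.tot]
    exact Finset.sum_filter_ne_zero S
  · intro a ha
    exact hS a (Finset.mem_filter.1 ha).2
  · intro σ
    ext i j
    simp [cK]
  · intro X hX
    exact lieM_bil _ (isH_bilc _ d.spD) hX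
  · have h1 := d.pos k v hv hv0
    intro h
    rw [h, mul_zero] at h1
    exact lt_irrefl _ h1

/-- The pieces of a Hodge structure of Calabi-Yau type whose top vector has enough algebraically
independent coordinates. -/
theorem pcs_of_indep {R : Type} [Fintype R] [DecidableEq R] {D : Matrix R R ℂ}
    {Om : Matrix R R ℚ} {P : ℤ → Matrix R R ℂ} (d : Pol D Om S P) {k : ℤ} (hk : 0 < k)
    (hS : ∀ a, P a ≠ 0 → -k ≤ a ∧ a ≤ k) {v : R → ℂ} (hv0 : v ≠ 0) (hv : D *ᵥ v = (k : ℂ) • v)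
    (htop : ∀ x, D *ᵥ x = (k : ℂ) • x → ∃ c : ℂ, x = c • v) (hs : SimpleD D) {b0 : R}
    (hb0 : v b0 = 1) {s : Finset R} (hsi : AlgebraicIndependent ℚ (fun i : s => v i))
    (hcard : Fintype.card R ≤ 2 * s.card) : HasPcs D := by
  obtain ⟨S', d'⟩ := d.dat hk hS hv0 hv htop
  have hu : IsUnit (cK ℂ Om) := by
    obtain ⟨u, hu⟩ := d.unit
    refine ⟨⟨cK ℂ Om, cK ℂ ((u⁻¹ : (Matrix R R ℚ)ˣ) : Matrix R R ℚ), ?_, ?_⟩, rfl⟩
    · rw [← cK_mul, ← hu, Units.mul_inv, cK_one]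
    · rw [← cK_mul, ← hu, Units.inv_mul, cK_one]
  have hfull := d'.SS_mem_of_indep hs hu hb0 hsi hcard
  refine hasPcs_of_top d.skewC hu d'.sp ?_
  have hg : Good D (cK ℂ Om) v := ⟨hfull v v, cj v, hfull _ _, d'.nz⟩
  rw [eq_top_iff]
  intro x _
  exact Submodule.mem_iSup_of_mem (⟨v, hg⟩ : {v // Good D (cK ℂ Om) v}) (hfull x v)

end Pool.Agent.W437.CY
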