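import Mathlib
import Pool.Agent.W437.CY.Fam
import Pool.Agent.W437.CY.Defs

/-!
# Polarized rational Hodge structures
-/

set_option linter.unusedSectionVars false

namespace Pool.Agent.W437.CY

open Matrix ComplexOrder Pool.Agent.W437.HC Pool.Agent.W437.HD Pool.Agent.W437.HP
  Pool.Agent.W437.HR

variable {k N : ℕ} (V : PolHS k N)

theorem ww_eq (Q : Matrix (Fin N) (Fin N) ℚ) (x y : Fin N → ℂ) :
    ww (cK ℂ Q) x y = ∑ i, ∑ j, x i * (Q i j : ℂ) * y j := by
  simp only [ww, dotProduct, mulVec, cK, Matrix.map_apply, Finset.mul_sum]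
  refine Finset.sum_congr rfl fun i _ => Finset.sum_congr rfl fun j _ => ?_
  ring

/-- The decomposition. -/
@[reducible] noncomputable def PolHS.dcp : DirectSum.Decomposition V.H := V.dec.chooseDecomposition

/-- The projection to a summand. -/
noncomputable def PolHS.pl (p : Fin (k + 1)) : (Fin N → ℂ) →ₗ[ℂ] (Fin N → ℂ) :=
  letI := V.dcp
  (V.H p).subtype ∘ₗ (DirectSum.component ℂ (Fin (k + 1)) (fun p => V.H p) p) ∘ₗ
    (DirectSum.decomposeLinearEquiv V.H).toLinearMap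

theorem PolHS.pl_mem (p : Fin (k + 1)) (x : Fin N → ℂ) : V.pl p x ∈ V.H p := by
  unfold PolHS.pl
  exact Submodule.coe_mem _

theorem PolHS.pl_same {p : Fin (k + 1)} {x : Fin N → ℂ} (hx : x ∈ V.H p) : V.pl p x = x := by
  let _ := V.dcp
  exact DirectSum.decompose_of_mem_same V.H hx

theorem PolHS.pl_ne {p q : Fin (k + 1)} {x : Fin N → ℂ} (hx : x ∈ V.H p) (hpq : p ≠ q) :
    V.pl q x = 0 := by
  let _ := V.dcp
  exact DirectSum.decompose_of_mem_ne V.H hx hpq

theorem PolHS.pl_sum (x : Fin N → ℂ) : ∑ p, V.pl p x = x := by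
  classical
  let _ := V.dcp
  conv_rhs => rw [← DirectSum.sum_support_decompose V.H x]
  symm
  refine Finset.sum_subset (Finset.subset_univ _) fun p _ hp => ?_
  rw [DFinsupp.notMem_support_iff] at hp
  change ((DirectSum.decompose V.H x) p : Fin N → ℂ) = 0
  rw [hp]
  rfl

/-- The matrix of the projection. -/
noncomputable def PolHS.pr (p : Fin (k + 1)) : Matrix (Fin N) (Fin N) ℂ :=
  LinearMap.toMatrix' (V.pl p)

theorem PolHS.pr_vec (p : Fin (k + 1)) (x : Fin N → ℂ) : V.pr p *ᵥ x = V.pl p x := by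
  unfold PolHS.pr
  rw [LinearMap.toMatrix'_mulVec]

/-- The operator which is `p - q` on `H^{p,q}`. -/
noncomputable def PolHS.D : Matrix (Fin N) (Fin N) ℂ := ∑ p : Fin (k + 1), ((2 * (p : ℤ) - k : ℤ) : ℂ) • V.pr p

/-- The projections indexed by the integers. -/
noncomputable def PolHS.P (a : ℤ) : Matrix (Fin N) (Fin N) ℂ :=
  ∑ p : Fin (k + 1), if 2 * (p : ℤ) - k = a then V.pr p else 0

theorem PolHS.D_vec {p : Fin (k + 1)} {x : Fin N → ℂ} (hx : x ∈ V.H p) :
    V.D *ᵥ x = ((2 * (p : ℤ) - k : ℤ) : ℂ) • x := by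
  unfold PolHS.D
  rw [Matrix.sum_mulVec, Finset.sum_eq_single p]
  · rw [smul_mulVec, V.pr_vec, V.pl_same hx]
  · intro q _ hq
    rw [smul_mulVec, V.pr_vec, V.pl_ne hx (Ne.symm hq), smul_zero]
  · intro h
    exact absurd (Finset.mem_univ _) h

theorem PolHS.P_vec {p : Fin (k + 1)} {x : Fin N → ℂ} (hx : x ∈ V.H p) (a : ℤ) :
    V.P a *ᵥ x = if 2 * (p : ℤ) - k = a then x else 0 := by
  unfold PolHS.P
  rw [Matrix.sum_mulVec, Finset.sum_eq_single p]
  · by_cases h : 2 * (p : ℤ) - k = a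
    · rw [if_pos h, if_pos h, V.pr_vec, V.pl_same hx]
    · rw [if_neg h, if_neg h, zero_mulVec]
  · intro q _ hq
    by_cases h : 2 * (q : ℤ) - k = a
    · rw [if_pos h, V.pr_vec, V.pl_ne hx (Ne.symm hq)]
    · rw [if_neg h, zero_mulVec]
  · intro h
    exact absurd (Finset.mem_univ _) h

/-- Two matrices which agree on all the summands are equal. -/
theorem PolHS.ext_mat {M M' : Matrix (Fin N) (Fin N) ℂ}
    (h : ∀ p, ∀ x ∈ V.H p, M *ᵥ x = M' *ᵥ x) : M = M' := by
  refine mat_ext fun x => ?_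
  rw [← V.pl_sum x, mulVec_sum, mulVec_sum]
  exact Finset.sum_congr rfl fun p _ => h p _ (V.pl_mem p x)

theorem PolHS.proj {K : ℤ} (hK : (k : ℤ) ≤ K) : Proj V.D (Finset.Icc (-K) K) V.P := by
  refine ⟨?_, fun a => ?_, fun a => ?_⟩
  · refine V.ext_mat fun p x hx => ?_
    rw [Matrix.sum_mulVec, one_mulVec]
    simp only [V.P_vec hx]
    have hp := p.2
    rw [Finset.sum_ite_eq, if_pos]
    rw [Finset.mem_Icc]
    constructor <;> omega
  · refine V.ext_mat fun p x hx => ?_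
    rw [← mulVec_mulVec, V.P_vec hx, smul_mulVec, V.P_vec hx]
    by_cases h : 2 * (p : ℤ) - k = a
    · rw [if_pos h, V.D_vec hx, h]
    · rw [if_neg h, mulVec_zero, smul_zero]
  · refine V.ext_mat fun p x hx => ?_
    rw [← mulVec_mulVec, V.D_vec hx, mulVec_smul, V.P_vec hx, smul_mulVec, V.P_vec hx]
    by_cases h : 2 * (p : ℤ) - k = a
    · rw [if_pos h, h]
    · rw [if_neg h, smul_zero, smul_zero]

/-- An eigenvector lies in a summand. -/
theorem PolHS.eig_mem {a : ℤ} {x : Fin N → ℂ} (hx : V.D *ᵥ x = (a : ℂ) • x) (hx0 : x ≠ 0) :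
    ∃ p : Fin (k + 1), 2 * (p : ℤ) - k = a ∧ x ∈ V.H p := by
  have h := V.proj (K := k) le_rfl
  have h1 := h.eig hx a
  rw [if_pos rfl] at h1
  have h2 : V.P a *ᵥ x = ∑ p : Fin (k + 1), if 2 * (p : ℤ) - k = a then V.pl p x else 0 := by
    unfold PolHS.P
    rw [Matrix.sum_mulVec]
    refine Finset.sum_congr rfl fun p _ => ?_
    by_cases hp : 2 * (p : ℤ) - k = a
    · rw [if_pos hp, if_pos hp, V.pr_vec]
    · rw [if_neg hp, if_neg hp, zero_mulVec]
  rw [h2] at h1
  by_cases hp : ∃ p : Fin (k + 1), 2 * (p : ℤ) - k = a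
  · obtain ⟨p, hp⟩ := hp
    refine ⟨p, hp, ?_⟩
    rw [Finset.sum_eq_single p] at h1
    · rw [if_pos hp] at h1
      rw [← h1]
      exact V.pl_mem p x
    · intro q _ hq
      rw [if_neg]
      intro hq'
      apply hq
      apply Fin.ext
      omega
    · intro h
      exact absurd (Finset.mem_univ _) h
  · exfalso
    apply hx0
    rw [← h1]
    refine Finset.sum_eq_zero fun p _ => ?_
    rw [if_neg]
    intro h
    exact hp ⟨p, h⟩

theorem PolHS.mem_of_eig {p : Fin (k + 1)} {x : Fin N → ℂ}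
    (hx : V.D *ᵥ x = ((2 * (p : ℤ) - k : ℤ) : ℂ) • x) : x ∈ V.H p := by
  by_cases h0 : x = 0
  · rw [h0]
    exact Submodule.zero_mem _
  · obtain ⟨q, hq, hxq⟩ := V.eig_mem hx h0
    have : q = p := by
      apply Fin.ext
      omega
    rwa [← this]

theorem PolHS.spD : V.Dᵀ * cK ℂ V.Q + cK ℂ V.Q * V.D = 0 := by
  refine mat_ext' fun x y => ?_
  have h1 : x ⬝ᵥ ((V.Dᵀ * cK ℂ V.Q + cK ℂ V.Q * V.D) *ᵥ y) =
      ww (cK ℂ V.Q) (V.D *ᵥ x) y + ww (cK ℂ V.Q) x (V.D *ᵥ y) := by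
    unfold ww
    rw [add_mulVec, dotProduct_add, ← mulVec_mulVec, ← mulVec_mulVec, dotProduct_mulVec x,
      vecMul_transpose]
  rw [h1, zero_mulVec, dotProduct_zero]
  have h2 : ∀ p q, ww (cK ℂ V.Q) (V.D *ᵥ V.pl p x) (V.pl q y) +
      ww (cK ℂ V.Q) (V.pl p x) (V.D *ᵥ V.pl q y) = 0 := by
    intro p q
    rw [V.D_vec (V.pl_mem p x), V.D_vec (V.pl_mem q y), ww_smul_left, ww_smul_right, ← add_mul]
    by_cases hpq : (p : ℕ) + q = k
    · have h3 : (((2 * (p : ℤ) - k : ℤ) : ℂ) + ((2 * (q : ℤ) - k : ℤ) : ℂ)) = 0 := by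
        rw [← Int.cast_add, show (2 * (p : ℤ) - k) + (2 * (q : ℤ) - k) = 0 by omega, Int.cast_zero]
      rw [h3, zero_mul]
    · rw [ww_eq, V.orth p q hpq _ (V.pl_mem p x) _ (V.pl_mem q y), mul_zero]
  have h3 : ww (cK ℂ V.Q) (V.D *ᵥ x) y + ww (cK ℂ V.Q) x (V.D *ᵥ y) =
      ∑ p, ∑ q, (ww (cK ℂ V.Q) (V.D *ᵥ V.pl p x) (V.pl q y) +
      ww (cK ℂ V.Q) (V.pl p x) (V.D *ᵥ V.pl q y)) := by
    conv_lhs => rw [← V.pl_sum x, ← V.pl_sum y]
    simp only [Finset.sum_add_distrib, mulVec_sum]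
    congr 1
    · rw [← wwL_apply, LinearMap.map_sum₂]
      refine Finset.sum_congr rfl fun p _ => ?_
      rw [map_sum]
      rfl
    · rw [← wwL_apply, LinearMap.map_sum₂]
      refine Finset.sum_congr rfl fun p _ => ?_
      rw [map_sum]
      rfl
  rw [h3]
  exact Finset.sum_eq_zero fun p _ => Finset.sum_eq_zero fun q _ => h2 p q

theorem PolHS.cjD : V.D.map (starRingEnd ℂ) = -V.D := by
  refine V.ext_mat fun p x hx => ?_
  have h1 : V.D.map (starRingEnd ℂ) *ᵥ x = cj (V.D *ᵥ cj x) := by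
    rw [cj_mulVec, cj_cj]
  have h2 : cj x ∈ V.H (Fin.rev p) := V.conj p x hx
  rw [h1, V.D_vec h2, cj_smul, cj_cj, neg_mulVec, V.D_vec hx, ← neg_smul]
  congr 1
  have hp := p.2
  rw [Fin.val_rev]
  have h3 : (((k + 1 - ((p : ℕ) + 1) : ℕ) : ℤ)) = k - p := by omega
  rw [h3]
  push_cast
  simp only [map_sub, map_mul, map_ofNat, map_natCast]
  ring

/-- The form is nondegenerate. -/
theorem PolHS.unit : IsUnit V.Q := by
  have h1 : Function.Injective (cK ℂ V.Q).mulVec := by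
    intro x y hxy
    rw [← sub_eq_zero]
    obtain ⟨z, hz⟩ : ∃ z, z = x - y := ⟨_, rfl⟩
    have h0 : cK ℂ V.Q *ᵥ z = 0 := by
      rw [hz, mulVec_sub, sub_eq_zero]
      exact hxy
    rw [← hz, ← V.pl_sum z]
    refine Finset.sum_eq_zero fun p _ => ?_
    by_contra hp
    have h2 := V.pos p _ (V.pl_mem p z) hp
    have h3 : ∑ i, ∑ j, V.pl p z i * (V.Q i j : ℂ) * starRingEnd ℂ (V.pl p z j) =
        ww (cK ℂ V.Q) (V.pl p z) (cj (V.pl p z)) := (ww_eq _ _ _).symm
    have h4 : ww (cK ℂ V.Q) (V.pl p z) (cj (V.pl p z)) = ww (cK ℂ V.Q) z (cj (V.pl p z)) := by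
      obtain ⟨y, hy⟩ : ∃ y, y = cj (V.pl p z) := ⟨_, rfl⟩
      rw [← hy]
      conv_rhs => rw [← V.pl_sum z, ← wwL_apply, LinearMap.map_sum₂]
      rw [hy]
      rw [Finset.sum_eq_single p]
      · rfl
      · intro q _ hq
        rw [wwL_apply, ww_eq]
        have hcj : cj (V.pl p z) ∈ V.H (Fin.rev p) := V.conj p _ (V.pl_mem p z)
        refine V.orth q _ ?_ _ (V.pl_mem q z) _ hcj
        rw [Fin.val_rev]
        have hp := p.2
        have hq2 := q.2
        intro h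
        apply hq
        apply Fin.ext
        omega
      · intro h
        exact absurd (Finset.mem_univ _) h
    have hsym : (cK ℂ V.Q)ᵀ = (-1 : ℂ) ^ k • cK ℂ V.Q := by
      rw [← cK_transpose, V.sym]
      ext i j
      simp [cK]
    have h5 : ww (cK ℂ V.Q) z (cj (V.pl p z)) = 0 := by
      unfold ww
      rw [dotProduct_mulVec, ← mulVec_transpose, hsym, smul_mulVec, h0, smul_zero,
        zero_dotProduct]
    rw [h3, h4, h5, mul_zero] at h2
    exact lt_irrefl _ h2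
  have h2 : IsUnit (cK ℂ V.Q) := Matrix.mulVec_injective_iff_isUnit.1 h1
  rw [Matrix.isUnit_iff_isUnit_det] at h2 ⊢
  have h3 : (cK ℂ V.Q).det = ((V.Q.det : ℚ) : ℂ) := by
    have := (RingHom.map_det (Rat.castHom ℂ) V.Q).symm
    exact this
  rw [h3, isUnit_iff_ne_zero] at h2
  rw [isUnit_iff_ne_zero]
  intro h
  apply h2
  rw [h, Rat.cast_zero]

/-- The data of a polarized Hodge structure of odd weight. -/
theorem PolHS.pol (hk : Odd k) {K : ℤ} (hK : (k : ℤ) ≤ K) :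
    Pol V.D V.Q (Finset.Icc (-K) K) V.P := by
  refine ⟨V.proj hK, ?_, V.unit, V.spD, V.cjD, ?_, ?_⟩
  · rw [V.sym, hk.neg_one_pow, neg_one_smul]
  · intro a x hx hx0
    obtain ⟨p, hp, _⟩ := V.eig_mem hx hx0
    obtain ⟨m, hm⟩ := hk
    refine ⟨(p : ℤ) - m - 1, ?_⟩
    omega
  · intro a x hx hx0
    obtain ⟨p, hp, hxp⟩ := V.eig_mem hx hx0
    have h1 := V.pos p x hxp hx0
    rw [hp] at h1
    rw [ww_eq]
    exact h1

/-- A stable subspace is stable under the projections. -/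
theorem Proj.stable {B : Type*} [Fintype B] [DecidableEq B] {D : Matrix B B ℂ} {S : Finset ℤ}
    {P : ℤ → Matrix B B ℂ} (h : Proj D S P) {U : Submodule ℂ (B → ℂ)}
    (hU : ∀ x ∈ U, D *ᵥ x ∈ U) (a : ℤ) {x : B → ℂ} (hx : x ∈ U) : P a *ᵥ x ∈ U := by
  classical
  have h1 : ∀ (n : ℕ), ∀ x ∈ U, ∑ b ∈ S, ((b : ℂ) ^ n) • (P b *ᵥ x) ∈ U := by
    intro n
    induction n with
    | zero =>
      intro x hx
      simp only [pow_zero, one_smul]
      rw [h.sum_vec]
      exact hx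
    | succ n ih =>
      intro x hx
      have h2 := hU _ (ih x hx)
      rw [mulVec_sum] at h2
      have h3 : ∑ b ∈ S, D *ᵥ ((b : ℂ) ^ n • (P b *ᵥ x)) =
          ∑ b ∈ S, ((b : ℂ) ^ (n + 1)) • (P b *ᵥ x) := by
        refine Finset.sum_congr rfl fun b _ => ?_
        rw [mulVec_smul, mulVec_mulVec, h.left, smul_mulVec, smul_smul, pow_succ]
      rwa [h3] at h2
  have h2 : ∀ (q : Polynomial ℂ), ∀ x ∈ U, ∑ b ∈ S, q.eval (b : ℂ) • (P b *ᵥ x) ∈ U := by
    intro q
    induction q using Polynomial.induction_on' with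
    | add p q hp hq =>
      intro x hx
      simp only [Polynomial.eval_add, add_smul, Finset.sum_add_distrib]
      exact Submodule.add_mem _ (hp x hx) (hq x hx)
    | monomial n c =>
      intro x hx
      have h1 := Submodule.smul_mem _ c (h1 n x hx)
      rw [Finset.smul_sum] at h1
      simp only [Polynomial.eval_monomial]
      convert h1 using 2 with b _
      rw [smul_smul]
  by_cases ha : a ∈ S
  · have h3 := h2 (Lagrange.interpolate S (fun b : ℤ => (b : ℂ)) (fun b => if b = a then 1 else 0))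
      x hx
    have h4 : ∑ b ∈ S, (Lagrange.interpolate S (fun b : ℤ => (b : ℂ))
        (fun b => if b = a then 1 else 0)).eval (b : ℂ) • (P b *ᵥ x) = P a *ᵥ x := by
      rw [Finset.sum_eq_single a]
      · rw [Lagrange.eval_interpolate_at_node _ (fun x _ y _ hxy => by exact_mod_cast hxy) ha,
          if_pos rfl, one_smul]
      · intro b hb hba
        rw [Lagrange.eval_interpolate_at_node _ (fun x _ y _ hxy => by exact_mod_cast hxy) hb,
          if_neg hba, zero_smul]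
      · intro h
        exact absurd ha h
    rwa [h4] at h3
  · rw [h.zero ha, zero_mulVec]
    exact Submodule.zero_mem _

theorem PolHS.simpleD (hs : V.IsSimple) : SimpleD V.D := by
  intro U hU
  refine hs U ?_
  intro x hx
  rw [← V.pl_sum x]
  refine Submodule.sum_mem _ fun p _ => ?_
  refine Submodule.mem_iSup_of_mem p ⟨?_, V.pl_mem p x⟩
  have h1 := (V.proj (K := k) le_rfl).stable hU (2 * (p : ℤ) - k) hx
  have h2 : V.P (2 * (p : ℤ) - k) *ᵥ x = V.pl p x := by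
    unfold PolHS.P
    rw [Matrix.sum_mulVec, Finset.sum_eq_single p]
    · rw [if_pos rfl, V.pr_vec]
    · intro q _ hq
      rw [if_neg, zero_mulVec]
      intro h
      apply hq
      apply Fin.ext
      omega
    · intro h
      exact absurd (Finset.mem_univ _) h
  rwa [h2] at h1

/-- The Lie algebra of a simple Hodge structure of Calabi-Yau type with enough independent
periods. -/
theorem PolHS.full (hk : Odd k) (hs : V.IsSimple) (hv : V.HalfIndep) :
    (∀ x y, SS (cK ℂ V.Q) x y ∈ lieM V.D ℂ) ∧ HasPcs V.D := by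
  obtain ⟨v, hv1, b, hb, s, hcard, hsi⟩ := hv
  have d := V.pol hk (K := k) le_rfl
  have hk0 : (0 : ℤ) < k := by
    have := hk.pos
    omega
  have hv0 : v ≠ 0 := by
    rintro rfl
    exact zero_ne_one hb
  have hvm : v ∈ V.H (Fin.last k) := by
    rw [hv1]
    exact Submodule.mem_span_singleton_self v
  have hlast : (2 * ((Fin.last k : Fin (k + 1)) : ℕ) : ℤ) - k = k := by
    rw [Fin.val_last]
    ring
  have hvD : V.D *ᵥ v = ((k : ℤ) : ℂ) • v := by
    have h1 := V.D_vec hvm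
    rwa [hlast] at h1
  have htop : ∀ x, V.D *ᵥ x = ((k : ℤ) : ℂ) • x → ∃ c : ℂ, x = c • v := by
    intro x hx
    have h1 : x ∈ V.H (Fin.last k) := by
      apply V.mem_of_eig
      rw [hlast]
      exact hx
    rw [hv1, Submodule.mem_span_singleton] at h1
    obtain ⟨c, hc⟩ := h1
    exact ⟨c, hc.symm⟩
  have hS : ∀ a, V.P a ≠ 0 → -(k : ℤ) ≤ a ∧ a ≤ k := by
    intro a ha
    by_contra h
    apply ha
    unfold PolHS.P
    refine Finset.sum_eq_zero fun p _ => ?_
    rw [if_neg]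
    intro h2
    apply h
    have := p.2
    constructor <;> omega
  have hcard' : Fintype.card (Fin N) ≤ 2 * s.card := by rwa [Fintype.card_fin]
  refine ⟨?_, pcs_of_indep d hk0 hS hv0 hvD htop (V.simpleD hs) hb hsi hcard'⟩
  obtain ⟨S', d'⟩ := d.dat hk0 hS hv0 hvD htop
  have hu : IsUnit (cK ℂ V.Q) := by
    obtain ⟨u, hu⟩ := V.unit
    refine ⟨⟨cK ℂ V.Q, cK ℂ ((u⁻¹ : (Matrix _ _ ℚ)ˣ) : Matrix _ _ ℚ), ?_, ?_⟩, rfl⟩
    · rw [← cK_mul, ← hu, Units.mul_inv, cK_one]
    · rw [← cK_mul, ← hu, Units.inv_mul, cK_one]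
  exact d'.SS_mem_of_indep (V.simpleD hs) hu hb hsi hcard'

end Pool.Agent.W437.CY
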