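import Mathlib
import Pool.Agent.W437.CY.Hs

/-!
# Bilinear forms killed by the symplectic Lie algebra
-/

set_option linter.unusedSectionVars false

namespace Pool.Agent.W437.CY

open Matrix Pool.Agent.W437.HC Pool.Agent.W437.HD Pool.Agent.W437.HP Pool.Agent.W437.HR

variable {B : Type*} [Fintype B] [DecidableEq B]

/-- A form killed by the symplectic Lie algebra is a multiple of the symplectic form. -/
theorem scal {Om Omi G : Matrix B B ℂ} (h1 : Omi * Om = 1) (hOm : Omᵀ = -Om)
    (hG : ∀ x y, (SS Om x y)ᵀ * G + G * SS Om x y = 0) (i j : B) :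
    (Omi * G) i j = if i = j then (Omi * G) j j else 0 := by
  have h2 : Om * Omi = 1 := mul_eq_one_comm.1 h1
  have key : ∀ x y : B → ℂ, (Omi * G) * (vecMulVec x y + vecMulVec y x) =
      (vecMulVec x y + vecMulVec y x) * (G * Omi) := by
    intro x y
    have h3 := hG x y
    unfold SS at h3
    obtain ⟨S, hS⟩ : ∃ S, S = vecMulVec x y + vecMulVec y x := ⟨_, rfl⟩
    have hST : Sᵀ = S := by
      rw [hS, transpose_add, transpose_vecMulVec, transpose_vecMulVec, add_comm]
    rw [← hS] at h3 ⊢
    rw [transpose_mul, hST, hOm] at h3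
    have h4 : G * S * Om = Om * S * G := by
      have h5 : -Om * S * G + G * (S * Om) = G * S * Om - Om * S * G := by noncomm_ring
      rw [h5] at h3
      exact sub_eq_zero.1 h3
    have h6 : Omi * (G * S * Om) * Omi = Omi * (Om * S * G) * Omi := by rw [h4]
    have h7 : Omi * (G * S * Om) * Omi = (Omi * G) * S * (Om * Omi) := by noncomm_ring
    have h8 : Omi * (Om * S * G) * Omi = (Omi * Om) * S * (G * Omi) := by noncomm_ring
    rw [h7, h8, h1, h2, mul_one, one_mul] at h6
    exact h6
  obtain ⟨T, hT⟩ : ∃ T, T = Omi * G := ⟨_, rfl⟩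
  obtain ⟨U, hU⟩ : ∃ U, U = G * Omi := ⟨_, rfl⟩
  rw [← hT, ← hU] at key
  rw [← hT]
  have ent : ∀ p q a b : B, T a p * (if q = b then 1 else 0) + T a q * (if p = b then 1 else 0) =
      (if a = p then 1 else 0) * U q b + (if a = q then 1 else 0) * U p b := by
    intro p q a b
    have h3 := congrFun (congrFun (key (Pi.single p 1) (Pi.single q 1)) a) b
    rw [mul_add, add_mul, Matrix.add_apply, Matrix.add_apply, mul_vecMulVec, mul_vecMulVec,
      vecMulVec_mul, vecMulVec_mul, mulVec_single_one, mulVec_single_one, single_one_vecMul,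
      single_one_vecMul] at h3
    simp only [vecMulVec_apply, Matrix.col_apply, Matrix.row_apply, Pi.single_apply] at h3
    simp only [eq_comm (a := q) (b := b), eq_comm (a := p) (b := b)]
    exact h3
  by_cases hij : i = j
  · rw [if_pos hij, hij]
  · rw [if_neg hij]
    have h3 := ent j j i j
    rw [if_pos rfl, if_neg hij, mul_one, zero_mul, add_zero] at h3
    have h4 : (2 : ℂ) * T i j = 0 := by linear_combination h3
    exact (mul_eq_zero.1 h4).resolve_left two_ne_zero

/-- The diagonal entries agree. -/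
theorem scal' {Om Omi G : Matrix B B ℂ} (h1 : Omi * Om = 1) (hOm : Omᵀ = -Om)
    (hG : ∀ x y, (SS Om x y)ᵀ * G + G * SS Om x y = 0) (i j : B) :
    (Omi * G) i i = (Omi * G) j j := by
  have h2 : Om * Omi = 1 := mul_eq_one_comm.1 h1
  have key : ∀ x y : B → ℂ, (Omi * G) * (vecMulVec x y + vecMulVec y x) =
      (vecMulVec x y + vecMulVec y x) * (G * Omi) := by
    intro x y
    have h3 := hG x y
    unfold SS at h3
    obtain ⟨S, hS⟩ : ∃ S, S = vecMulVec x y + vecMulVec y x := ⟨_, rfl⟩
    have hST : Sᵀ = S := by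
      rw [hS, transpose_add, transpose_vecMulVec, transpose_vecMulVec, add_comm]
    rw [← hS] at h3 ⊢
    rw [transpose_mul, hST, hOm] at h3
    have h4 : G * S * Om = Om * S * G := by
      have h5 : -Om * S * G + G * (S * Om) = G * S * Om - Om * S * G := by noncomm_ring
      rw [h5] at h3
      exact sub_eq_zero.1 h3
    have h6 : Omi * (G * S * Om) * Omi = Omi * (Om * S * G) * Omi := by rw [h4]
    have h7 : Omi * (G * S * Om) * Omi = (Omi * G) * S * (Om * Omi) := by noncomm_ring
    have h8 : Omi * (Om * S * G) * Omi = (Omi * Om) * S * (G * Omi) := by noncomm_ring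
    rw [h7, h8, h1, h2, mul_one, one_mul] at h6
    exact h6
  obtain ⟨T, hT⟩ : ∃ T, T = Omi * G := ⟨_, rfl⟩
  obtain ⟨U, hU⟩ : ∃ U, U = G * Omi := ⟨_, rfl⟩
  rw [← hT, ← hU] at key
  rw [← hT]
  have ent : ∀ p q a b : B, T a p * (if q = b then 1 else 0) + T a q * (if p = b then 1 else 0) =
      (if a = p then 1 else 0) * U q b + (if a = q then 1 else 0) * U p b := by
    intro p q a b
    have h3 := congrFun (congrFun (key (Pi.single p 1) (Pi.single q 1)) a) b
    rw [mul_add, add_mul, Matrix.add_apply, Matrix.add_apply, mul_vecMulVec, mul_vecMulVec,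
      vecMulVec_mul, vecMulVec_mul, mulVec_single_one, mulVec_single_one, single_one_vecMul,
      single_one_vecMul] at h3
    simp only [vecMulVec_apply, Matrix.col_apply, Matrix.row_apply, Pi.single_apply] at h3
    simp only [eq_comm (a := q) (b := b), eq_comm (a := p) (b := b)]
    exact h3
  by_cases hij : i = j
  · rw [hij]
  · have h3 := ent i j i j
    rw [if_pos rfl, if_neg hij, if_pos rfl] at h3
    have h4 := ent j j j j
    rw [if_pos rfl] at h4
    linear_combination h3 - (1 / 2 : ℂ) * h4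

/-- The rational version. -/
theorem scal_rat {Om Omi g : Matrix B B ℚ} (h1 : Omi * Om = 1) (hOm : Omᵀ = -Om)
    (hG : ∀ x y, (SS (cK ℂ Om) x y)ᵀ * cK ℂ g + cK ℂ g * SS (cK ℂ Om) x y = 0) :
    ∃ q : ℚ, g = q • Om := by
  have h2 : Om * Omi = 1 := mul_eq_one_comm.1 h1
  have h1' : cK ℂ Omi * cK ℂ Om = 1 := by rw [← cK_mul, h1, cK_one]
  have hOm' : (cK ℂ Om)ᵀ = -cK ℂ Om := by
    rw [← cK_transpose, hOm]
    ext i j
    simp [cK]
  have hT : ∀ i j, ((((Omi * g) i j : ℚ)) : ℂ) = (cK ℂ Omi * cK ℂ g) i j := by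
    intro i j
    rw [← cK_mul]
    rfl
  rcases isEmpty_or_nonempty B with hB | ⟨⟨b⟩⟩
  · refine ⟨0, ?_⟩
    ext i
    exact hB.elim i
  · refine ⟨(Omi * g) b b, ?_⟩
    have h3 : Omi * g = (Omi * g) b b • (1 : Matrix B B ℚ) := by
      ext i j
      have h4 := scal h1' hOm' hG i j
      have h5 := scal' h1' hOm' hG j b
      rw [← hT, ← hT] at h4
      rw [← hT, ← hT] at h5
      rw [Matrix.smul_apply, Matrix.one_apply, smul_eq_mul]
      by_cases hij : i = j
      · rw [if_pos hij] at h4 ⊢
        rw [mul_one]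
        rw [h5] at h4
        exact_mod_cast h4
      · rw [if_neg hij] at h4 ⊢
        rw [mul_zero]
        exact_mod_cast h4
    calc g = Om * (Omi * g) := by rw [← Matrix.mul_assoc, h2, Matrix.one_mul]
      _ = (Omi * g) b b • Om := by
        conv_lhs => rw [h3]
        rw [Matrix.mul_smul, Matrix.mul_one]

end Pool.Agent.W437.CY
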