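import Mathlib
import Pool.Agent.W437.CY.Scal

/-!
# Direct sums of Hodge structures
-/

set_option linter.unusedSectionVars false

namespace Pool.Agent.W437.CY

open Matrix Pool.Agent.W437.HC Pool.Agent.W437.HD Pool.Agent.W437.HP Pool.Agent.W437.HR

variable {ι : Type} [Fintype ι] [DecidableEq ι] {k N : ι → ℕ}

/-- The projection to the coordinates of a summand. -/
def pm (N : ι → ℕ) (i : ι) : Matrix (Fin (N i)) (Σ i, Fin (N i)) ℚ :=
  Matrix.of fun b z => if z = ⟨i, b⟩ then 1 else 0

theorem pm_apply (i : ι) (b : Fin (N i)) (z : Σ i, Fin (N i)) :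
    pm N i b z = if z = ⟨i, b⟩ then 1 else 0 := rfl

theorem pm_same (i : ι) : pm N i * (pm N i)ᵀ = 1 := by
  ext b b'
  rw [Matrix.mul_apply, Finset.sum_eq_single ⟨i, b⟩]
  · rw [Matrix.transpose_apply, pm_apply, pm_apply, if_pos rfl, one_mul, Matrix.one_apply]
    by_cases h : b = b'
    · rw [if_pos h, if_pos (by rw [h])]
    · rw [if_neg h, if_neg]
      intro h1
      apply h
      have h3 := (Sigma.mk.inj_iff.1 h1).2
      exact eq_of_heq h3
  · intro z _ hz
    rw [pm_apply, if_neg hz, zero_mul]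
  · intro h
    exact absurd (Finset.mem_univ _) h

theorem pm_off {i j : ι} (hij : i ≠ j) : pm N i * (pm N j)ᵀ = 0 := by
  ext b b'
  rw [Matrix.mul_apply, Matrix.zero_apply]
  refine Finset.sum_eq_zero fun z _ => ?_
  rw [Matrix.transpose_apply, pm_apply, pm_apply]
  by_cases h : z = ⟨i, b⟩
  · rw [if_neg (show ¬z = ⟨j, b'⟩ from ?_), mul_zero]
    intro h1
    rw [h] at h1
    exact hij (Sigma.mk.inj_iff.1 h1).1
  · rw [if_neg h, zero_mul]

theorem pm_tot : ∑ i, (pm N i)ᵀ * pm N i = 1 := by
  ext z z'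
  rw [Matrix.sum_apply, Matrix.one_apply]
  have h1 : ∀ i, ((pm N i)ᵀ * pm N i) z z' = if z = z' ∧ z.1 = i then 1 else 0 := by
    intro i
    rw [Matrix.mul_apply]
    by_cases h : z = z' ∧ z.1 = i
    · obtain ⟨rfl, rfl⟩ := h
      rw [if_pos ⟨rfl, rfl⟩, Finset.sum_eq_single z.2]
      · rw [Matrix.transpose_apply, pm_apply, if_pos rfl, one_mul]
      · intro b _ hb
        rw [Matrix.transpose_apply, pm_apply, if_neg, zero_mul]
        intro h1
        apply hb
        have h2 : (⟨z.1, z.2⟩ : Σ i, Fin (N i)) = ⟨z.1, b⟩ := h1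
        exact (eq_of_heq (Sigma.mk.inj_iff.1 h2).2).symm
      · intro h
        exact absurd (Finset.mem_univ _) h
    · rw [if_neg h]
      refine Finset.sum_eq_zero fun b _ => ?_
      rw [Matrix.transpose_apply, pm_apply, pm_apply]
      by_cases h1 : z = ⟨i, b⟩
      · rw [if_neg (show ¬z' = ⟨i, b⟩ from ?_), mul_zero]
        intro h2
        apply h
        rw [h1, h2]
        exact ⟨rfl, rfl⟩
      · rw [if_neg h1, zero_mul]
  rw [Finset.sum_congr rfl (fun i _ => h1 i)]
  by_cases h : z = z'
  · rw [if_pos h, Finset.sum_eq_single z.1]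
    · rw [if_pos ⟨h, rfl⟩]
    · intro i _ hi
      rw [if_neg]
      intro h2
      exact hi h2.2.symm
    · intro h
      exact absurd (Finset.mem_univ _) h
  · rw [if_neg h]
    refine Finset.sum_eq_zero fun i _ => ?_
    rw [if_neg]
    intro h2
    exact h h2.1

/-- The block diagonal matrix. -/
noncomputable def glue (K : Type*) [Field K] (M : ∀ i, Matrix (Fin (N i)) (Fin (N i)) K) :
    Matrix (Σ i, Fin (N i)) (Σ i, Fin (N i)) K :=
  ∑ i, (cK K (pm N i))ᵀ * M i * cK K (pm N i)

section field

variable {K : Type*} [Field K] [CharZero K]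

theorem pmK_same (i : ι) : cK K (pm N i) * (cK K (pm N i))ᵀ = 1 := by
  rw [← cK_transpose, ← cK_mul, pm_same, cK_one]

theorem pmK_off {i j : ι} (hij : i ≠ j) : cK K (pm N i) * (cK K (pm N j))ᵀ = 0 := by
  rw [← cK_transpose, ← cK_mul, pm_off hij, cK_zero]

theorem pmK_tot : ∑ i, (cK K (pm N i))ᵀ * cK K (pm N i) = 1 := by
  have h := congrArg (cK K) (pm_tot (N := N))
  rw [cK_sum, cK_one] at h
  rw [← h]
  exact Finset.sum_congr rfl fun i _ => by rw [cK_mul, cK_transpose]

theorem pm_glue (M : ∀ i, Matrix (Fin (N i)) (Fin (N i)) K) (i : ι) :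
    cK K (pm N i) * glue K M = M i * cK K (pm N i) := by
  unfold glue
  rw [Matrix.mul_sum, Finset.sum_eq_single i]
  · have h1 : cK K (pm N i) * ((cK K (pm N i))ᵀ * M i * cK K (pm N i)) =
      (cK K (pm N i) * (cK K (pm N i))ᵀ) * M i * cK K (pm N i) := by
      simp only [Matrix.mul_assoc]
    rw [h1, pmK_same, Matrix.one_mul]
  · intro j _ hj
    have h1 : cK K (pm N i) * ((cK K (pm N j))ᵀ * M j * cK K (pm N j)) =
      (cK K (pm N i) * (cK K (pm N j))ᵀ) * M j * cK K (pm N j) := by
      simp only [Matrix.mul_assoc]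
    rw [h1, pmK_off (Ne.symm hj), Matrix.zero_mul, Matrix.zero_mul]
  · intro h
    exact absurd (Finset.mem_univ _) h

theorem glue_mul (M M' : ∀ i, Matrix (Fin (N i)) (Fin (N i)) K) :
    glue K M * glue K M' = glue K fun i => M i * M' i := by
  conv_lhs => rw [glue]
  rw [Matrix.sum_mul]
  conv_rhs => rw [glue]
  refine Finset.sum_congr rfl fun i _ => ?_
  rw [Matrix.mul_assoc, pm_glue]
  simp only [Matrix.mul_assoc]

theorem glue_transpose (M : ∀ i, Matrix (Fin (N i)) (Fin (N i)) K) :
    (glue K M)ᵀ = glue K fun i => (M i)ᵀ := by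
  unfold glue
  rw [transpose_sum]
  refine Finset.sum_congr rfl fun i _ => ?_
  rw [transpose_mul, transpose_mul, transpose_transpose, Matrix.mul_assoc]

theorem glue_one : glue K (fun i => (1 : Matrix (Fin (N i)) (Fin (N i)) K)) = 1 := by
  unfold glue
  rw [← pmK_tot (N := N)]
  exact Finset.sum_congr rfl fun i _ => by rw [Matrix.mul_one]

theorem glue_add (M M' : ∀ i, Matrix (Fin (N i)) (Fin (N i)) K) :
    glue K M + glue K M' = glue K fun i => M i + M' i := by
  unfold glue
  rw [← Finset.sum_add_distrib]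
  exact Finset.sum_congr rfl fun i _ => by rw [Matrix.mul_add, Matrix.add_mul]

theorem glue_zero : glue K (fun i => (0 : Matrix (Fin (N i)) (Fin (N i)) K)) = 0 := by
  unfold glue
  exact Finset.sum_eq_zero fun i _ => by rw [Matrix.mul_zero, Matrix.zero_mul]

theorem glue_cK (M : ∀ i, Matrix (Fin (N i)) (Fin (N i)) ℚ) :
    cK K (glue ℚ M) = glue K fun i => cK K (M i) := by
  unfold glue
  rw [cK_sum]
  refine Finset.sum_congr rfl fun i _ => ?_
  rw [cK_mul, cK_mul, cK_transpose, cK_rat]

end field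

/-- The operator `p - q` on the direct sum. -/
noncomputable def gD (V : ∀ i, PolHS (k i) (N i)) : Matrix (Σ i, Fin (N i)) (Σ i, Fin (N i)) ℂ :=
  glue ℂ fun i => (V i).D

/-- The direct sum as a system of blocks. -/
noncomputable def blk (V : ∀ i, PolHS (k i) (N i)) :
    Blocks (Σ i, Fin (N i)) (gD V) (fun i => Fin (N i)) (fun i => (V i).D)
      (fun i => (V i).Q) where
  P := pm N
  same := pm_same
  off := fun _ _ h => pm_off h
  tot := pm_tot
  com := fun i => pm_glue _ i
  unit := fun i => (V i).unit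
  sp := fun i => (V i).spD

/-- The forms killed by the operator of the direct sum. -/
theorem mem_MS_glue (V : ∀ i, PolHS (k i) (N i)) (hk : ∀ i, Odd (k i))
    (hs : ∀ i, (V i).IsSimple) (hv : ∀ i, (V i).HalfIndep) {m : ℕ}
    (c : (Fin m × Fin 2 → Σ i, Fin (N i)) → ℚ) (hc : IsH (gD V) c) : c ∈ MS (gD V) m := by
  have hK : ∀ i, (k i : ℤ) ≤ ∑ j, (k j : ℤ) := fun i =>
    Finset.single_le_sum (f := fun j => (k j : ℤ)) (fun j _ => by positivity) (Finset.mem_univ i)
  have hp := fun i => (V i).pol (hk i) (hK i)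
  exact mem_MS' (blk V) (fun i => nondeg (blk V) hp i) (fun i => (hp i).inj)
    (fun i => ((V i).full (hk i) (hs i) (hv i)).2) c hc

/-- The projections of the direct sum. -/
theorem proj_glue (V : ∀ i, PolHS (k i) (N i)) (hk : ∀ i, Odd (k i)) :
    ∃ (S : Finset ℤ) (P : ℤ → Matrix (Σ i, Fin (N i)) (Σ i, Fin (N i)) ℂ), Proj (gD V) S P ∧
      ∀ a, P a ≠ 0 → Odd a := by
  have hK : ∀ i, (k i : ℤ) ≤ ∑ j, (k j : ℤ) := fun i =>
    Finset.single_le_sum (f := fun j => (k j : ℤ)) (fun j _ => by positivity) (Finset.mem_univ i)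
  have hp := fun i => (V i).pol (hk i) (hK i)
  refine ⟨_, gP (blk V) fun i => (V i).P, gP_proj (blk V) fun i => (hp i).prj, fun a ha => ?_⟩
  by_contra h
  apply ha
  unfold gP
  refine Finset.sum_eq_zero fun i _ => ?_
  have h5 : (fun i => (V i).P) i a = 0 := (hp i).P_zero_of_not_odd h
  rw [h5, Matrix.mul_zero, Matrix.zero_mul]

/-- The forms killed by the operator on an odd number of factors are zero. -/
theorem odd_zero {B : Type*} [Fintype B] [DecidableEq B] {D : Matrix B B ℂ} {S : Finset ℤ}
    {P : ℤ → Matrix B B ℂ} (h : Proj D S P) (ho : ∀ a, P a ≠ 0 → Odd a) {κ : Type*} [Fintype κ]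
    [DecidableEq κ] (hc : Odd (Fintype.card κ)) {c : (κ → B) → ℂ} (h0 : act D c = 0) : c = 0 := by
  refine eq_zero_of_evalF fun x => ?_
  have h1 : evalF c x = evalM c (fun j => ∑ a ∈ S, P a *ᵥ x j) := by
    rw [evalM_apply]
    congr 1
    funext j
    exact (h.sum_vec (x j)).symm
  rw [h1, MultilinearMap.map_sum_finset]
  refine Finset.sum_eq_zero fun a _ => ?_
  by_cases ha : ∃ j, P (a j) = 0
  · obtain ⟨j, hj⟩ := ha
    exact (evalM c).map_coord_zero j (by rw [hj, zero_mulVec])
  · push Not at ha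
    have h2 := evalF_act D c (fun j => P (a j) *ᵥ x j)
    rw [h0, evalF_zero] at h2
    have h3 : ∀ j, evalF c (Function.update (fun j => P (a j) *ᵥ x j) j
        (D *ᵥ (P (a j) *ᵥ x j))) = (a j : ℂ) * evalF c (fun j => P (a j) *ᵥ x j) := by
      intro j
      rw [mulVec_mulVec, h.left, smul_mulVec, evalF_update_smul, Function.update_eq_self]
    rw [Finset.sum_congr rfl (fun j _ => h3 j), ← Finset.sum_mul] at h2
    have h4 : ((∑ j, a j : ℤ) : ℂ) ≠ 0 := by
      have h5 : Odd (∑ j, a j) := by
        have h6 : ∀ s : Finset κ, (Odd s.card → Odd (∑ j ∈ s, a j)) ∧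
            (Even s.card → Even (∑ j ∈ s, a j)) := by
          intro s
          induction s using Finset.induction_on with
          | empty => simp
          | insert j s hj ih =>
            rw [Finset.card_insert_of_notMem hj, Finset.sum_insert hj]
            have hoj := ho _ (ha j)
            constructor
            · intro h
              have : Even s.card := by
                rw [Nat.odd_add_one, Nat.not_odd_iff_even] at h
                exact h
              exact hoj.add_even (ih.2 this)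
            · intro h
              have : Odd s.card := by
                rw [Nat.even_add_one, Nat.not_even_iff_odd] at h
                exact h
              exact hoj.add_odd (ih.1 this)
        exact (h6 Finset.univ).1 (by rwa [Finset.card_univ])
      intro h
      have h6 : ∑ j, a j = 0 := by exact_mod_cast h
      rw [h6] at h5
      exact absurd h5 (by decide)
    rw [Int.cast_sum] at h4
    exact (mul_eq_zero.1 h2.symm).resolve_left h4

end Pool.Agent.W437.CY
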