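import Mathlib
import Pool.Agent.W437.CY.Glu
import Pool.Agent.W437.CY.Defs

/-!
# Pullbacks of products of bilinear forms, and products of classes
-/

set_option linter.unusedSectionVars false

namespace Pool.Agent.W437.CY

open Matrix Pool.Agent.W437.HC Pool.Agent.W437.HD Pool.Agent.W437.HP Pool.Agent.W437.HR

section pull

variable {R B K : Type*} [Fintype B] [DecidableEq B] [Fintype R] [DecidableEq R] [Field K]

theorem sum_two {α : Type*} [AddCommMonoid α] (F : R → R → α) :
    ∑ J : Fin 2 → R, F (J 0) (J 1) = ∑ x, ∑ y, F x y := by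
  rw [← Fintype.sum_prod_type (f := fun p : R × R => F p.1 p.2)]
  exact Fintype.sum_equiv (finTwoArrowEquiv R) _ _ fun J => rfl

theorem pull_two (E : Matrix R B K) (c : (Fin 2 → R) → K) (I : Fin 2 → B) :
    pull E c I = ∑ x, ∑ y, c ![x, y] * (E x (I 0) * E y (I 1)) := by
  rw [← sum_two (fun x y => c ![x, y] * (E x (I 0) * E y (I 1)))]
  unfold pull
  refine Finset.sum_congr rfl fun J _ => ?_
  rw [Fin.prod_univ_two]
  have h1 : ![J 0, J 1] = J := by
    funext k
    fin_cases k <;> rfl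
  rw [h1]

/-- The pullback of a product over a matching. -/
theorem pull_prod {κ : Type*} [Fintype κ] [DecidableEq κ] {m : ℕ} (E : Matrix R B K)
    (e : Fin m × Fin 2 ≃ κ) (b : Fin m → (Fin 2 → R) → K) (I : κ → B) :
    pull E (fun J => ∏ s, b s ![J (e (s, 0)), J (e (s, 1))]) I =
      ∏ s, pull E (b s) ![I (e (s, 0)), I (e (s, 1))] := by
  have h1 : ∀ J : κ → R, (∏ s, b s ![J (e (s, 0)), J (e (s, 1))]) * ∏ k, E (J k) (I k) =
      ∏ s, (b s ![J (e (s, 0)), J (e (s, 1))] * (E (J (e (s, 0))) (I (e (s, 0))) *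
        E (J (e (s, 1))) (I (e (s, 1))))) := by
    intro J
    rw [← Equiv.prod_comp e (fun k => E (J k) (I k)), Fintype.prod_prod_type]
    simp only [Fin.prod_univ_two]
    rw [← Finset.prod_mul_distrib]
  unfold pull
  rw [Finset.sum_congr rfl (fun J _ => h1 J)]
  rw [sum_match e (fun s x y => b s ![x, y] * (E x (I (e (s, 0))) * E y (I (e (s, 1)))))]
  refine Finset.prod_congr rfl fun s _ => ?_
  have h2 := pull_two E (b s) ![I (e (s, 0)), I (e (s, 1))]
  unfold pull at h2
  rw [h2]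
  rfl

theorem pull_bilc (E : Matrix R B K) (G : Matrix R R K) :
    pull E (bilc G) = bilc (Eᵀ * G * E) := by
  funext I
  rw [pull_two, bilc, Matrix.mul_apply]
  simp only [Matrix.mul_apply, Matrix.transpose_apply, Finset.sum_mul, bilc, Matrix.cons_val_zero,
    Matrix.cons_val_one]
  rw [Finset.sum_comm]
  refine Finset.sum_congr rfl fun y _ => Finset.sum_congr rfl fun x _ => ?_
  ring

theorem pull_add {κ : Type*} [Fintype κ] [DecidableEq κ] (E : Matrix R B K)
    (c c' : (κ → R) → K) : pull E (c + c') = pull E c + pull E c' := by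
  funext I
  simp only [pull, Pi.add_apply, add_mul, Finset.sum_add_distrib]

theorem pull_smul {κ : Type*} [Fintype κ] [DecidableEq κ] (E : Matrix R B K) (a : K)
    (c : (κ → R) → K) : pull E (a • c) = a • pull E c := by
  funext I
  simp only [pull, Pi.smul_apply, smul_eq_mul, Finset.mul_sum, mul_assoc]

theorem pull_reindex {κ κ' : Type*} [Fintype κ] [DecidableEq κ] [Fintype κ'] [DecidableEq κ']
    (E : Matrix R B K) (e : κ ≃ κ') (c : (κ → R) → K) (I : κ' → B) :
    pull E (fun J : κ' → R => c (fun k => J (e k))) I = pull E c (fun k => I (e k)) := by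
  unfold pull
  refine Fintype.sum_equiv (Equiv.arrowCongr e.symm (Equiv.refl R)) _ _ fun J => ?_
  have h1 : (Equiv.arrowCongr e.symm (Equiv.refl R)) J = fun k => J (e k) := by
    funext k
    simp [Equiv.arrowCongr]
  rw [h1]
  congr 1
  exact (Equiv.prod_comp e (fun k => E (J k) (I k))).symm

theorem bilc_injective {G G' : Matrix B B K} (h : bilc G = bilc G') : G = G' := by
  ext i j
  exact congrFun h ![i, j]

end pull

section prod

variable {ι : Type} [Fintype ι] [DecidableEq ι] {k N : ι → ℕ} {l : ℕ}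

/-- The formal properties which are used for the tensors of the `V i`. -/
structure Sys0 (V : ∀ i, PolHS (k i) (N i))
    (A : ∀ κ : Type, Submodule ℚ ((κ → Bas l N) → ℚ)) : Prop where
  one : (fun _ => 1) ∈ A Empty
  mul : ∀ (κ κ' : Type) [Finite κ] [Finite κ'] (c : (κ → Bas l N) → ℚ)
    (c' : (κ' → Bas l N) → ℚ), c ∈ A κ → c' ∈ A κ' →
    (fun I : κ ⊕ κ' → Bas l N => c (fun j => I (Sum.inl j)) * c' (fun j => I (Sum.inr j))) ∈
      A (κ ⊕ κ')
  perm : ∀ (κ κ' : Type) [Finite κ] (e : κ ≃ κ') (c : (κ → Bas l N) → ℚ), c ∈ A κ →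
    (fun I : κ' → Bas l N => c (fun j => I (e j))) ∈ A κ'
  diag : ∀ i, pairClass l i i (V i).Q⁻¹ ∈ A (Fin 2)
  cross : ∀ i j, i ≠ j → ∀ m : Matrix (Fin (N i)) (Fin (N j)) ℚ,
    (V i).D * cK ℂ m + cK ℂ m * (V j).Dᵀ = 0 → pairClass l i j m ∈ A (Fin 2)

variable {V : ∀ i, PolHS (k i) (N i)} {A : ∀ κ : Type, Submodule ℚ ((κ → Bas l N) → ℚ)}
  (hA : Sys0 V A)

include hA

/-- Products of families of classes. -/
theorem prod_mem (κ0 : Type) [Finite κ0] (Λ : Type) [Fintype Λ] :
    ∀ a : Λ → (κ0 → Bas l N) → ℚ, (∀ s, a s ∈ A κ0) →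
      (fun I : Λ × κ0 → Bas l N => ∏ s, a s (fun ε => I (s, ε))) ∈ A (Λ × κ0) := by
  refine Fintype.induction_empty_option (P := fun Λ _ =>
    ∀ a : Λ → (κ0 → Bas l N) → ℚ, (∀ s, a s ∈ A κ0) →
      (fun I : Λ × κ0 → Bas l N => ∏ s, a s (fun ε => I (s, ε))) ∈ A (Λ × κ0)) ?_ ?_ ?_ Λ
  · intro α β _ e ih a ha
    let _ : Fintype α := Fintype.ofEquiv β e.symm
    have h1 := ih (fun s => a (e s)) (fun s => ha _)
    have h2 := hA.perm _ _ (Equiv.prodCongr e (Equiv.refl κ0)) _ h1
    convert h2 using 1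
    funext I
    rw [← Equiv.prod_comp e (fun s => a s (fun ε => I (s, ε)))]
    exact Fintype.prod_equiv (Equiv.refl α) _ _ (fun s => rfl)
  · intro a ha
    have e : Empty ≃ PEmpty × κ0 := Equiv.equivOfIsEmpty _ _
    have h2 := hA.perm _ _ e _ hA.one
    convert h2 using 1
    funext I
    exact Fintype.prod_empty _
  · intro α _ ih a ha
    have h1 := ih (fun s => a (some s)) (fun s => ha _)
    have h2 := hA.mul _ _ _ _ (ha none) h1
    let e : κ0 ⊕ (α × κ0) ≃ Option α × κ0 :=
      { toFun := Sum.elim (fun ε => (none, ε)) (fun p => (some p.1, p.2))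
        invFun := fun p => match p with
          | (none, ε) => Sum.inl ε
          | (some s, ε) => Sum.inr (s, ε)
        left_inv := by
          rintro (ε | ⟨s, ε⟩) <;> rfl
        right_inv := by
          rintro ⟨_ | s, ε⟩ <;> rfl }
    have h3 := hA.perm _ _ e _ h2
    convert h3 using 1
    funext I
    rw [Fintype.prod_option]
    rfl

end prod

end Pool.Agent.W437.CY
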