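import Mathlib
import Pool.Agent.W437.CY.Pull

/-!
# Hodge classes in the tensor products of two Hodge structures
-/

set_option linter.unusedSectionVars false

namespace Pool.Agent.W437.CY

open Matrix Pool.Agent.W437.HC Pool.Agent.W437.HD Pool.Agent.W437.HP Pool.Agent.W437.HR

variable {ι : Type} [Fintype ι] [DecidableEq ι] {k N : ι → ℕ} {l : ℕ}

/-- The matrix of the embedding. -/
def RR (l : ℕ) (N : ι → ℕ) : Matrix (Σ i, Fin (N i)) (Bas l N) ℚ :=
  Matrix.of fun b z => if z = Sum.inr b then 1 else 0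

theorem pmRR (i : ι) (b : Fin (N i)) (z : Bas l N) :
    (pm N i * RR l N) b z = if z = Sum.inr ⟨i, b⟩ then 1 else 0 := by
  rw [Matrix.mul_apply, Finset.sum_eq_single ⟨i, b⟩]
  · rw [pm_apply, if_pos rfl, one_mul]
    rfl
  · intro y _ hy
    rw [pm_apply, if_neg hy, zero_mul]
  · intro h
    exact absurd (Finset.mem_univ _) h

theorem pairClass_eq (i j : ι) (m : Matrix (Fin (N i)) (Fin (N j)) ℚ) :
    pairClass l i j m = bilc ((pm N i * RR l N)ᵀ * m * (pm N j * RR l N)) := by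
  funext I
  simp only [pairClass, bilc, Matrix.mul_apply (M := (pm N i * RR l N)ᵀ * m),
    Matrix.mul_apply (M := (pm N i * RR l N)ᵀ), Matrix.transpose_apply, pmRR, Finset.sum_mul]
  rw [Finset.sum_comm]
  refine Finset.sum_congr rfl fun b' _ => Finset.sum_congr rfl fun b _ => ?_
  by_cases h0 : I 0 = Sum.inr ⟨i, b⟩
  · by_cases h1 : I 1 = Sum.inr ⟨j, b'⟩
    · rw [if_pos ⟨h0, h1⟩, if_pos h0, if_pos h1, one_mul, mul_one]
    · rw [if_neg (fun h => h1 h.2), if_neg h1, mul_zero]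
  · rw [if_neg (fun h => h0 h.1), if_neg h0, zero_mul, zero_mul]

/-- The embedding of a vector. -/
noncomputable def emv (l : ℕ) (i : ι) (y : Fin (N i) → ℂ) : Bas l N → ℂ :=
  (cK ℂ (pm N i * RR l N))ᵀ *ᵥ y

theorem emv_apply (i : ι) (y : Fin (N i) → ℂ) (z : Bas l N) :
    emv l i y z = ∑ b, (if z = Sum.inr ⟨i, b⟩ then 1 else 0) * y b := by
  unfold emv
  rw [mulVec, dotProduct]
  refine Finset.sum_congr rfl fun b _ => ?_
  rw [Matrix.transpose_apply, cK, Matrix.map_apply, pmRR]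
  by_cases h : z = Sum.inr ⟨i, b⟩
  · rw [if_pos h, if_pos h, Rat.cast_one]
  · rw [if_neg h, if_neg h, Rat.cast_zero]

theorem emv_inl (i : ι) (y : Fin (N i) → ℂ) (t : Fin l) : emv l i y (Sum.inl t) = 0 := by
  rw [emv_apply]
  refine Finset.sum_eq_zero fun b _ => ?_
  rw [if_neg (by simp), zero_mul]

theorem emv_ne (i : ι) (y : Fin (N i) → ℂ) (b : Σ i, Fin (N i)) (hb : b.1 ≠ i) :
    emv l i y (Sum.inr b) = 0 := by
  rw [emv_apply]
  refine Finset.sum_eq_zero fun b' _ => ?_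
  rw [if_neg, zero_mul]
  intro h
  apply hb
  rw [Sum.inr.inj h]

theorem emv_same (i : ι) (y : Fin (N i) → ℂ) (b : Fin (N i)) :
    emv l i y (Sum.inr ⟨i, b⟩) = y b := by
  rw [emv_apply, Finset.sum_eq_single b]
  · rw [if_pos rfl, one_mul]
  · intro b' _ hb
    rw [if_neg, zero_mul]
    intro h
    apply hb
    have h2 := Sum.inr.inj h
    exact (eq_of_heq (Sigma.mk.inj_iff.1 h2).2).symm
  · intro h
    exact absurd (Finset.mem_univ _) h

variable {V : ∀ i, PolHS (k i) (N i)}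

theorem homog_emv {d : ℕ} (M : LowHS d l) (i : ι) (p : Fin (k i + 1)) {y : Fin (N i) → ℂ}
    (hy : y ∈ (V i).H p) : Homog M V (emv l i y) (2 * (p : ℤ) - k i) := by
  refine Or.inr ⟨i, p, emv_inl i y, emv_ne i y, ?_, rfl⟩
  have h1 : (fun b => emv l i y (Sum.inr ⟨i, b⟩)) = y := funext fun b => emv_same i y b
  rw [h1]
  exact hy

theorem PolHS.pr_D {k N : ℕ} (V : PolHS k N) (p : Fin (k + 1)) :
    V.pr p * V.D = ((2 * (p : ℤ) - k : ℤ) : ℂ) • V.pr p := by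
  refine V.ext_mat fun q x hx => ?_
  rw [← mulVec_mulVec, V.D_vec hx, mulVec_smul, smul_mulVec, V.pr_vec]
  by_cases h : q = p
  · rw [h]
  · rw [V.pl_ne hx h, smul_zero, smul_zero]

theorem PolHS.pr_sum {k N : ℕ} (V : PolHS k N) : ∑ p, V.pr p = 1 := by
  refine mat_ext fun x => ?_
  rw [Matrix.sum_mulVec, one_mulVec]
  simp only [V.pr_vec]
  exact V.pl_sum x

/-- A tensor killed by the operator is a Hodge class. -/
theorem hodge_pair {d : ℕ} (M₀ : LowHS d l) {i j : ι} {m : Matrix (Fin (N i)) (Fin (N j)) ℚ}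
    (hm : (V i).D * cK ℂ m + cK ℂ m * (V j).Dᵀ = 0) : IsHodgeClass M₀ V (pairClass l i j m) := by
  classical
  unfold IsHodgeClass
  obtain ⟨M, hM⟩ : ∃ M, M = cK ℂ m := ⟨_, rfl⟩
  have h1 : (fun I => ((pairClass l i j m I : ℚ) : ℂ)) =
      bilc ((cK ℂ (pm N i * RR l N))ᵀ * M * cK ℂ (pm N j * RR l N)) := by
    rw [pairClass_eq, hM, ← cK_transpose, ← cK_mul, ← cK_mul]
    rfl
  rw [h1]
  have h2 : M = ∑ p, ∑ q, (V i).pr p * M * ((V j).pr q)ᵀ := by
    have h3 : M = (∑ p, (V i).pr p) * M * (∑ q, (V j).pr q)ᵀ := by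
      rw [(V i).pr_sum, (V j).pr_sum, transpose_one, Matrix.one_mul, Matrix.mul_one]
    conv_lhs => rw [h3]
    rw [Matrix.sum_mul, Matrix.sum_mul, transpose_sum]
    refine Finset.sum_congr rfl fun p _ => ?_
    rw [Matrix.mul_sum]
  have h4 : bilc ((cK ℂ (pm N i * RR l N))ᵀ * M * cK ℂ (pm N j * RR l N)) =
      ∑ p, ∑ q, bilc ((cK ℂ (pm N i * RR l N))ᵀ * ((V i).pr p * M * ((V j).pr q)ᵀ) *
        cK ℂ (pm N j * RR l N)) := by
    funext I
    conv_lhs => rw [h2]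
    simp only [bilc, Matrix.mul_sum, Matrix.sum_mul, Matrix.sum_apply, Finset.sum_apply]
  rw [h4]
  refine Submodule.sum_mem _ fun p _ => Submodule.sum_mem _ fun q _ => ?_
  by_cases hpq : (2 * (p : ℤ) - k i) + (2 * (q : ℤ) - k j) = 0
  · have h5 : (V i).pr p * M * ((V j).pr q)ᵀ =
        ∑ b, vecMulVec ((V i).pr p *ᵥ (Pi.single b 1)) ((V j).pr q *ᵥ (M b)) := by
      have h6 : M = ∑ b, vecMulVec (Pi.single b 1) (M b) := by
        ext x y
        rw [Matrix.sum_apply, Finset.sum_eq_single x]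
        · rw [vecMulVec_apply, Pi.single_eq_same, one_mul]
        · intro b _ hb
          rw [vecMulVec_apply, Pi.single_eq_of_ne (Ne.symm hb), zero_mul]
        · intro h
          exact absurd (Finset.mem_univ _) h
      conv_lhs => rw [h6]
      rw [Matrix.mul_sum, Matrix.sum_mul]
      refine Finset.sum_congr rfl fun b _ => ?_
      rw [mul_vecMulVec, vecMulVec_mul, vecMul_transpose]
    have h7 : bilc ((cK ℂ (pm N i * RR l N))ᵀ * ((V i).pr p * M * ((V j).pr q)ᵀ) *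
        cK ℂ (pm N j * RR l N)) = ∑ b, fun I : Fin 2 → Bas l N =>
          emv l i ((V i).pr p *ᵥ (Pi.single b 1)) (I 0) *
            emv l j ((V j).pr q *ᵥ (M b)) (I 1) := by
      rw [h5]
      funext I
      simp only [bilc, Matrix.mul_sum, Matrix.sum_mul, Matrix.sum_apply, Finset.sum_apply]
      refine Finset.sum_congr rfl fun b _ => ?_
      rw [mul_vecMulVec, vecMulVec_mul, vecMulVec_apply, ← mulVec_transpose]
      rfl
    rw [h7]
    refine Submodule.sum_mem _ fun b _ => Submodule.subset_span ?_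
    have hx : (V i).pr p *ᵥ (Pi.single b 1) ∈ (V i).H p := by
      rw [(V i).pr_vec]
      exact (V i).pl_mem p _
    have hy : (V j).pr q *ᵥ (M b) ∈ (V j).H q := by
      rw [(V j).pr_vec]
      exact (V j).pl_mem q _
    refine ⟨![emv l i ((V i).pr p *ᵥ (Pi.single b 1)), emv l j ((V j).pr q *ᵥ (M b))],
      ![2 * (p : ℤ) - k i, 2 * (q : ℤ) - k j], ?_, ?_, ?_⟩
    · intro s
      fin_cases s
      · exact homog_emv M₀ i p hx
      · exact homog_emv M₀ j q hy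
    · rw [Fin.sum_univ_two]
      exact hpq
    · funext I
      rw [Fin.prod_univ_two]
      rfl
  · have h5 : (V i).pr p * M * ((V j).pr q)ᵀ = 0 := by
      have h6 : (V i).pr p * ((V i).D * M + M * (V j).Dᵀ) * ((V j).pr q)ᵀ = 0 := by
        rw [hM, hm, Matrix.mul_zero, Matrix.zero_mul]
      have h7 : (V i).pr p * ((V i).D * M + M * (V j).Dᵀ) * ((V j).pr q)ᵀ =
          ((V i).pr p * (V i).D) * M * ((V j).pr q)ᵀ +
            (V i).pr p * M * ((V j).pr q * (V j).D)ᵀ := by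
        rw [transpose_mul]
        simp only [Matrix.mul_add, Matrix.add_mul, Matrix.mul_assoc]
      rw [h7, (V i).pr_D, (V j).pr_D, transpose_smul, Matrix.mul_smul, Matrix.smul_mul,
        Matrix.smul_mul, ← add_smul, ← Int.cast_add] at h6
      exact (smul_eq_zero.1 h6).resolve_left (by exact_mod_cast hpq)
    rw [h5, Matrix.mul_zero, Matrix.zero_mul]
    have h8 : bilc (0 : Matrix (Bas l N) (Bas l N) ℂ) = 0 := rfl
    rw [h8]
    exact Submodule.zero_mem _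

variable {A : ∀ κ : Type, Submodule ℚ ((κ → Bas l N) → ℚ)} (hA : Sys0 V A)
  (hk : ∀ i, Odd (k i)) (hs : ∀ i, (V i).IsSimple) (hv : ∀ i, (V i).HalfIndep)

theorem QT (hk : ∀ i, Odd (k i)) (i : ι) : ((V i).Q⁻¹)ᵀ = -(V i).Q⁻¹ := by
  rw [Matrix.transpose_nonsing_inv, (V i).sym, (hk i).neg_one_pow, neg_one_smul]
  have h1 : IsUnit (V i).Q.det := (Matrix.isUnit_iff_isUnit_det _).1 (V i).unit
  have h2 : (-(V i).Q) * (-(V i).Q⁻¹) = 1 := by
    rw [neg_mul_neg, Matrix.mul_nonsing_inv _ h1]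
  exact Matrix.inv_eq_right_inv h2

include hA hk hs hv

/-- The bilinear forms killed by the operator give classes of the system. -/
theorem pair_mem (b : (Fin 2 → Σ i, Fin (N i)) → ℚ) (hb : IsH (gD V) b) :
    pull (glue ℚ (fun i => (V i).Q⁻¹) * RR l N) b ∈ A (Fin 2) := by
  obtain ⟨G, hG⟩ : ∃ G : Matrix (Σ i, Fin (N i)) (Σ i, Fin (N i)) ℚ,
      G = Matrix.of fun x y => b ![x, y] := ⟨_, rfl⟩
  have hbG : b = bilc G := by
    funext I
    rw [hG]
    simp only [bilc, Matrix.of_apply]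
    congr 1
    funext s
    fin_cases s <;> rfl
  have hu : ∀ i, IsUnit (V i).Q.det := fun i =>
    (Matrix.isUnit_iff_isUnit_det _).1 (V i).unit
  -- the operator kills the form
  have hGD : (gD V)ᵀ * cK ℂ G + cK ℂ G * gD V = 0 := by
    have h1 : act (gD V) (bilc (cK ℂ G)) = 0 := by
      rw [hbG] at hb
      exact hb
    ext x y
    have h2 := congrFun h1 ![x, y]
    rw [act_bilc] at h2
    exact h2
  have hGij : ∀ i j, (V i).Dᵀ * cK ℂ (pm N i * G * (pm N j)ᵀ) +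
      cK ℂ (pm N i * G * (pm N j)ᵀ) * (V j).D = 0 := by
    intro i j
    have h1 := congrArg (fun M => cK ℂ (pm N i) * M * (cK ℂ (pm N j))ᵀ) hGD
    simp only [Matrix.mul_zero, Matrix.zero_mul, Matrix.mul_add, Matrix.add_mul] at h1
    have h2 : cK ℂ (pm N i) * (gD V)ᵀ = (V i).Dᵀ * cK ℂ (pm N i) := by
      unfold gD
      rw [glue_transpose, pm_glue]
    have h3 : gD V * (cK ℂ (pm N j))ᵀ = (cK ℂ (pm N j))ᵀ * (V j).D := by
      have h4 : cK ℂ (pm N j) * (gD V)ᵀ = (V j).Dᵀ * cK ℂ (pm N j) := by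
        unfold gD
        rw [glue_transpose, pm_glue]
      have h5 := congrArg Matrix.transpose h4
      rwa [transpose_mul, transpose_mul, transpose_transpose, transpose_transpose] at h5
    have h4 : cK ℂ (pm N i) * ((gD V)ᵀ * cK ℂ G) * (cK ℂ (pm N j))ᵀ =
        (V i).Dᵀ * (cK ℂ (pm N i) * cK ℂ G * (cK ℂ (pm N j))ᵀ) := by
      rw [← Matrix.mul_assoc, h2]
      simp only [Matrix.mul_assoc]
    have h5 : cK ℂ (pm N i) * (cK ℂ G * gD V) * (cK ℂ (pm N j))ᵀ =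
        (cK ℂ (pm N i) * cK ℂ G * (cK ℂ (pm N j))ᵀ) * (V j).D := by
      rw [Matrix.mul_assoc, Matrix.mul_assoc, h3]
      simp only [Matrix.mul_assoc]
    rw [h4, h5] at h1
    rw [cK_mul, cK_mul, cK_transpose]
    exact h1
  -- the components
  have hcomp : pull (glue ℚ (fun i => (V i).Q⁻¹) * RR l N) b = ∑ i, ∑ j, pairClass l i j
      (((V i).Q⁻¹)ᵀ * (pm N i * G * (pm N j)ᵀ) * (V j).Q⁻¹) := by
    obtain ⟨g, hg⟩ : ∃ g, g = glue ℚ (fun i => (V i).Q⁻¹) := ⟨_, rfl⟩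
    rw [← hg, hbG, pull_bilc]
    have hgi : ∀ i, (V i).Q⁻¹ * pm N i = pm N i * g := by
      intro i
      have h1 := pm_glue (K := ℚ) (fun i => (V i).Q⁻¹) i
      rw [cK_rat, ← hg] at h1
      exact h1.symm
    funext I
    simp only [Finset.sum_apply]
    have h1 : ∀ i j, pairClass l i j (((V i).Q⁻¹)ᵀ * (pm N i * G * (pm N j)ᵀ) * (V j).Q⁻¹) I =
        bilc ((RR l N)ᵀ * (((pm N i)ᵀ * pm N i) * gᵀ * G * g * ((pm N j)ᵀ * pm N j)) * RR l N)
          I := by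
      intro i j
      rw [pairClass_eq]
      congr 1
      have e1 : (pm N i * RR l N)ᵀ * (((V i).Q⁻¹)ᵀ * (pm N i * G * (pm N j)ᵀ) * (V j).Q⁻¹) *
          (pm N j * RR l N) = (RR l N)ᵀ * ((pm N i)ᵀ * (((V i).Q⁻¹)ᵀ * pm N i) * G *
            ((pm N j)ᵀ * ((V j).Q⁻¹ * pm N j))) * RR l N := by
        rw [transpose_mul]
        simp only [Matrix.mul_assoc]
      have e2 : ((V i).Q⁻¹)ᵀ * pm N i = pm N i * gᵀ := by
        have h2 := pm_glue (K := ℚ) (fun i => ((V i).Q⁻¹)ᵀ) i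
        rw [cK_rat] at h2
        rw [← h2, hg, glue_transpose]
      have e3 : (pm N j)ᵀ * ((V j).Q⁻¹ * pm N j) = g * ((pm N j)ᵀ * pm N j) := by
        have h2 := pm_glue (K := ℚ) (fun i => ((V i).Q⁻¹)ᵀ) j
        rw [cK_rat] at h2
        have h3 := congrArg Matrix.transpose h2
        rw [transpose_mul, transpose_mul, transpose_transpose, glue_transpose] at h3
        simp only [transpose_transpose] at h3
        rw [← hg] at h3
        rw [← Matrix.mul_assoc, ← h3, Matrix.mul_assoc]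
      rw [e1, e2, e3]
      simp only [Matrix.mul_assoc]
    simp only [h1]
    have h3 : (glue ℚ (fun i => (V i).Q⁻¹) * RR l N)ᵀ * G * (glue ℚ (fun i => (V i).Q⁻¹) *
        RR l N) = ∑ i, ∑ j, (RR l N)ᵀ * (((pm N i)ᵀ * pm N i) * gᵀ * G * g *
          ((pm N j)ᵀ * pm N j)) * RR l N := by
      rw [← hg]
      have e4 : (g * RR l N)ᵀ * G * (g * RR l N) =
          (RR l N)ᵀ * (1 * gᵀ * G * g * 1) * RR l N := by
        rw [transpose_mul, Matrix.one_mul, Matrix.mul_one]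
        simp only [Matrix.mul_assoc]
      rw [e4, ← pm_tot (N := N)]
      simp only [Matrix.mul_sum, Matrix.sum_mul]
      rw [Finset.sum_comm]
    rw [← hg] at h3
    rw [h3]
    simp only [bilc, Matrix.sum_apply]
  rw [hcomp]
  refine Submodule.sum_mem _ fun i _ => Submodule.sum_mem _ fun j _ => ?_
  by_cases hij : i = j
  · subst hij
    have h1 : IsH (V i).D (bilc (pm N i * G * (pm N i)ᵀ)) := isH_bilc _ (hGij i i)
    obtain ⟨q, hq⟩ := scal_rat (Om := (V i).Q) (Omi := (V i).Q⁻¹)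
      (g := pm N i * G * (pm N i)ᵀ) (Matrix.nonsing_inv_mul _ (hu i))
      (by rw [(V i).sym, (hk i).neg_one_pow, neg_one_smul])
      (fun x y => lieM_bil _ h1 (((V i).full (hk i) (hs i) (hv i)).1 x y))
    have h2 : ((V i).Q⁻¹)ᵀ * (pm N i * G * (pm N i)ᵀ) * (V i).Q⁻¹ = (-q) • (V i).Q⁻¹ := by
      rw [hq, QT hk, Matrix.mul_smul, Matrix.smul_mul, Matrix.mul_assoc,
        Matrix.mul_nonsing_inv _ (hu i), Matrix.mul_one, smul_neg, neg_smul]
    have h3 : pairClass l i i ((-q) • (V i).Q⁻¹) = (-q) • pairClass l i i (V i).Q⁻¹ := by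
      rw [pairClass_eq, pairClass_eq, Matrix.mul_smul, Matrix.smul_mul]
      rfl
    rw [h2, h3]
    exact Submodule.smul_mem _ _ (hA.diag i)
  · refine hA.cross i j hij _ ?_
    have h1 := hGij i j
    obtain ⟨g, hg⟩ : ∃ g, g = cK ℂ (pm N i * G * (pm N j)ᵀ) := ⟨_, rfl⟩
    rw [← hg] at h1
    rw [cK_mul, cK_mul, ← hg]
    have e1 : (V i).D * cK ℂ ((V i).Q⁻¹)ᵀ = -(cK ℂ ((V i).Q⁻¹)ᵀ * (V i).Dᵀ) := by
      have h2 := (V i).spD
      have h3 : cK ℂ ((V i).Q⁻¹) * cK ℂ (V i).Q = 1 := by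
        rw [← cK_mul, Matrix.nonsing_inv_mul _ (hu i), cK_one]
      have h3' : cK ℂ (V i).Q * cK ℂ ((V i).Q⁻¹) = 1 := mul_eq_one_comm.1 h3
      have h4 : cK ℂ ((V i).Q⁻¹)ᵀ = -cK ℂ ((V i).Q⁻¹) := by
        rw [QT hk]
        ext a b
        simp [cK]
      rw [h4]
      have h5 : cK ℂ ((V i).Q⁻¹) * ((V i).Dᵀ * cK ℂ (V i).Q + cK ℂ (V i).Q * (V i).D) *
          cK ℂ ((V i).Q⁻¹) = 0 := by rw [h2, Matrix.mul_zero, Matrix.zero_mul]
      have h6 : cK ℂ ((V i).Q⁻¹) * ((V i).Dᵀ * cK ℂ (V i).Q + cK ℂ (V i).Q * (V i).D) *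
          cK ℂ ((V i).Q⁻¹) = cK ℂ ((V i).Q⁻¹) * (V i).Dᵀ * (cK ℂ (V i).Q * cK ℂ ((V i).Q⁻¹)) +
            (cK ℂ ((V i).Q⁻¹) * cK ℂ (V i).Q) * (V i).D * cK ℂ ((V i).Q⁻¹) := by
        noncomm_ring
      rw [h6, h3, h3', Matrix.mul_one, Matrix.one_mul] at h5
      have h7 := eq_neg_of_add_eq_zero_right h5
      rw [Matrix.mul_neg, Matrix.neg_mul, neg_neg, h7, neg_neg]
    have e2 : cK ℂ ((V j).Q⁻¹) * (V j).Dᵀ = -((V j).D * cK ℂ ((V j).Q⁻¹)) := by
      have h2 := (V j).spD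
      have h3 : cK ℂ ((V j).Q⁻¹) * cK ℂ (V j).Q = 1 := by
        rw [← cK_mul, Matrix.nonsing_inv_mul _ (hu j), cK_one]
      have h3' : cK ℂ (V j).Q * cK ℂ ((V j).Q⁻¹) = 1 := mul_eq_one_comm.1 h3
      have h5 : cK ℂ ((V j).Q⁻¹) * ((V j).Dᵀ * cK ℂ (V j).Q + cK ℂ (V j).Q * (V j).D) *
          cK ℂ ((V j).Q⁻¹) = 0 := by rw [h2, Matrix.mul_zero, Matrix.zero_mul]
      have h6 : cK ℂ ((V j).Q⁻¹) * ((V j).Dᵀ * cK ℂ (V j).Q + cK ℂ (V j).Q * (V j).D) *
          cK ℂ ((V j).Q⁻¹) = cK ℂ ((V j).Q⁻¹) * (V j).Dᵀ * (cK ℂ (V j).Q * cK ℂ ((V j).Q⁻¹)) +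
            (cK ℂ ((V j).Q⁻¹) * cK ℂ (V j).Q) * (V j).D * cK ℂ ((V j).Q⁻¹) := by
        noncomm_ring
      rw [h6, h3, h3', Matrix.mul_one, Matrix.one_mul] at h5
      exact eq_neg_of_add_eq_zero_left h5
    have e3 : (V i).D * (cK ℂ ((V i).Q⁻¹)ᵀ * g * cK ℂ ((V j).Q⁻¹)) +
        cK ℂ ((V i).Q⁻¹)ᵀ * g * cK ℂ ((V j).Q⁻¹) * (V j).Dᵀ =
        ((V i).D * cK ℂ ((V i).Q⁻¹)ᵀ) * g * cK ℂ ((V j).Q⁻¹) +
        cK ℂ ((V i).Q⁻¹)ᵀ * g * (cK ℂ ((V j).Q⁻¹) * (V j).Dᵀ) := by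
      simp only [Matrix.mul_assoc]
    rw [e3, e1, e2]
    have e4 : -(cK ℂ ((V i).Q⁻¹)ᵀ * (V i).Dᵀ) * g * cK ℂ ((V j).Q⁻¹) +
        cK ℂ ((V i).Q⁻¹)ᵀ * g * -((V j).D * cK ℂ ((V j).Q⁻¹)) =
        -(cK ℂ ((V i).Q⁻¹)ᵀ * ((V i).Dᵀ * g + g * (V j).D) * cK ℂ ((V j).Q⁻¹)) := by
      simp only [Matrix.mul_assoc, Matrix.mul_add, Matrix.add_mul, Matrix.mul_neg, Matrix.neg_mul,
        neg_add]
    rw [e4, h1, Matrix.mul_zero, Matrix.zero_mul, neg_zero]

end Pool.Agent.W437.CY
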