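import Mathlib
import Pool.Agent.W437.CY.Pair

/-!
# Hodge classes on the powers
-/

set_option linter.unusedSectionVars false

namespace Pool.Agent.W437.CY

open Matrix Pool.Agent.W437.HC Pool.Agent.W437.HD Pool.Agent.W437.HP Pool.Agent.W437.HR

variable {ι : Type} [Fintype ι] [DecidableEq ι] {k N : ι → ℕ} {l : ℕ}
  {V : ∀ i, PolHS (k i) (N i)} {A : ∀ κ : Type, Submodule ℚ ((κ → Bas l N) → ℚ)}

/-- The action on products of eigenvectors. -/
theorem act_prod {B : Type*} [Fintype B] [DecidableEq B] {κ : Type*} [Fintype κ] [DecidableEq κ]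
    {M : Matrix B B ℂ} {x : κ → B → ℂ} {a : κ → ℂ} (h : ∀ j, M *ᵥ x j = a j • x j) :
    act Mᵀ (fun I : κ → B => ∏ j, x j (I j)) = (∑ j, a j) • fun I => ∏ j, x j (I j) := by
  funext I
  simp only [act, Pi.smul_apply, smul_eq_mul, Finset.sum_mul]
  refine Finset.sum_congr rfl fun s _ => ?_
  have h1 : ∀ j, ∏ t, x t (Function.update I s j t) =
      x s j * ∏ t ∈ Finset.univ.erase s, x t (I t) := by
    intro j
    rw [← Finset.mul_prod_erase _ _ (Finset.mem_univ s), Function.update_self]
    congr 1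
    refine Finset.prod_congr rfl fun t ht => ?_
    rw [Function.update_of_ne (Finset.ne_of_mem_erase ht)]
  simp only [h1, Matrix.transpose_apply]
  have h2 := congrFun (h s) (I s)
  rw [mulVec, dotProduct, Pi.smul_apply, smul_eq_mul] at h2
  rw [← Finset.mul_prod_erase _ _ (Finset.mem_univ s), ← mul_assoc, ← h2, Finset.sum_mul]
  exact Finset.sum_congr rfl fun j _ => by ring

variable (hA : Sys0 V A) (hk : ∀ i, Odd (k i)) (hs : ∀ i, (V i).IsSimple)
  (hv : ∀ i, (V i).HalfIndep)

include hA hk hs hv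

/-- The tensors killed by the operator give classes of the system. -/
theorem tens_mem (κ : Type) [Fintype κ] [DecidableEq κ] (c : (κ → Σ i, Fin (N i)) → ℚ)
    (hc : act (gD V)ᵀ (cst ℂ c) = 0) : pull (RR l N) c ∈ A κ := by
  have hu : ∀ i, IsUnit (V i).Q.det := fun i =>
    (Matrix.isUnit_iff_isUnit_det _).1 (V i).unit
  obtain ⟨gQ, hgQ⟩ : ∃ gQ, gQ = glue ℚ (fun i => (V i).Q) := ⟨_, rfl⟩
  obtain ⟨gQi, hgQi⟩ : ∃ gQi, gQi = glue ℚ (fun i => (V i).Q⁻¹) := ⟨_, rfl⟩
  have hQ1 : gQ * gQi = 1 := by
    rw [hgQ, hgQi, glue_mul, ← glue_one]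
    congr 1
    funext i
    exact Matrix.mul_nonsing_inv _ (hu i)
  have hQD : cK ℂ gQ * gD V = -(gD V)ᵀ * cK ℂ gQ := by
    have h1 : (gD V)ᵀ * cK ℂ gQ + cK ℂ gQ * gD V = 0 := by
      rw [hgQ, glue_cK]
      unfold gD
      rw [glue_transpose, glue_mul, glue_mul, glue_add, ← glue_zero]
      congr 1
      funext i
      exact (V i).spD
    rw [neg_mul]
    exact eq_neg_of_add_eq_zero_right h1
  have hf : ∀ (κ : Type) [Fintype κ] [DecidableEq κ] (c : (κ → Σ i, Fin (N i)) → ℚ),
      act (gD V)ᵀ (cst ℂ c) = 0 → IsH (gD V) (pull gQ c) := by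
    intro κ _ _ c hc
    unfold IsH
    rw [cst_pull, act_pull hQD, act_neg_left, hc, neg_zero, pull_zero]
  have hback : ∀ (κ : Type) [Fintype κ] [DecidableEq κ] (c : (κ → Σ i, Fin (N i)) → ℚ),
      pull gQi (pull gQ c) = c := by
    intro κ _ _ c
    rw [pull_pull, hQ1, pull_one]
  rcases Nat.even_or_odd (Fintype.card κ) with hev | hodd
  · obtain ⟨m, hm⟩ := hev
    let e : Fin m × Fin 2 ≃ κ := Fintype.equivOfCardEq (by
      rw [Fintype.card_prod, Fintype.card_fin, Fintype.card_fin, hm]
      omega)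
    obtain ⟨c', hc'⟩ : ∃ c' : (Fin m × Fin 2 → Σ i, Fin (N i)) → ℚ,
        c' = fun J => c (fun s => J (e.symm s)) := ⟨_, rfl⟩
    have hcc : c = fun I => c' (fun s => I (e s)) := by
      funext I
      rw [hc']
      simp
    have h1 : act (gD V)ᵀ (cst ℂ c') = 0 := by
      have h2 := act_reindex e (gD V)ᵀ (cst ℂ c)
      rw [hc] at h2
      rw [hc']
      exact h2
    have h2 := mem_MS_glue V hk hs hv (pull gQ c') (hf _ c' h1)
    have h3 : pull (RR l N) c' ∈ A (Fin m × Fin 2) := by
      rw [← hback _ c', pull_pull]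
      unfold MS at h2
      generalize pull gQ c' = f at h2 ⊢
      induction h2 using Submodule.span_induction with
      | mem F hF =>
        obtain ⟨e', b, hb, rfl⟩ := hF
        have h4 := prod_mem hA (Fin 2) (Fin m) (fun s => pull (gQi * RR l N) (b s))
          (fun s => by
            rw [hgQi]
            exact pair_mem hA hk hs hv (b s) (hb s))
        have h5 := hA.perm _ _ e' _ h4
        convert h5 using 1
        funext I
        rw [pull_prod]
        refine Finset.prod_congr rfl fun s _ => ?_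
        congr 1
        funext ε
        fin_cases ε <;> rfl
      | zero =>
        rw [pull_zero]
        exact Submodule.zero_mem _
      | add F G _ _ h1 h2 =>
        rw [pull_add]
        exact Submodule.add_mem _ h1 h2
      | smul a F _ h1 =>
        rw [pull_smul]
        exact Submodule.smul_mem _ _ h1
    have h4 := hA.perm _ _ e _ h3
    convert h4 using 1
    funext I
    conv_lhs => rw [hcc]
    exact pull_reindex _ e c' I
  · obtain ⟨S, P, hP, ho⟩ := proj_glue V hk
    have h1 : IsH (gD V) (pull gQ c) := hf _ c hc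
    have h2 := odd_zero hP ho hodd h1
    have h3 : pull gQ c = 0 := cst_injective (K := ℂ) (by rw [h2, cst_zero])
    rw [← hback _ c, h3, pull_zero, pull_zero]
    exact Submodule.zero_mem _

end Pool.Agent.W437.CY
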