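import Mathlib
import Pool.Agent.W437.CY.Fin

/-!
# Rational Hodge structures of bounded level
-/

set_option linter.unusedSectionVars false

namespace Pool.Agent.W437.CY

open Matrix Pool.Agent.W437.HC Pool.Agent.W437.HD Pool.Agent.W437.HP Pool.Agent.W437.HR

variable {d l : ℕ} (M : LowHS d l)

/-- The decomposition. -/
@[reducible] noncomputable def LowHS.dcp : DirectSum.Decomposition M.H := M.dec.chooseDecomposition

/-- The projection to a summand. -/
noncomputable def LowHS.pl (p : Fin (2 * d + 1)) : (Fin l → ℂ) →ₗ[ℂ] (Fin l → ℂ) :=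
  letI := M.dcp
  (M.H p).subtype ∘ₗ (DirectSum.component ℂ (Fin (2 * d + 1)) (fun p => M.H p) p) ∘ₗ
    (DirectSum.decomposeLinearEquiv M.H).toLinearMap

theorem LowHS.pl_mem (p : Fin (2 * d + 1)) (x : Fin l → ℂ) : M.pl p x ∈ M.H p := by
  unfold LowHS.pl
  exact Submodule.coe_mem _

theorem LowHS.pl_same {p : Fin (2 * d + 1)} {x : Fin l → ℂ} (hx : x ∈ M.H p) : M.pl p x = x := by
  let _ := M.dcp
  exact DirectSum.decompose_of_mem_same M.H hx

theorem LowHS.pl_ne {p q : Fin (2 * d + 1)} {x : Fin l → ℂ} (hx : x ∈ M.H p) (hpq : p ≠ q) :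
    M.pl q x = 0 := by
  let _ := M.dcp
  exact DirectSum.decompose_of_mem_ne M.H hx hpq

theorem LowHS.pl_sum (x : Fin l → ℂ) : ∑ p, M.pl p x = x := by
  classical
  let _ := M.dcp
  conv_rhs => rw [← DirectSum.sum_support_decompose M.H x]
  symm
  refine Finset.sum_subset (Finset.subset_univ _) fun p _ hp => ?_
  rw [DFinsupp.notMem_support_iff] at hp
  change ((DirectSum.decompose M.H x) p : Fin l → ℂ) = 0
  rw [hp]
  rfl

/-- The matrix of the projection. -/
noncomputable def LowHS.pr (p : Fin (2 * d + 1)) : Matrix (Fin l) (Fin l) ℂ :=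
  LinearMap.toMatrix' (M.pl p)

theorem LowHS.pr_vec (p : Fin (2 * d + 1)) (x : Fin l → ℂ) : M.pr p *ᵥ x = M.pl p x := by
  unfold LowHS.pr
  rw [LinearMap.toMatrix'_mulVec]

/-- The operator which is `p - q` on `H^{p,q}`. -/
noncomputable def LowHS.D : Matrix (Fin l) (Fin l) ℂ :=
  ∑ p : Fin (2 * d + 1), (((p : ℤ) - d : ℤ) : ℂ) • M.pr p

/-- The projections indexed by the integers. -/
noncomputable def LowHS.P (a : ℤ) : Matrix (Fin l) (Fin l) ℂ :=
  ∑ p : Fin (2 * d + 1), if (p : ℤ) - d = a then M.pr p else 0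

theorem LowHS.D_vec {p : Fin (2 * d + 1)} {x : Fin l → ℂ} (hx : x ∈ M.H p) :
    M.D *ᵥ x = (((p : ℤ) - d : ℤ) : ℂ) • x := by
  unfold LowHS.D
  rw [Matrix.sum_mulVec, Finset.sum_eq_single p]
  · rw [smul_mulVec, M.pr_vec, M.pl_same hx]
  · intro q _ hq
    rw [smul_mulVec, M.pr_vec, M.pl_ne hx (Ne.symm hq), smul_zero]
  · intro h
    exact absurd (Finset.mem_univ _) h

theorem LowHS.P_vec {p : Fin (2 * d + 1)} {x : Fin l → ℂ} (hx : x ∈ M.H p) (a : ℤ) :
    M.P a *ᵥ x = if (p : ℤ) - d = a then x else 0 := by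
  unfold LowHS.P
  rw [Matrix.sum_mulVec, Finset.sum_eq_single p]
  · by_cases h : (p : ℤ) - d = a
    · rw [if_pos h, if_pos h, M.pr_vec, M.pl_same hx]
    · rw [if_neg h, if_neg h, zero_mulVec]
  · intro q _ hq
    by_cases h : (q : ℤ) - d = a
    · rw [if_pos h, M.pr_vec, M.pl_ne hx (Ne.symm hq)]
    · rw [if_neg h, zero_mulVec]
  · intro h
    exact absurd (Finset.mem_univ _) h

/-- Two matrices which agree on all the summands are equal. -/
theorem LowHS.ext_mat {X X' : Matrix (Fin l) (Fin l) ℂ}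
    (h : ∀ p, ∀ x ∈ M.H p, X *ᵥ x = X' *ᵥ x) : X = X' := by
  refine mat_ext fun x => ?_
  rw [← M.pl_sum x, mulVec_sum, mulVec_sum]
  exact Finset.sum_congr rfl fun p _ => h p _ (M.pl_mem p x)

theorem LowHS.proj {K : ℤ} (hK : (d : ℤ) ≤ K) : Proj M.D (Finset.Icc (-K) K) M.P := by
  refine ⟨?_, fun a => ?_, fun a => ?_⟩
  · refine M.ext_mat fun p x hx => ?_
    rw [Matrix.sum_mulVec, one_mulVec]
    simp only [M.P_vec hx]
    have hp := p.2
    rw [Finset.sum_ite_eq, if_pos]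
    rw [Finset.mem_Icc]
    constructor <;> omega
  · refine M.ext_mat fun p x hx => ?_
    rw [← mulVec_mulVec, M.P_vec hx, smul_mulVec, M.P_vec hx]
    by_cases h : (p : ℤ) - d = a
    · rw [if_pos h, M.D_vec hx, h]
    · rw [if_neg h, mulVec_zero, smul_zero]
  · refine M.ext_mat fun p x hx => ?_
    rw [← mulVec_mulVec, M.D_vec hx, mulVec_smul, M.P_vec hx, smul_mulVec, M.P_vec hx]
    by_cases h : (p : ℤ) - d = a
    · rw [if_pos h, h]
    · rw [if_neg h, smul_zero, smul_zero]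

theorem LowHS.P_zero {a : ℤ} (ha : ¬(-(d : ℤ) ≤ a ∧ a ≤ d)) : M.P a = 0 := by
  unfold LowHS.P
  refine Finset.sum_eq_zero fun p _ => ?_
  rw [if_neg]
  intro h
  apply ha
  have := p.2
  constructor <;> omega

/-- The image of the projection. -/
theorem LowHS.P_mem (a : ℤ) (x : Fin l → ℂ) :
    (∃ p : Fin (2 * d + 1), (p : ℤ) - d = a ∧ M.P a *ᵥ x ∈ M.H p) ∨ M.P a *ᵥ x = 0 := by
  by_cases h : ∃ p : Fin (2 * d + 1), (p : ℤ) - d = a
  · obtain ⟨p, hp⟩ := h
    left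
    refine ⟨p, hp, ?_⟩
    have h1 : M.P a = M.pr p := by
      unfold LowHS.P
      rw [Finset.sum_eq_single p]
      · rw [if_pos hp]
      · intro q _ hq
        rw [if_neg]
        intro h
        apply hq
        apply Fin.ext
        omega
      · intro h
        exact absurd (Finset.mem_univ _) h
    rw [h1, M.pr_vec]
    exact M.pl_mem p x
  · right
    have h1 : M.P a = 0 := by
      unfold LowHS.P
      refine Finset.sum_eq_zero fun p _ => ?_
      rw [if_neg fun hp => h ⟨p, hp⟩]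
    rw [h1, zero_mulVec]

theorem PolHS.P_mem {k N : ℕ} (V : PolHS k N) (a : ℤ) (x : Fin N → ℂ) :
    (∃ p : Fin (k + 1), 2 * (p : ℤ) - k = a ∧ V.P a *ᵥ x ∈ V.H p) ∨ V.P a *ᵥ x = 0 := by
  by_cases h : ∃ p : Fin (k + 1), 2 * (p : ℤ) - k = a
  · obtain ⟨p, hp⟩ := h
    left
    refine ⟨p, hp, ?_⟩
    have h1 : V.P a = V.pr p := by
      unfold PolHS.P
      rw [Finset.sum_eq_single p]
      · rw [if_pos hp]
      · intro q _ hq
        rw [if_neg]
        intro h
        apply hq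
        apply Fin.ext
        omega
      · intro h
        exact absurd (Finset.mem_univ _) h
    rw [h1, V.pr_vec]
    exact V.pl_mem p x
  · right
    have h1 : V.P a = 0 := by
      unfold PolHS.P
      refine Finset.sum_eq_zero fun p _ => ?_
      rw [if_neg fun hp => h ⟨p, hp⟩]
    rw [h1, zero_mulVec]

theorem LowHS.spD : M.Dᵀ * cK ℂ M.S + cK ℂ M.S * M.D = 0 := by
  refine mat_ext' fun x y => ?_
  have h1 : x ⬝ᵥ ((M.Dᵀ * cK ℂ M.S + cK ℂ M.S * M.D) *ᵥ y) =
      ww (cK ℂ M.S) (M.D *ᵥ x) y + ww (cK ℂ M.S) x (M.D *ᵥ y) := by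
    unfold ww
    rw [add_mulVec, dotProduct_add, ← mulVec_mulVec, ← mulVec_mulVec, dotProduct_mulVec x,
      vecMul_transpose]
  rw [h1, zero_mulVec, dotProduct_zero]
  have h2 : ∀ p q, ww (cK ℂ M.S) (M.D *ᵥ M.pl p x) (M.pl q y) +
      ww (cK ℂ M.S) (M.pl p x) (M.D *ᵥ M.pl q y) = 0 := by
    intro p q
    rw [M.D_vec (M.pl_mem p x), M.D_vec (M.pl_mem q y), ww_smul_left, ww_smul_right, ← add_mul]
    by_cases hpq : (p : ℕ) + q = 2 * d
    · have h3 : ((((p : ℤ) - d : ℤ) : ℂ) + (((q : ℤ) - d : ℤ) : ℂ)) = 0 := by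
        rw [← Int.cast_add, show ((p : ℤ) - d) + ((q : ℤ) - d) = 0 by omega, Int.cast_zero]
      rw [h3, zero_mul]
    · rw [ww_eq, M.orth p q hpq _ (M.pl_mem p x) _ (M.pl_mem q y), mul_zero]
  have h3 : ww (cK ℂ M.S) (M.D *ᵥ x) y + ww (cK ℂ M.S) x (M.D *ᵥ y) =
      ∑ p, ∑ q, (ww (cK ℂ M.S) (M.D *ᵥ M.pl p x) (M.pl q y) +
      ww (cK ℂ M.S) (M.pl p x) (M.D *ᵥ M.pl q y)) := by
    conv_lhs => rw [← M.pl_sum x, ← M.pl_sum y]
    simp only [Finset.sum_add_distrib, mulVec_sum]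
    congr 1
    · rw [← wwL_apply, LinearMap.map_sum₂]
      refine Finset.sum_congr rfl fun p _ => ?_
      rw [map_sum]
      rfl
    · rw [← wwL_apply, LinearMap.map_sum₂]
      refine Finset.sum_congr rfl fun p _ => ?_
      rw [map_sum]
      rfl
  rw [h3]
  exact Finset.sum_eq_zero fun p _ => Finset.sum_eq_zero fun q _ => h2 p q

end Pool.Agent.W437.CY
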