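import Mathlib
import Pool.Agent.W437.CY.Low

/-!
# The Lie algebra of the sum with a Hodge structure of small level
-/

set_option linter.unusedSectionVars false

namespace Pool.Agent.W437.CY

open Matrix ComplexOrder Pool.Agent.W437.HC Pool.Agent.W437.HD Pool.Agent.W437.HP
  Pool.Agent.W437.HR

section general

variable {B : Type} [Fintype B] [DecidableEq B] {D : Matrix B B ℂ} {ι : Type}
    [Fintype ι] [DecidableEq ι] {R : ι → Type} [∀ i, Fintype (R i)] [∀ i, DecidableEq (R i)]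
    {D' : ∀ i, Matrix (R i) (R i) ℂ} {Om' : ∀ i, Matrix (R i) (R i) ℚ}
    (b : Blocks B D R D' Om') {S : Finset ℤ} {P' : ∀ i, ℤ → Matrix (R i) (R i) ℂ}

/-- The trace form on the image of the Lie algebra is nondegenerate. -/
theorem nondeg2 (hp : ∀ i, Proj (D' i) S (P' i)) (i : ι) (hpi : Pol (D' i) (Om' i) S (P' i)) :
    ∀ X ∈ (lieM D ℚ).map (b.bl ℚ i),
      (∀ Y ∈ (lieM D ℚ).map (b.bl ℚ i), trace (X * Y) = 0) → X = 0 := by
  rintro X ⟨X0, hX0, rfl⟩ h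
  have hX1 := b.bl_mem hX0 i
  have hsp : (b.bl ℚ i X0)ᵀ * Om' i + Om' i * b.bl ℚ i X0 = 0 := by
    have h1 := lieM_bil _ (isH_bilc _ (b.sp i)) hX1
    change (b.bl ℚ i X0)ᵀ * cK ℚ (Om' i) + cK ℚ (Om' i) * b.bl ℚ i X0 = 0 at h1
    rwa [cK_rat] at h1
  refine hpi.aniso hsp ?_
  have hproj := gP_proj b hp
  have hY := hproj.fun_mem (fun c => Complex.I ^ (-c)) (cast_mem (K := ℂ) D hX0)
  have h1 : ∑ a ∈ S, ∑ c ∈ S, (Complex.I ^ (-(a - c))) •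
      (P' i a * cK ℂ (b.bl ℚ i X0) * P' i c) =
      b.bl ℂ i (∑ a ∈ S, ∑ c ∈ S, (Complex.I ^ (-(a - c))) •
        (gP b P' a * X0.map (fun x : ℚ => (x : ℂ)) * gP b P' c)) := by
    rw [map_sum]
    refine Finset.sum_congr rfl fun a _ => ?_
    rw [map_sum]
    refine Finset.sum_congr rfl fun c _ => ?_
    rw [map_smul, bl_gP]
    congr 3
    exact (b.bl_cast (K := ℂ) X0 i).symm
  rw [h1]
  generalize ∑ a ∈ S, ∑ c ∈ S, (Complex.I ^ (-(a - c))) •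
    (gP b P' a * X0.map (fun x : ℚ => (x : ℂ)) * gP b P' c) = Y at hY
  have h2 := mem_span_rat hY
  clear hY h1
  induction h2 using Submodule.span_induction with
  | mem Y hY =>
    obtain ⟨Y0, hY0, rfl⟩ := hY
    rw [b.bl_cast, ← cK_mul]
    have h3 := h (b.bl ℚ i Y0) ⟨Y0, hY0, rfl⟩
    have h4 : trace (cK ℂ (b.bl ℚ i X0 * b.bl ℚ i Y0)) =
        ((trace (b.bl ℚ i X0 * b.bl ℚ i Y0) : ℚ) : ℂ) := by
      simp [trace, cK]
    rw [h4, h3, Rat.cast_zero]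
  | zero => rw [map_zero, Matrix.mul_zero, trace_zero]
  | add x y _ _ h1 h2 => rw [map_add, Matrix.mul_add, trace_add, h1, h2, add_zero]
  | smul a x _ h1 => rw [map_smul, Matrix.mul_smul, trace_smul, h1, smul_zero]

/-- The action on a block. -/
noncomputable def rb (D : Matrix B B ℂ) : lieM D ℂ →ₗ[ℂ] Module.End ℂ (B → ℂ) where
  toFun X := Matrix.mulVecLin X.1
  map_add' _ _ := LinearMap.ext fun _ => add_mulVec _ _ _
  map_smul' _ _ := LinearMap.ext fun _ => smul_mulVec _ _ _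

theorem rb_brL (X Y : lieM D ℂ) : rb D (brL D X Y) = rb D X * rb D Y - rb D Y * rb D X := by
  refine LinearMap.ext fun x => ?_
  change (X.1 * Y.1 - Y.1 * X.1) *ᵥ x = X.1 *ᵥ (Y.1 *ᵥ x) - Y.1 *ᵥ (X.1 *ᵥ x)
  rw [sub_mulVec, mulVec_mulVec, mulVec_mulVec]

theorem EE_eq (Om : Matrix B B ℂ) (x y : B → ℂ) :
    EE (wwL Om) x y = Matrix.mulVecLin (SS Om x y) := by
  refine LinearMap.ext fun u => ?_
  rw [EE_apply, mulVecLin_apply, SS_vec, wwL_apply, wwL_apply]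

theorem isSp_mulVecLin {Om X : Matrix B B ℂ} (hX : Xᵀ * Om + Om * X = 0) :
    IsSp (wwL Om) (Matrix.mulVecLin X) := by
  intro x y
  rw [wwL_apply, wwL_apply, mulVecLin_apply, mulVecLin_apply]
  exact ww_sp hX x y

theorem mulVecLin_inj {X Y : Matrix B B ℂ} (h : Matrix.mulVecLin X = Matrix.mulVecLin Y) :
    X = Y := mat_ext fun x => LinearMap.congr_fun h x

theorem wwL_nondeg {Om : Matrix B B ℂ} (hOm : Omᵀ = -Om) (hu : IsUnit Om) (x : B → ℂ)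
    (hx : ∀ y, wwL Om x y = 0) : x = 0 := by
  have h2 : Om *ᵥ x = 0 := by
    funext i
    have h3 := hx (Pi.single i 1)
    rw [wwL_apply, ww_anti hOm, neg_eq_zero] at h3
    unfold ww at h3
    rwa [single_one_dotProduct] at h3
  obtain ⟨u, hu⟩ := hu
  have h3 : ((u⁻¹ : (Matrix B B ℂ)ˣ) : Matrix B B ℂ) *ᵥ (Om *ᵥ x) = x := by
    rw [← hu, mulVec_mulVec, Units.inv_mul, one_mulVec]
  rw [← h3, h2, mulVec_zero]

/-- The Lie algebra maps onto the full symplectic Lie algebra of a block. -/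
theorem full_block (i : ι) (hnd : ∀ X ∈ (lieM D ℚ).map (b.bl ℚ i),
      (∀ Y ∈ (lieM D ℚ).map (b.bl ℚ i), trace (X * Y) = 0) → X = 0)
    (hOm : (cK ℂ (Om' i))ᵀ = -cK ℂ (Om' i)) (hu : IsUnit (cK ℂ (Om' i)))
    (hfull : ∀ x y, SS (cK ℂ (Om' i)) x y ∈ lieM (D' i) ℂ) (hD0 : D' i ≠ 0)
    (x y : R i → ℂ) : ∃ X ∈ lieM D ℂ, b.bl ℂ i X = SS (cK ℂ (Om' i)) x y := by
  have hsp : ∀ X ∈ lieM (D' i) ℂ, Xᵀ * cK ℂ (Om' i) + cK ℂ (Om' i) * X = 0 :=
    fun X hX => lieM_bil _ (isH_bilc _ (b.sp i)) hX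
  have h := ideal_full (w := wwL (cK ℂ (Om' i))) (ρ := rb (D' i)) (br := brL (D' i))
    (fun x => ww_self hOm _) (fun x hx => wwL_nondeg hOm hu x hx) rb_brL
    (fun X => isSp_mulVecLin (hsp X.1 X.2)) (fun x y => ⟨⟨_, hfull x y⟩, (EE_eq _ x y).symm⟩)
    (LinearMap.range ((rb (D' i)) ∘ₗ b.blL i)) ?_ (A := rb (D' i) (b.blL i ⟨D, D_mem D⟩))
    ⟨_, rfl⟩ (isSp_mulVecLin (hsp _ (b.blL i ⟨D, D_mem D⟩).2)) ?_ x y
  · obtain ⟨X, hX⟩ := h
    refine ⟨X.1, X.2, ?_⟩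
    rw [EE_eq] at hX
    exact mulVecLin_inj hX
  · rintro X _ ⟨Y, rfl⟩
    obtain ⟨W, hW, hW'⟩ := b.ideal_C i hnd X.2 (X := b.bl ℂ i Y.1) ⟨Y.1, Y.2, rfl⟩
    refine ⟨⟨W, hW⟩, ?_⟩
    rw [LinearMap.comp_apply, LinearMap.comp_apply, ← rb_brL]
    congr 1
    exact Subtype.ext hW'
  · intro h0
    apply hD0
    have h2 : (b.blL i ⟨D, D_mem D⟩).1 = D' i := b.bl_D i
    have h3 : Matrix.mulVecLin (b.blL i ⟨D, D_mem D⟩).1 = Matrix.mulVecLin 0 := by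
      rw [Matrix.mulVecLin_zero]
      exact h0
    rw [← h2]
    exact mulVecLin_inj h3

/-- The kernel of the map to another block maps onto the full symplectic Lie algebra. -/
theorem full_ker (i j : ι) (hOm : (cK ℂ (Om' i))ᵀ = -cK ℂ (Om' i)) (hu : IsUnit (cK ℂ (Om' i)))
    (hsurj : ∀ x y, ∃ X ∈ lieM D ℂ, b.bl ℂ i X = SS (cK ℂ (Om' i)) x y)
    {X0 : Matrix B B ℂ} (hX0 : X0 ∈ lieM D ℂ) (hj : b.bl ℂ j X0 = 0) (hi : b.bl ℂ i X0 ≠ 0)
    (x y : R i → ℂ) :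
    ∃ X ∈ lieM D ℂ, b.bl ℂ j X = 0 ∧ b.bl ℂ i X = SS (cK ℂ (Om' i)) x y := by
  have hsp : ∀ X ∈ lieM (D' i) ℂ, Xᵀ * cK ℂ (Om' i) + cK ℂ (Om' i) * X = 0 :=
    fun X hX => lieM_bil _ (isH_bilc _ (b.sp i)) hX
  have h := ideal_full (w := wwL (cK ℂ (Om' i))) (ρ := (rb (D' i)) ∘ₗ b.blL i) (br := brL D)
    (fun x => ww_self hOm _) (fun x hx => wwL_nondeg hOm hu x hx)
    (fun X Y => by
      rw [LinearMap.comp_apply, b.blL_brL, rb_brL]
      rfl)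
    (fun X => isSp_mulVecLin (hsp _ (b.blL i X).2))
    (fun x y => by
      obtain ⟨X, hX, hXx⟩ := hsurj x y
      refine ⟨⟨X, hX⟩, ?_⟩
      rw [EE_eq, ← hXx]
      rfl)
    ((LinearMap.ker (b.blL j)).map ((rb (D' i)) ∘ₗ b.blL i)) ?_
    (A := rb (D' i) (b.blL i ⟨X0, hX0⟩)) ⟨⟨X0, hX0⟩, ?_, rfl⟩
    (isSp_mulVecLin (hsp _ (b.blL i ⟨X0, hX0⟩).2)) ?_ x y
  · obtain ⟨X, hX, hXx⟩ := h
    refine ⟨X.1, X.2, ?_, ?_⟩
    · exact congrArg Subtype.val (LinearMap.mem_ker.1 hX)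
    · rw [EE_eq] at hXx
      exact mulVecLin_inj hXx
  · rintro X _ ⟨Y, hY, rfl⟩
    refine ⟨brL D X Y, ?_, ?_⟩
    · rw [SetLike.mem_coe, LinearMap.mem_ker, b.blL_brL, LinearMap.mem_ker.1 hY]
      apply Subtype.ext
      change (b.blL j X).1 * 0 - 0 * (b.blL j X).1 = 0
      rw [Matrix.mul_zero, Matrix.zero_mul, sub_zero]
    · rw [LinearMap.comp_apply, b.blL_brL, rb_brL]
      rfl
  · exact Subtype.ext hj
  · intro h0
    apply hi
    have h3 : Matrix.mulVecLin (b.bl ℂ i X0) = Matrix.mulVecLin 0 := by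
      rw [Matrix.mulVecLin_zero]
      exact h0
    exact mulVecLin_inj h3

/-- A matrix which commutes with the symplectic Lie algebra and belongs to it is zero. -/
theorem comm_zero {Om T : Matrix B B ℂ} (hOm : Omᵀ = -Om) (hu : IsUnit Om)
    (hT : Tᵀ * Om + Om * T = 0) (hc : ∀ x, T * SS Om x x = SS Om x x * T) : T = 0 := by
  refine mat_ext fun x => ?_
  rw [zero_mulVec]
  by_cases hx : x = 0
  · rw [hx, mulVec_zero]
  · obtain ⟨z, hz⟩ : ∃ z, ww Om x z ≠ 0 := by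
      by_contra h
      push Not at h
      exact hx (wwL_nondeg hOm hu x h)
    have h1 := congrArg (fun M => M *ᵥ z) (hc x)
    simp only [← mulVec_mulVec, SS_vec] at h1
    have h2 := ww_sp hT x z
    rw [mulVec_add, mulVec_smul] at h1
    -- `2 w(x,z) T x = 2 w(x,Tz) x`
    have h3 : ww Om x z • (T *ᵥ x) = ww Om x (T *ᵥ z) • x := by
      have h4 : (2 : ℂ) • (ww Om x z • (T *ᵥ x)) = (2 : ℂ) • (ww Om x (T *ᵥ z) • x) := by
        rw [two_smul, two_smul]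
        exact h1
      exact smul_right_injective _ two_ne_zero h4
    obtain ⟨c, hc⟩ : ∃ c, c = (ww Om x z)⁻¹ * ww Om x (T *ᵥ z) := ⟨_, rfl⟩
    have h4 : T *ᵥ x = c • x := by
      rw [hc, ← smul_smul, ← h3, smul_smul, inv_mul_cancel₀ hz, one_smul]
    have h5 : ww Om x (T *ᵥ z) = c * ww Om x z := by
      rw [hc]
      field_simp
    rw [h4, ww_smul_left, h5] at h2
    have h6 : (2 * ww Om x z) * c = 0 := by linear_combination h2
    have h7 : c = 0 := (mul_eq_zero.1 h6).resolve_left (mul_ne_zero two_ne_zero hz)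
    rw [h4, h7, zero_smul]

end general

end Pool.Agent.W437.CY
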