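import Mathlib
import Pool.Agent.W437.CY.RelA

/-!
# The operator of the direct sum alone belongs to the Lie algebra
-/

set_option linter.unusedSectionVars false

namespace Pool.Agent.W437.CY

open Matrix ComplexOrder Pool.Agent.W437.HC Pool.Agent.W437.HD Pool.Agent.W437.HP
  Pool.Agent.W437.HR

section mats

variable {ι : Type} [Fintype ι] [DecidableEq ι] (l : ℕ) (N : ι → ℕ)

/-- The projection to the first part. -/
def PL : Matrix (Fin l) (Bas l N) ℚ := Matrix.fromCols 1 0

theorem RR_eq : RR l N = Matrix.fromCols 0 1 := by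
  ext b z
  rcases z with t | z
  · change (if (Sum.inl t : Bas l N) = Sum.inr b then (1 : ℚ) else 0) = 0
    exact if_neg Sum.inl_ne_inr
  · change (if (Sum.inr z : Bas l N) = Sum.inr b then (1 : ℚ) else 0) = (1 : Matrix _ _ ℚ) b z
    rw [Matrix.one_apply]
    by_cases h : b = z
    · rw [if_pos h, if_pos (by rw [h])]
    · rw [if_neg h, if_neg (fun h2 => h (Sum.inr.inj h2).symm)]

theorem RR_same : RR l N * (RR l N)ᵀ = 1 := by
  rw [RR_eq, transpose_fromCols, fromCols_mul_fromRows]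
  simp

theorem PL_same : PL l N * (PL l N)ᵀ = 1 := by
  rw [PL, transpose_fromCols, fromCols_mul_fromRows]
  simp

theorem PL_RR : PL l N * (RR l N)ᵀ = 0 := by
  rw [RR_eq, PL, transpose_fromCols, fromCols_mul_fromRows]
  simp

theorem RR_PL : RR l N * (PL l N)ᵀ = 0 := by
  rw [RR_eq, PL, transpose_fromCols, fromCols_mul_fromRows]
  simp

theorem PR_tot : (PL l N)ᵀ * PL l N + (RR l N)ᵀ * RR l N = 1 := by
  rw [RR_eq, PL, transpose_fromCols, transpose_fromCols, fromRows_mul_fromCols,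
    fromRows_mul_fromCols, fromBlocks_add]
  simp

theorem cK_PL (K : Type*) [Field K] [CharZero K] : cK K (PL l N) = Matrix.fromCols 1 0 := by
  ext b z
  rcases z with t | z
  · change (((1 : Matrix (Fin l) (Fin l) ℚ) b t : ℚ) : K) = (1 : Matrix _ _ K) b t
    rw [Matrix.one_apply, Matrix.one_apply]
    split_ifs <;> simp
  · change (((0 : ℚ)) : K) = 0
    simp

theorem cK_RR (K : Type*) [Field K] [CharZero K] : cK K (RR l N) = Matrix.fromCols 0 1 := by
  rw [RR_eq]
  ext b z
  rcases z with t | z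
  · change (((0 : ℚ)) : K) = 0
    simp
  · change (((1 : Matrix _ _ ℚ) b z : ℚ) : K) = (1 : Matrix _ _ K) b z
    rw [Matrix.one_apply, Matrix.one_apply]
    split_ifs <;> simp

end mats

variable {ι : Type} [Fintype ι] [DecidableEq ι] {k N : ι → ℕ} {l d : ℕ}

/-- The operator on the whole space. -/
noncomputable def DM (M : LowHS d l) (V : ∀ i, PolHS (k i) (N i)) :
    Matrix (Bas l N) (Bas l N) ℂ := Matrix.fromBlocks M.D 0 0 (gD V)

theorem PL_DM (M : LowHS d l) (V : ∀ i, PolHS (k i) (N i)) :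
    cK ℂ (PL l N) * DM M V = M.D * cK ℂ (PL l N) := by
  rw [cK_PL, DM, fromCols_mul_fromBlocks, mul_fromCols]
  simp

theorem RR_DM (M : LowHS d l) (V : ∀ i, PolHS (k i) (N i)) :
    cK ℂ (RR l N) * DM M V = gD V * cK ℂ (RR l N) := by
  rw [cK_RR, DM, fromCols_mul_fromBlocks, mul_fromCols]
  simp

/-- The dimensions of the blocks. -/
def nO (l : ℕ) (N : ι → ℕ) : Option ι → ℕ := fun o => o.elim l N

/-- The projections to the blocks. -/
def PO (l : ℕ) (N : ι → ℕ) : ∀ o : Option ι, Matrix (Fin (nO l N o)) (Bas l N) ℚ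
  | none => PL l N
  | some i => pm N i * RR l N

/-- The operators of the blocks. -/
noncomputable def DO (M : LowHS d l) (V : ∀ i, PolHS (k i) (N i)) :
    ∀ o : Option ι, Matrix (Fin (nO l N o)) (Fin (nO l N o)) ℂ
  | none => M.D
  | some i => (V i).D

/-- The forms of the blocks. -/
def SO (M : LowHS d l) (V : ∀ i, PolHS (k i) (N i)) :
    ∀ o : Option ι, Matrix (Fin (nO l N o)) (Fin (nO l N o)) ℚ
  | none => M.S
  | some i => (V i).Q

/-- The projections to the eigenspaces of the blocks. -/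
noncomputable def EO (M : LowHS d l) (V : ∀ i, PolHS (k i) (N i)) :
    ∀ o : Option ι, ℤ → Matrix (Fin (nO l N o)) (Fin (nO l N o)) ℂ
  | none => M.P
  | some i => (V i).P

/-- The whole space as a system of blocks. -/
noncomputable def blO (M : LowHS d l) (V : ∀ i, PolHS (k i) (N i)) :
    Blocks (Bas l N) (DM M V) (fun o => Fin (nO l N o)) (DO M V) (SO M V) where
  P := PO l N
  same := by
    rintro (_ | i)
    · exact PL_same l N
    · change pm N i * RR l N * (pm N i * RR l N)ᵀ = 1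
      rw [transpose_mul, Matrix.mul_assoc, ← Matrix.mul_assoc (RR l N), RR_same, Matrix.one_mul,
        pm_same]
  off := by
    rintro (_ | i) (_ | j) h
    · exact absurd rfl h
    · change PL l N * (pm N j * RR l N)ᵀ = 0
      rw [transpose_mul, ← Matrix.mul_assoc, PL_RR, Matrix.zero_mul]
    · change pm N i * RR l N * (PL l N)ᵀ = 0
      rw [Matrix.mul_assoc, RR_PL, Matrix.mul_zero]
    · change pm N i * RR l N * (pm N j * RR l N)ᵀ = 0
      rw [transpose_mul, Matrix.mul_assoc, ← Matrix.mul_assoc (RR l N), RR_same, Matrix.one_mul,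
        pm_off (fun h2 => h (by rw [h2]))]
  tot := by
    rw [Fintype.sum_option]
    have h1 : ∑ i : ι, (PO l N (some i))ᵀ * PO l N (some i) = (RR l N)ᵀ * RR l N := by
      have h2 : ∀ i : ι, (PO l N (some i))ᵀ * PO l N (some i) =
          (RR l N)ᵀ * ((pm N i)ᵀ * pm N i) * RR l N := by
        intro i
        change (pm N i * RR l N)ᵀ * (pm N i * RR l N) = _
        rw [transpose_mul]
        simp only [Matrix.mul_assoc]
      rw [Finset.sum_congr rfl (fun i _ => h2 i), ← Matrix.sum_mul, ← Matrix.mul_sum, pm_tot,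
        Matrix.mul_one]
    rw [h1]
    exact PR_tot l N
  com := by
    rintro (_ | i)
    · exact PL_DM M V
    · change cK ℂ (pm N i * RR l N) * DM M V = (V i).D * cK ℂ (pm N i * RR l N)
      rw [cK_mul, Matrix.mul_assoc, RR_DM, ← Matrix.mul_assoc]
      unfold gD
      rw [pm_glue, Matrix.mul_assoc]
  unit := by
    rintro (_ | i)
    · exact M.unit
    · exact (V i).unit
  sp := by
    rintro (_ | i)
    · exact M.spD
    · exact (V i).spD

/-- An element of a given weight. -/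
theorem fun_weight {B : Type*} [Fintype B] [DecidableEq B] {D : Matrix B B ℂ} {S : Finset ℤ}
    {P : ℤ → Matrix B B ℂ} (h : Proj D S P) {w : ℤ} {Z : Matrix B B ℂ}
    (hZ : D * Z - Z * D = (w : ℂ) • Z) (φ : ℤ → ℂ) :
    ∑ a ∈ S, ∑ b ∈ S, φ (a - b) • (P a * Z * P b) = φ w • Z := by
  have h1 : ∀ a b, a - b ≠ w → P a * Z * P b = 0 := by
    intro a b hab
    have h2 : P a * (D * Z - Z * D) * P b = ((a - b : ℤ) : ℂ) • (P a * Z * P b) := by
      have h3 : P a * (D * Z - Z * D) * P b = (P a * D) * Z * P b - P a * Z * (D * P b) := by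
        noncomm_ring
      rw [h3, h.left, h.right, smul_mul_assoc, smul_mul_assoc, mul_smul_comm, ← sub_smul]
      push_cast
      rfl
    rw [hZ, mul_smul_comm, smul_mul_assoc] at h2
    have h3 : ((w : ℂ) - ((a - b : ℤ) : ℂ)) • (P a * Z * P b) = 0 := by
      rw [sub_smul, h2, sub_self]
    refine (smul_eq_zero.1 h3).resolve_left (sub_ne_zero.2 ?_)
    intro h4
    exact hab (by exact_mod_cast h4.symm)
  have h2 : ∑ a ∈ S, ∑ b ∈ S, φ (a - b) • (P a * Z * P b) =
      ∑ a ∈ S, ∑ b ∈ S, φ w • (P a * Z * P b) := by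
    refine Finset.sum_congr rfl fun a _ => Finset.sum_congr rfl fun b _ => ?_
    by_cases hab : a - b = w
    · rw [hab]
    · rw [h1 a b hab, smul_zero, smul_zero]
  rw [h2]
  have h3 : ∑ a ∈ S, ∑ b ∈ S, (P a * Z * P b) = Z := by
    rw [← Finset.sum_mul_sum, ← Finset.sum_mul, h.tot, one_mul, mul_one]
  conv_rhs => rw [← h3]
  rw [Finset.smul_sum]
  refine Finset.sum_congr rfl fun a _ => ?_
  rw [Finset.smul_sum]

variable (M : LowHS d l) (V : ∀ i, PolHS (k i) (N i)) (hk : ∀ i, Odd (k i))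
  (hd : ∀ i, d < k i) (hs : ∀ i, (V i).IsSimple) (hv : ∀ i, (V i).HalfIndep)

include hk hd hs hv

/-- The elements of the Lie algebra which vanish on the first part induce the full symplectic Lie
algebra of each factor. -/
theorem exists_ker (i : ι) (x y : Fin (N i) → ℂ) :
    ∃ X ∈ lieM (DM M V) ℂ, (blO M V).bl ℂ none X = 0 ∧
      (blO M V).bl ℂ (some i) X = SS (cK ℂ (V i).Q) x y := by
  have hK : ∀ i, (k i : ℤ) ≤ ∑ j, (k j : ℤ) := fun i =>
    Finset.single_le_sum (f := fun j => (k j : ℤ)) (fun j _ => by positivity) (Finset.mem_univ i)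
  have hdK : (d : ℤ) ≤ ∑ j, (k j : ℤ) := by
    have h1 := hK i
    have h2 := hd i
    omega
  have hproj : ∀ o : Option ι, Proj (DO M V o) (Finset.Icc (-∑ j, (k j : ℤ)) (∑ j, (k j : ℤ)))
      (EO M V o) := by
    rintro (_ | j)
    · exact M.proj hdK
    · exact (V j).proj (hK j)
  have hpol : Pol (DO M V (some i)) (SO M V (some i))
      (Finset.Icc (-∑ j, (k j : ℤ)) (∑ j, (k j : ℤ))) (EO M V (some i)) := (V i).pol (hk i) (hK i)
  have hskew := hpol.skewC
  have hu0 : IsUnit (cK ℂ (V i).Q) := by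
    obtain ⟨u, hu⟩ := (V i).unit
    refine ⟨⟨cK ℂ (V i).Q, cK ℂ ((u⁻¹ : (Matrix _ _ ℚ)ˣ) : Matrix _ _ ℚ), ?_, ?_⟩, rfl⟩
    · rw [← cK_mul, ← hu, Units.mul_inv, cK_one]
    · rw [← cK_mul, ← hu, Units.inv_mul, cK_one]
  have hu : IsUnit (cK ℂ (SO M V (some i))) := hu0
  have hfull := ((V i).full (hk i) (hs i) (hv i)).1
  obtain ⟨v, hv1, b, hb, s, hcard, hsi⟩ := hv i
  have hv0 : v ≠ 0 := by
    rintro rfl
    exact zero_ne_one hb
  have hvm : v ∈ (V i).H (Fin.last (k i)) := by
    rw [hv1]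
    exact Submodule.mem_span_singleton_self v
  have hlast : (2 * ((Fin.last (k i) : Fin (k i + 1)) : ℕ) : ℤ) - k i = k i := by
    rw [Fin.val_last]
    ring
  have hvD : (V i).D *ᵥ v = ((k i : ℤ) : ℂ) • v := by
    have h1 := (V i).D_vec hvm
    rwa [hlast] at h1
  have hk0 : (0 : ℤ) < k i := by
    have := (hk i).pos
    omega
  have hD0 : DO M V (some i) ≠ 0 := by
    intro h0
    have h1 : (V i).D = 0 := h0
    rw [h1, zero_mulVec] at hvD
    have h2 : ((k i : ℤ) : ℂ) • v ≠ 0 := smul_ne_zero (by exact_mod_cast hk0.ne') hv0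
    exact h2 hvD.symm
  have hsurj := full_block (blO M V) (some i) (nondeg2 (blO M V) hproj (some i) hpol) hskew hu
    hfull hD0
  obtain ⟨X, hX, hXv⟩ := hsurj v v
  have hgp := gP_proj (blO M V) hproj
  have hX1 := hgp.fun_mem (fun c => if c = 2 * (k i : ℤ) then 1 else 0) hX
  have hbl : ∀ o, (blO M V).bl ℂ o (∑ a ∈ Finset.Icc (-∑ j, (k j : ℤ)) (∑ j, (k j : ℤ)),
      ∑ c ∈ Finset.Icc (-∑ j, (k j : ℤ)) (∑ j, (k j : ℤ)),
      (if a - c = 2 * (k i : ℤ) then (1 : ℂ) else 0) •
        (gP (blO M V) (EO M V) a * X * gP (blO M V) (EO M V) c)) =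
      ∑ a ∈ Finset.Icc (-∑ j, (k j : ℤ)) (∑ j, (k j : ℤ)),
      ∑ c ∈ Finset.Icc (-∑ j, (k j : ℤ)) (∑ j, (k j : ℤ)),
      (if a - c = 2 * (k i : ℤ) then (1 : ℂ) else 0) •
        (EO M V o a * (blO M V).bl ℂ o X * EO M V o c) := by
    intro o
    rw [map_sum]
    refine Finset.sum_congr rfl fun a _ => ?_
    rw [map_sum]
    refine Finset.sum_congr rfl fun c _ => ?_
    rw [map_smul, bl_gP]
  refine full_ker (blO M V) (some i) none hskew hu hsurj hX1 ?_ ?_ x y
  · rw [hbl]
    refine Finset.sum_eq_zero fun a _ => Finset.sum_eq_zero fun c _ => ?_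
    by_cases hac : a - c = 2 * (k i : ℤ)
    · have hdi := hd i
      by_cases ha : -(d : ℤ) ≤ a ∧ a ≤ d
      · have hc : ¬(-(d : ℤ) ≤ c ∧ c ≤ d) := by omega
        have h1 : EO M V none c = 0 := M.P_zero hc
        rw [h1, Matrix.mul_zero, smul_zero]
      · have h1 : EO M V none a = 0 := M.P_zero ha
        rw [h1, Matrix.zero_mul, Matrix.zero_mul, smul_zero]
    · rw [if_neg hac, zero_smul]
  · rw [hbl, hXv]
    have hw : (V i).D * SS (cK ℂ (V i).Q) v v - SS (cK ℂ (V i).Q) v v * (V i).D =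
        ((2 * (k i : ℤ) : ℤ) : ℂ) • SS (cK ℂ (V i).Q) v v := by
      rw [SS_bracket (V i).spD, hvD, SS_smul_left, SS_smul_right, ← add_smul]
      congr 1
      push_cast
      ring
    have h1 := fun_weight ((V i).proj (hK i)) hw (fun c => if c = 2 * (k i : ℤ) then 1 else 0)
    rw [if_pos rfl, one_smul] at h1
    have h2 : ∑ a ∈ Finset.Icc (-∑ j, (k j : ℤ)) (∑ j, (k j : ℤ)),
      ∑ c ∈ Finset.Icc (-∑ j, (k j : ℤ)) (∑ j, (k j : ℤ)),
      (if a - c = 2 * (k i : ℤ) then (1 : ℂ) else 0) •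
        (EO M V (some i) a * SS (cK ℂ (SO M V (some i))) v v * EO M V (some i) c) =
        SS (cK ℂ (V i).Q) v v := h1
    rw [h2]
    intro h3
    have h4 : SS (cK ℂ (V i).Q) v v *ᵥ cj v = 0 := by
      rw [h3]
      exact zero_mulVec _
    rw [SS_vec] at h4
    have h5 : ww (cK ℂ (V i).Q) v (cj v) ≠ 0 := by
      have h6 := ((V i).pol (hk i) (hK i)).pos (k i) v hvD hv0
      intro h
      rw [h, mul_zero] at h6
      exact lt_irrefl _ h6
    rw [← add_smul] at h4
    rcases smul_eq_zero.1 h4 with h6 | h6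
    · apply h5
      have h7 : (2 : ℂ) * ww (cK ℂ (V i).Q) v (cj v) = 0 := by linear_combination h6
      exact (mul_eq_zero.1 h7).resolve_left two_ne_zero
    · exact hv0 h6

end Pool.Agent.W437.CY
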