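import Mathlib
import Pool.Agent.W437.CY.RelB

/-!
# The operator of the direct sum alone belongs to the Lie algebra
-/

set_option linter.unusedSectionVars false

namespace Pool.Agent.W437.CY

open Matrix ComplexOrder Pool.Agent.W437.HC Pool.Agent.W437.HD Pool.Agent.W437.HP
  Pool.Agent.W437.HR

variable {ι : Type} [Fintype ι] [DecidableEq ι] {k N : ι → ℕ} {l d : ℕ}

/-- Extension by zero. -/
def Em (l : ℕ) (N : ι → ℕ) (K : Type*) [Field K] :
    Matrix (Σ i, Fin (N i)) (Σ i, Fin (N i)) K →ₗ[K] Matrix (Bas l N) (Bas l N) K where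
  toFun X := Matrix.fromBlocks 0 0 0 X
  map_add' X Y := by
    rw [fromBlocks_add]
    simp
  map_smul' a X := by
    rw [fromBlocks_smul]
    simp

theorem Em_apply (K : Type*) [Field K] (X : Matrix (Σ i, Fin (N i)) (Σ i, Fin (N i)) K) :
    Em l N K X = Matrix.fromBlocks 0 0 0 X := rfl

theorem Em_map {K : Type*} [Field K] [CharZero K] (lam : K →ₗ[ℚ] ℚ)
    (X : Matrix (Σ i, Fin (N i)) (Σ i, Fin (N i)) K) :
    (Em l N K X).map lam = Em l N ℚ (X.map lam) := by
  rw [Em_apply, Em_apply]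
  ext x y
  rcases x with x | x <;> rcases y with y | y <;> simp

theorem Em_cK {K : Type*} [Field K] [CharZero K]
    (X : Matrix (Σ i, Fin (N i)) (Σ i, Fin (N i)) ℚ) :
    cK K (Em l N ℚ X) = Em l N K (cK K X) := by
  rw [Em_apply, Em_apply]
  ext x y
  rcases x with x | x <;> rcases y with y | y <;> simp [cK]

theorem Em_mul {K : Type*} [Field K] (X Y : Matrix (Σ i, Fin (N i)) (Σ i, Fin (N i)) K) :
    Em l N K X * Em l N K Y = Em l N K (X * Y) := by
  rw [Em_apply, Em_apply, Em_apply, fromBlocks_multiply]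
  simp

/-- The coefficients of a product with a rational matrix. -/
theorem map_mul_rat {B : Type*} [Fintype B] (lam : ℂ →ₗ[ℚ] ℚ) (X : Matrix B B ℚ)
    (D : Matrix B B ℂ) : (cK ℂ X * D).map lam = X * D.map lam := by
  ext i j
  rw [Matrix.map_apply, Matrix.mul_apply, Matrix.mul_apply, map_sum]
  refine Finset.sum_congr rfl fun s _ => ?_
  rw [cK, Matrix.map_apply, Matrix.map_apply, ← Rat.smul_def, map_smul, smul_eq_mul]

theorem map_mul_rat' {B : Type*} [Fintype B] (lam : ℂ →ₗ[ℚ] ℚ) (X : Matrix B B ℚ)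
    (D : Matrix B B ℂ) : (D * cK ℂ X).map lam = D.map lam * X := by
  ext i j
  rw [Matrix.map_apply, Matrix.mul_apply, Matrix.mul_apply, map_sum]
  refine Finset.sum_congr rfl fun s _ => ?_
  rw [cK, Matrix.map_apply, Matrix.map_apply, mul_comm, ← Rat.smul_def, map_smul, smul_eq_mul,
    mul_comm]

section pol

variable (V : ∀ i, PolHS (k i) (N i)) (hk : ∀ i, Odd (k i))

theorem gD_block (i : ι) (x : (Σ i, Fin (N i)) → ℂ) :
    cK ℂ (pm N i) *ᵥ (gD V *ᵥ x) = (V i).D *ᵥ (cK ℂ (pm N i) *ᵥ x) := by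
  rw [mulVec_mulVec, mulVec_mulVec]
  unfold gD
  rw [pm_glue]

theorem sum_block (x : (Σ i, Fin (N i)) → ℂ) :
    ∑ i, (cK ℂ (pm N i))ᵀ *ᵥ (cK ℂ (pm N i) *ᵥ x) = x := by
  conv_rhs => rw [← one_mulVec x, ← pmK_tot (N := N) (K := ℂ), sum_mulVec]
  exact Finset.sum_congr rfl fun i _ => mulVec_mulVec _ _ _

theorem cj_block (i : ι) (x : (Σ i, Fin (N i)) → ℂ) :
    cj (cK ℂ (pm N i) *ᵥ x) = cK ℂ (pm N i) *ᵥ cj x := by
  funext b
  simp [cj, mulVec, dotProduct, cK]

theorem ww_block (x y : (Σ i, Fin (N i)) → ℂ) :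
    ww (cK ℂ (glue ℚ fun i => (V i).Q)) x y =
      ∑ i, ww (cK ℂ (V i).Q) (cK ℂ (pm N i) *ᵥ x) (cK ℂ (pm N i) *ᵥ y) := by
  rw [glue_cK]
  unfold glue ww
  rw [sum_mulVec, dotProduct_sum]
  refine Finset.sum_congr rfl fun i _ => ?_
  rw [← mulVec_mulVec, ← mulVec_mulVec, dotProduct_mulVec, vecMul_transpose]

include hk

/-- The direct sum is a polarized Hodge structure of odd weights. -/
theorem pol_glue : ∃ (S : Finset ℤ) (P : ℤ → Matrix (Σ i, Fin (N i)) (Σ i, Fin (N i)) ℂ),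
    Pol (gD V) (glue ℚ fun i => (V i).Q) S P ∧
    (d : ℤ) ≤ ∑ j, (k j : ℤ) + d ∧
    S = Finset.Icc (-(∑ j, (k j : ℤ) + d)) (∑ j, (k j : ℤ) + d) := by
  have hK : ∀ i, (k i : ℤ) ≤ ∑ j, (k j : ℤ) + d := fun i => by
    have h1 := Finset.single_le_sum (f := fun j => (k j : ℤ)) (fun j _ => by positivity)
      (Finset.mem_univ i)
    have h2 : (k i : ℤ) ≤ ∑ j, (k j : ℤ) := h1
    omega
  have hp := fun i => (V i).pol (hk i) (hK i)
  have hgp := gP_proj (blk V) fun i => (hp i).prj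
  refine ⟨_, gP (blk V) fun i => (V i).P, ⟨hgp, ?_, ?_, ?_, ?_, ?_, ?_⟩, ?_, rfl⟩
  · rw [glue_transpose]
    have h1 : (fun i => ((V i).Q)ᵀ) = fun i => (-1 : ℚ) • (V i).Q := by
      funext i
      rw [(V i).sym, (hk i).neg_one_pow]
    rw [h1]
    unfold glue
    rw [← Finset.sum_neg_distrib]
    refine Finset.sum_congr rfl fun i _ => ?_
    rw [Matrix.mul_smul, Matrix.smul_mul, neg_one_smul]
  · have hu : ∀ i, IsUnit (V i).Q.det := fun i =>
      (Matrix.isUnit_iff_isUnit_det _).1 (V i).unit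
    refine ⟨⟨glue ℚ (fun i => (V i).Q), glue ℚ (fun i => (V i).Q⁻¹), ?_, ?_⟩, rfl⟩
    · rw [glue_mul, ← glue_one]
      congr 1
      funext i
      exact Matrix.mul_nonsing_inv _ (hu i)
    · rw [glue_mul, ← glue_one]
      congr 1
      funext i
      exact Matrix.nonsing_inv_mul _ (hu i)
  · rw [glue_cK]
    unfold gD
    rw [glue_transpose, glue_mul, glue_mul, glue_add, ← glue_zero]
    congr 1
    funext i
    exact (V i).spD
  · refine mat_ext fun x => ?_
    have h1 : (gD V).map (starRingEnd ℂ) *ᵥ x = cj (gD V *ᵥ cj x) := by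
      rw [cj_mulVec, cj_cj]
    rw [h1, ← sum_block (cj (gD V *ᵥ cj x)), ← sum_block (-gD V *ᵥ x)]
    refine Finset.sum_congr rfl fun i _ => ?_
    congr 1
    rw [← cj_block, gD_block, ← cj_block, neg_mulVec, mulVec_neg, gD_block, cj_mulVec, cj_cj,
      (V i).cjD, neg_mulVec]
  · intro a x hx hx0
    by_contra ha
    apply hx0
    rw [← sum_block x]
    refine Finset.sum_eq_zero fun i _ => ?_
    have h1 : cK ℂ (pm N i) *ᵥ x = 0 := by
      by_contra h2
      refine ha ((hp i).odd a _ ?_ h2)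
      rw [← gD_block, hx, mulVec_smul]
    rw [h1, mulVec_zero]
  · intro a x hx hx0
    rw [ww_block, Finset.mul_sum]
    have h1 : ∀ i, (V i).D *ᵥ (cK ℂ (pm N i) *ᵥ x) = (a : ℂ) • (cK ℂ (pm N i) *ᵥ x) := by
      intro i
      rw [← gD_block, hx, mulVec_smul]
    have h2 : ∃ i, cK ℂ (pm N i) *ᵥ x ≠ 0 := by
      by_contra h
      push Not at h
      apply hx0
      rw [← sum_block x]
      refine Finset.sum_eq_zero fun i _ => ?_
      rw [h i, mulVec_zero]
    obtain ⟨i, hi⟩ := h2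
    refine Finset.sum_pos' (fun j _ => ?_) ⟨i, Finset.mem_univ i, ?_⟩
    · by_cases hj : cK ℂ (pm N j) *ᵥ x = 0
      · rw [hj, ww_zero_left, mul_zero]
      · rw [← cj_block]
        exact ((hp j).pos a _ (h1 j) hj).le
    · rw [← cj_block]
      exact (hp i).pos a _ (h1 i) hi
  · have : (0 : ℤ) ≤ ∑ j, (k j : ℤ) := Finset.sum_nonneg fun j _ => by positivity
    omega

end pol

end Pool.Agent.W437.CY
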