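import Mathlib
import Pool.Agent.W437.CY.RelC

/-!
# The operator of the direct sum alone belongs to the Lie algebra
-/

set_option linter.unusedSectionVars false

namespace Pool.Agent.W437.CY

open Matrix ComplexOrder Pool.Agent.W437.HC Pool.Agent.W437.HD Pool.Agent.W437.HP
  Pool.Agent.W437.HR

variable {ι : Type} [Fintype ι] [DecidableEq ι] {k N : ι → ℕ} {l d : ℕ}

theorem Em_eq {K : Type*} [Field K] [CharZero K]
    (X : Matrix (Σ i, Fin (N i)) (Σ i, Fin (N i)) K) :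
    Em l N K X = (cK K (RR l N))ᵀ * X * cK K (RR l N) := by
  rw [cK_RR, transpose_fromCols, Em_apply, fromRows_mul, fromRows_mul_fromCols]
  simp

theorem RR_Em {K : Type*} [Field K] [CharZero K]
    (X : Matrix (Σ i, Fin (N i)) (Σ i, Fin (N i)) K) :
    cK K (RR l N) * Em l N K X * (cK K (RR l N))ᵀ = X := by
  rw [Em_eq]
  have h1 : cK K (RR l N) * (cK K (RR l N))ᵀ = 1 := by
    rw [← cK_transpose, ← cK_mul, RR_same, cK_one]
  have h2 : cK K (RR l N) * ((cK K (RR l N))ᵀ * X * cK K (RR l N)) * (cK K (RR l N))ᵀ =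
      (cK K (RR l N) * (cK K (RR l N))ᵀ) * X * (cK K (RR l N) * (cK K (RR l N))ᵀ) := by
    simp only [Matrix.mul_assoc]
  rw [h2, h1, Matrix.one_mul, Matrix.mul_one]

theorem lam_trace {B : Type*} [Fintype B] (lam : ℂ →ₗ[ℚ] ℚ) (X : Matrix B B ℂ) :
    lam (trace X) = trace (X.map lam) := by
  simp [trace, map_sum]

variable (M : LowHS d l) (V : ∀ i, PolHS (k i) (N i)) (hk : ∀ i, Odd (k i))
  (hd : ∀ i, d < k i) (hs : ∀ i, (V i).IsSimple) (hv : ∀ i, (V i).HalfIndep)

/-- The rational matrices whose extensions by zero are in the Lie algebra. -/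
noncomputable def LL (M : LowHS d l) (V : ∀ i, PolHS (k i) (N i)) :
    Submodule ℚ (Matrix (Σ i, Fin (N i)) (Σ i, Fin (N i)) ℚ) :=
  (lieM (DM M V) ℚ).comap (Em l N ℚ)

theorem LL_sub {X : Matrix (Σ i, Fin (N i)) (Σ i, Fin (N i)) ℚ} (hX : X ∈ LL M V) :
    X ∈ lieM (gD V) ℚ := by
  have h1 : Em l N ℚ X ∈ lieM (DM M V) ℚ := hX
  have h2 := lieM_blk (K := ℚ) (P := RR l N) (Q := (RR l N)ᵀ) (RR_DM M V) (RR_same l N) h1 ?_
  · rw [cK_transpose, RR_Em] at h2
    exact h2
  · rw [cK_transpose, RR_Em, Em_eq, Matrix.mul_assoc, ← cK_transpose, ← cK_mul, RR_same, cK_one,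
      Matrix.mul_one]

theorem LL_lie {X Y : Matrix (Σ i, Fin (N i)) (Σ i, Fin (N i)) ℚ} (hX : X ∈ LL M V)
    (hY : Y ∈ LL M V) : X * Y - Y * X ∈ LL M V := by
  change Em l N ℚ (X * Y - Y * X) ∈ lieM (DM M V) ℚ
  rw [map_sub, ← Em_mul, ← Em_mul]
  exact lieM_bracket _ hX hY

/-- A complex matrix whose extension is in the Lie algebra has rational components in `LL`. -/
theorem LL_map {Y : Matrix (Σ i, Fin (N i)) (Σ i, Fin (N i)) ℂ}
    (hY : Em l N ℂ Y ∈ lieM (DM M V) ℂ) (lam : ℂ →ₗ[ℚ] ℚ) : Y.map lam ∈ LL M V := by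
  change Em l N ℚ (Y.map lam) ∈ lieM (DM M V) ℚ
  rw [← Em_map]
  exact map_mem _ hY lam

include hk in
theorem LL_nondeg {X : Matrix (Σ i, Fin (N i)) (Σ i, Fin (N i)) ℚ} (hX : X ∈ LL M V)
    (h : ∀ Y ∈ LL M V, trace (X * Y) = 0) : X = 0 := by
  obtain ⟨S, P, hpol, hdK, hS⟩ := pol_glue (d := d) V hk
  have hsp : Xᵀ * (glue ℚ fun i => (V i).Q) + (glue ℚ fun i => (V i).Q) * X = 0 := by
    have h1 := lieM_bil _ (isH_bilc _ hpol.spD) (LL_sub M V hX)
    change Xᵀ * cK ℚ (glue ℚ fun i => (V i).Q) + cK ℚ (glue ℚ fun i => (V i).Q) * X = 0 at h1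
    rwa [cK_rat] at h1
  refine hpol.aniso hsp ?_
  have hMp : Proj M.D S M.P := by
    rw [hS]
    exact M.proj hdK
  have hPP : Proj (DM M V) S fun a => Matrix.fromBlocks (M.P a) 0 0 (P a) := by
    refine ⟨?_, fun a => ?_, fun a => ?_⟩
    · have h1 : ∑ a ∈ S, Matrix.fromBlocks (M.P a) 0 0 (P a) =
          Matrix.fromBlocks (∑ a ∈ S, M.P a) 0 0 (∑ a ∈ S, P a) := by
        ext x y
        rcases x with x | x <;> rcases y with y | y <;> simp [Matrix.sum_apply]
      rw [h1, hMp.tot, hpol.prj.tot, fromBlocks_one]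
    · rw [DM, fromBlocks_multiply, fromBlocks_smul, hMp.left, hpol.prj.left]
      simp
    · rw [DM, fromBlocks_multiply, fromBlocks_smul, hMp.right, hpol.prj.right]
      simp
  have hXC : Em l N ℂ (cK ℂ X) ∈ lieM (DM M V) ℂ := by
    rw [← Em_cK]
    exact cast_mem _ hX
  have hY := hPP.fun_mem (fun c => Complex.I ^ (-c)) hXC
  have hYeq : ∑ a ∈ S, ∑ c ∈ S, (Complex.I ^ (-(a - c))) •
      ((Matrix.fromBlocks (M.P a) 0 0 (P a) : Matrix (Bas l N) (Bas l N) ℂ) *
        Em l N ℂ (cK ℂ X) * Matrix.fromBlocks (M.P c) 0 0 (P c)) =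
      Em l N ℂ (∑ a ∈ S, ∑ c ∈ S, (Complex.I ^ (-(a - c))) • (P a * cK ℂ X * P c)) := by
    rw [map_sum]
    refine Finset.sum_congr rfl fun a _ => ?_
    rw [map_sum]
    refine Finset.sum_congr rfl fun c _ => ?_
    rw [map_smul, Em_apply, Em_apply, fromBlocks_multiply, fromBlocks_multiply]
    simp
  rw [hYeq] at hY
  refine eq_zero_of_lam fun lam => ?_
  rw [lam_trace, map_mul_rat]
  exact h _ (LL_map M V hY lam)

include hk hd hs hv in
/-- The extension by zero of the operator of the direct sum is in the Lie algebra. -/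
theorem Em_gD_mem : Em l N ℂ (gD V) ∈ lieM (DM M V) ℂ := by
  refine mem_of_map _ fun lam => ?_
  rw [Em_map]
  change (gD V).map lam ∈ LL M V
  obtain ⟨p, hp1, hp2, hp3⟩ := exists_proj (LL M V) (fun X hX Y hY => LL_lie M V hX hY)
    (fun X hX h => LL_nondeg M V hk hX h)
  obtain ⟨T, hT⟩ : ∃ T, T = (gD V).map lam := ⟨_, rfl⟩
  rw [← hT]
  have hTl : T ∈ lieM (gD V) ℚ := by
    rw [hT]
    exact map_mem _ (D_mem _) lam
  have hnorm : ∀ X ∈ LL M V, X * T - T * X ∈ LL M V := by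
    intro X hX
    have hXC : Em l N ℂ (cK ℂ X) ∈ lieM (DM M V) ℂ := by
      rw [← Em_cK]
      exact cast_mem _ hX
    have h1 := lieM_bracket _ hXC (D_mem (DM M V))
    have h2 : Em l N ℂ (cK ℂ X) * DM M V - DM M V * Em l N ℂ (cK ℂ X) =
        Em l N ℂ (cK ℂ X * gD V - gD V * cK ℂ X) := by
      rw [Em_apply, Em_apply, DM, fromBlocks_multiply, fromBlocks_multiply]
      ext x y
      rcases x with x | x <;> rcases y with y | y <;> simp
    rw [h2] at h1
    have h3 := LL_map M V h1 lam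
    have h4 : (cK ℂ X * gD V - gD V * cK ℂ X).map lam = X * T - T * X := by
      rw [hT, ← map_mul_rat, ← map_mul_rat']
      ext x y
      simp
    rwa [h4] at h3
  obtain ⟨T', hT'⟩ : ∃ T', T' = T - p T := ⟨_, rfl⟩
  have hT'l : T' ∈ lieM (gD V) ℚ := by
    rw [hT']
    exact Submodule.sub_mem _ hTl (LL_sub M V (hp1 T))
  have hcomm : ∀ X ∈ LL M V, X * T' = T' * X := by
    intro X hX
    have h1 := hp3 X hX T
    rw [hp2 _ (hnorm X hX)] at h1
    rw [← sub_eq_zero, hT']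
    have h2 : X * (T - p T) - (T - p T) * X = (X * T - T * X) - (X * p T - p T * X) := by
      noncomm_ring
    rw [h2, h1, sub_self]
  have hT'0 : T' = 0 := by
    have hbl0 : ∀ i, (blk V).bl ℚ i T' = 0 := by
      intro i
      have hsk : (cK ℂ (V i).Q)ᵀ = -cK ℂ (V i).Q :=
        ((V i).pol (hk i) (K := k i) le_rfl).skewC
      have hu0 : IsUnit (cK ℂ (V i).Q) := by
        obtain ⟨u, hu⟩ := (V i).unit
        refine ⟨⟨cK ℂ (V i).Q, cK ℂ ((u⁻¹ : (Matrix _ _ ℚ)ˣ) : Matrix _ _ ℚ), ?_, ?_⟩, rfl⟩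
        · rw [← cK_mul, ← hu, Units.mul_inv, cK_one]
        · rw [← cK_mul, ← hu, Units.inv_mul, cK_one]
      have hTC : cK ℂ T' ∈ lieM (gD V) ℂ := cast_mem _ hT'l
      have h1 : (blk V).bl ℂ i (cK ℂ T') ∈ lieM (V i).D ℂ := (blk V).bl_mem hTC i
      have h2 : (blk V).bl ℂ i (cK ℂ T') = 0 := by
        refine comm_zero hsk hu0 (lieM_bil _ (isH_bilc _ (V i).spD) h1) fun x => ?_
        obtain ⟨X, hX, hX0, hXi⟩ := exists_ker M V hk hd hs hv i x x
        obtain ⟨X', hX'⟩ : ∃ X', X' = cK ℂ (RR l N) * X * (cK ℂ (RR l N))ᵀ := ⟨_, rfl⟩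
        have hXE : Em l N ℂ X' = X := by
          have e1 : cK ℂ (PL l N) * X = 0 := by
            have e2 := (blO M V).prj_mul hX none
            rw [hX0, Matrix.zero_mul] at e2
            exact e2
          have e3 : X * (cK ℂ (PL l N))ᵀ = 0 := by
            have e2 := (blO M V).mul_inc hX none
            rw [hX0, Matrix.mul_zero] at e2
            exact e2
          have e4 : (cK ℂ (PL l N))ᵀ * cK ℂ (PL l N) + (cK ℂ (RR l N))ᵀ * cK ℂ (RR l N) = 1 := by
            have e5 := congrArg (cK ℂ) (PR_tot l N)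
            have e6 : cK ℂ ((PL l N)ᵀ * PL l N + (RR l N)ᵀ * RR l N) =
                cK ℂ ((PL l N)ᵀ * PL l N) + cK ℂ ((RR l N)ᵀ * RR l N) := by
              ext x y
              simp [cK]
            rw [e6, cK_mul, cK_mul, cK_one, cK_transpose, cK_transpose] at e5
            exact e5
          have e7 : (cK ℂ (RR l N))ᵀ * cK ℂ (RR l N) * X = X := by
            conv_rhs => rw [← Matrix.one_mul X, ← e4, Matrix.add_mul,
              Matrix.mul_assoc (cK ℂ (PL l N))ᵀ, e1, Matrix.mul_zero, zero_add]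
          have e8 : X * ((cK ℂ (RR l N))ᵀ * cK ℂ (RR l N)) = X := by
            conv_rhs => rw [← Matrix.mul_one X, ← e4, Matrix.mul_add,
              ← Matrix.mul_assoc X (cK ℂ (PL l N))ᵀ, e3, Matrix.zero_mul, zero_add]
          rw [Em_eq, hX']
          have e9 : (cK ℂ (RR l N))ᵀ * (cK ℂ (RR l N) * X * (cK ℂ (RR l N))ᵀ) * cK ℂ (RR l N) =
              ((cK ℂ (RR l N))ᵀ * cK ℂ (RR l N) * X) * ((cK ℂ (RR l N))ᵀ * cK ℂ (RR l N)) := by
            simp only [Matrix.mul_assoc]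
          rw [e9, e7, e8]
        have hXc : X' * cK ℂ T' = cK ℂ T' * X' := by
          rw [← sub_eq_zero]
          ext a b
          refine eq_zero_of_lam fun mu => ?_
          have e1 : X'.map mu * T' = T' * X'.map mu := by
            refine hcomm _ (LL_map M V ?_ mu)
            rw [hXE]
            exact hX
          have e2 : (X' * cK ℂ T' - cK ℂ T' * X').map mu = 0 := by
            have e3 : (X' * cK ℂ T' - cK ℂ T' * X').map mu =
                (X' * cK ℂ T').map mu - (cK ℂ T' * X').map mu := by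
              ext x y
              simp
            rw [e3, map_mul_rat, map_mul_rat', e1, sub_self]
          exact congrFun (congrFun e2 a) b
        have hbX : cK ℂ (pm N i) * X' * (cK ℂ (pm N i))ᵀ = SS (cK ℂ (V i).Q) x x := by
          rw [← hXi, hX']
          change _ = cK ℂ (pm N i * RR l N) * X * (cK ℂ (pm N i * RR l N))ᵀ
          rw [cK_mul, transpose_mul]
          simp only [Matrix.mul_assoc]
        have e1 : cK ℂ (pm N i) * cK ℂ T' = (blk V).bl ℂ i (cK ℂ T') * cK ℂ (pm N i) :=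
          (blk V).prj_mul hTC i
        have e2 : cK ℂ T' * (cK ℂ (pm N i))ᵀ = (cK ℂ (pm N i))ᵀ * (blk V).bl ℂ i (cK ℂ T') :=
          (blk V).mul_inc hTC i
        rw [← hbX]
        have e3 : (blk V).bl ℂ i (cK ℂ T') * (cK ℂ (pm N i) * X' * (cK ℂ (pm N i))ᵀ) =
            cK ℂ (pm N i) * (cK ℂ T' * X') * (cK ℂ (pm N i))ᵀ := by
          rw [← Matrix.mul_assoc (cK ℂ (pm N i)), e1]
          simp only [Matrix.mul_assoc]
        have e4 : (cK ℂ (pm N i) * X' * (cK ℂ (pm N i))ᵀ) * (blk V).bl ℂ i (cK ℂ T') =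
            cK ℂ (pm N i) * (X' * cK ℂ T') * (cK ℂ (pm N i))ᵀ := by
          rw [Matrix.mul_assoc _ (cK ℂ (pm N i))ᵀ, ← e2]
          simp only [Matrix.mul_assoc]
        rw [e3, e4, hXc]
      rw [(blk V).bl_cast] at h2
      ext a b
      have h3 := congrFun (congrFun h2 a) b
      simpa [cK] using h3
    have h1 := (blk V).totK (K := ℚ)
    have h2 : T' = ∑ i, T' * ((cK ℚ ((blk V).P i))ᵀ * cK ℚ ((blk V).P i)) := by
      rw [← Matrix.mul_sum, h1, Matrix.mul_one]
    rw [h2]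
    refine Finset.sum_eq_zero fun i _ => ?_
    rw [← Matrix.mul_assoc, (blk V).mul_inc hT'l i, hbl0, Matrix.mul_zero, Matrix.zero_mul]
  have h1 : T = p T := by
    rw [← sub_eq_zero, ← hT', hT'0]
  rw [h1]
  exact hp1 T

end Pool.Agent.W437.CY
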