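import Mathlib
import Pool.Agent.W437.CY.RelD

/-!
# Hodge classes are the tensors killed by the operator
-/

set_option linter.unusedSectionVars false

namespace Pool.Agent.W437.CY

open Matrix ComplexOrder Pool.Agent.W437.HC Pool.Agent.W437.HD Pool.Agent.W437.HP
  Pool.Agent.W437.HR

variable {ι : Type} [Fintype ι] [DecidableEq ι] {k N : ι → ℕ} {l d : ℕ}
  (M : LowHS d l) (V : ∀ i, PolHS (k i) (N i))

theorem DM_inc (o : Option ι) :
    DM M V * (cK ℂ (PO l N o))ᵀ = (cK ℂ (PO l N o))ᵀ * DO M V o := by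
  have h1 := (blO M V).mul_inc (K := ℂ) (D_mem (DM M V)) o
  rw [(blO M V).bl_D] at h1
  exact h1

theorem inl_vec (y : Fin l → ℂ) :
    (cK ℂ (PL l N))ᵀ *ᵥ y = Sum.elim y 0 := by
  rw [cK_PL, transpose_fromCols, fromRows_mulVec, transpose_one, transpose_zero, one_mulVec,
    zero_mulVec]

theorem homog_D {x : Bas l N → ℂ} {a : ℤ} (h : Homog M V x a) :
    DM M V *ᵥ x = (a : ℂ) • x := by
  rcases h with ⟨p, h0, h1, rfl⟩ | ⟨i, p, h0, h1, h2, rfl⟩
  · have hx : x = (cK ℂ (PL l N))ᵀ *ᵥ (fun t => x (Sum.inl t)) := by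
      rw [inl_vec]
      funext z
      rcases z with t | z
      · rfl
      · exact h0 z
    have h3 : DM M V * (cK ℂ (PL l N))ᵀ = (cK ℂ (PL l N))ᵀ * M.D := DM_inc M V none
    rw [hx, mulVec_mulVec, h3, ← mulVec_mulVec, M.D_vec h1, mulVec_smul]
  · have hx : x = emv l i (fun b => x (Sum.inr ⟨i, b⟩)) := by
      funext z
      rcases z with t | z
      · rw [emv_inl, h0]
      · by_cases hz : z.1 = i
        · obtain ⟨j, b⟩ := z
          subst hz
          rw [emv_same]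
        · rw [emv_ne _ _ _ hz, h1 z hz]
    have h3 : DM M V * (cK ℂ (pm N i * RR l N))ᵀ = (cK ℂ (pm N i * RR l N))ᵀ * (V i).D :=
      DM_inc M V (some i)
    rw [hx]
    unfold emv
    rw [mulVec_mulVec, h3, ← mulVec_mulVec, (V i).D_vec h2, mulVec_smul]

/-- Hodge classes are killed by the operator. -/
theorem act_hodge {κ : Type} [Fintype κ] [DecidableEq κ] {c : (κ → Bas l N) → ℚ}
    (hc : IsHodgeClass M V c) : act (DM M V)ᵀ (cst ℂ c) = 0 := by
  unfold IsHodgeClass at hc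
  have h1 : (fun I => ((c I : ℚ) : ℂ)) = cst ℂ c := rfl
  rw [h1] at hc
  generalize cst ℂ c = f at hc
  induction hc using Submodule.span_induction with
  | mem F hF =>
    obtain ⟨x, a, hx, ha, rfl⟩ := hF
    rw [act_prod (fun j => homog_D M V (hx j)), ← Int.cast_sum, ha, Int.cast_zero, zero_smul]
  | zero => exact act_zero_right _
  | add F G _ _ h1 h2 => rw [act_add_right, h1, h2, add_zero]
  | smul a F _ h1 => rw [act_smul_right, h1, smul_zero]

/-- The projections to the eigenspaces of the blocks. -/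
noncomputable def QQ (M : LowHS d l) (V : ∀ i, PolHS (k i) (N i)) (q : Option ι × ℤ) :
    Matrix (Bas l N) (Bas l N) ℂ :=
  (cK ℂ (PO l N q.1))ᵀ * EO M V q.1 q.2 * cK ℂ (PO l N q.1)

theorem EO_proj (o : Option ι) :
    Proj (DO M V o) (Finset.Icc (-(∑ j, (k j : ℤ) + d)) (∑ j, (k j : ℤ) + d)) (EO M V o) := by
  have hK : ∀ i, (k i : ℤ) ≤ ∑ j, (k j : ℤ) := fun i =>
    Finset.single_le_sum (f := fun j => (k j : ℤ)) (fun j _ => by positivity) (Finset.mem_univ i)
  have h0 : (0 : ℤ) ≤ ∑ j, (k j : ℤ) := Finset.sum_nonneg fun j _ => by positivity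
  rcases o with _ | i
  · exact M.proj (by omega)
  · have := hK i
    exact (V i).proj (by omega)

theorem QQ_right (q : Option ι × ℤ) : QQ M V q * DM M V = (q.2 : ℂ) • QQ M V q := by
  unfold QQ
  have h1 : cK ℂ (PO l N q.1) * DM M V = DO M V q.1 * cK ℂ (PO l N q.1) := (blO M V).com q.1
  rw [Matrix.mul_assoc, h1, ← Matrix.mul_assoc, Matrix.mul_assoc _ _ (DO M V q.1),
    (EO_proj M V q.1).right, Matrix.mul_smul, Matrix.smul_mul]

theorem QQ_tot : ∑ q ∈ (Finset.univ : Finset (Option ι)) ×ˢ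
    Finset.Icc (-(∑ j, (k j : ℤ) + d)) (∑ j, (k j : ℤ) + d), QQ M V q = 1 := by
  rw [Finset.sum_product]
  unfold QQ
  have h1 : ∑ o : Option ι, (cK ℂ (PO l N o))ᵀ * cK ℂ (PO l N o) = 1 := (blO M V).totK
  rw [← h1]
  refine Finset.sum_congr rfl fun o _ => ?_
  have h2 : (cK ℂ (PO l N o))ᵀ * (∑ a ∈ Finset.Icc (-(∑ j, (k j : ℤ) + d)) (∑ j, (k j : ℤ) + d),
      EO M V o a) * cK ℂ (PO l N o) = ∑ a ∈ Finset.Icc (-(∑ j, (k j : ℤ) + d))
        (∑ j, (k j : ℤ) + d), (cK ℂ (PO l N o))ᵀ * EO M V o a * cK ℂ (PO l N o) := by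
    rw [Matrix.mul_sum, Matrix.sum_mul]
  rw [(EO_proj M V o).tot, Matrix.mul_one] at h2
  exact h2.symm

theorem QQ_homog (q : Option ι × ℤ) (x : Bas l N → ℂ) :
    Homog M V (QQ M V q *ᵥ x) q.2 ∨ QQ M V q *ᵥ x = 0 := by
  obtain ⟨o, a⟩ := q
  rcases o with _ | i
  · have h0 : QQ M V (none, a) *ᵥ x =
        (cK ℂ (PL l N))ᵀ *ᵥ (M.P a *ᵥ (cK ℂ (PL l N) *ᵥ x)) := by
      rw [mulVec_mulVec, mulVec_mulVec]
      rfl
    rcases M.P_mem a (cK ℂ (PL l N) *ᵥ x) with ⟨p, hp, h1⟩ | h1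
    · left
      refine Or.inl ⟨p, ?_, ?_, hp.symm⟩
      · intro b
        rw [h0, inl_vec]
        rfl
      · rw [h0, inl_vec]
        exact h1
    · right
      rw [h0, h1, mulVec_zero]
  · have h0 : QQ M V (some i, a) *ᵥ x =
        emv l i ((V i).P a *ᵥ (cK ℂ (pm N i * RR l N) *ᵥ x)) := by
      unfold emv
      rw [mulVec_mulVec, mulVec_mulVec]
      rfl
    rcases (V i).P_mem a (cK ℂ (pm N i * RR l N) *ᵥ x) with ⟨p, hp, h1⟩ | h1
    · left
      rw [h0]
      have h2 := homog_emv M i p h1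
      rw [hp] at h2
      exact h2
    · right
      rw [h0, h1]
      unfold emv
      rw [mulVec_zero]

/-- The tensors killed by the operator are Hodge classes. -/
theorem hodge_of_act {κ : Type} [Fintype κ] [DecidableEq κ] {c : (κ → Bas l N) → ℚ}
    (hc : act (DM M V)ᵀ (cst ℂ c) = 0) : IsHodgeClass M V c := by
  unfold IsHodgeClass
  have h1 : (fun I => ((c I : ℚ) : ℂ)) = ∑ q ∈ Fintype.piFinset (fun _ : κ =>
      (Finset.univ : Finset (Option ι)) ×ˢ
        Finset.Icc (-(∑ j, (k j : ℤ) + d)) (∑ j, (k j : ℤ) + d)), ∑ J : κ → Bas l N,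
      cst ℂ c J • fun I : κ → Bas l N => ∏ j, (QQ M V (q j) *ᵥ Pi.single (J j) 1) (I j) := by
    funext I
    have h2 : ((c I : ℚ) : ℂ) = evalM (cst ℂ c) (fun j => ∑ q ∈
        (Finset.univ : Finset (Option ι)) ×ˢ
        Finset.Icc (-(∑ j, (k j : ℤ) + d)) (∑ j, (k j : ℤ) + d),
        (QQ M V q)ᵀ *ᵥ (Pi.single (I j) 1 : Bas l N → ℂ)) := by
      have h3 : (fun j : κ => ∑ q ∈ (Finset.univ : Finset (Option ι)) ×ˢ
        Finset.Icc (-(∑ j, (k j : ℤ) + d)) (∑ j, (k j : ℤ) + d),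
        (QQ M V q)ᵀ *ᵥ (Pi.single (I j) 1 : Bas l N → ℂ)) = fun j => Pi.single (I j) 1 := by
        funext j
        rw [← Matrix.sum_mulVec, ← transpose_sum, QQ_tot, transpose_one, one_mulVec]
      rw [h3, evalM_apply, evalF_single]
      rfl
    rw [h2, MultilinearMap.map_sum_finset, Finset.sum_apply]
    refine Finset.sum_congr rfl fun q _ => ?_
    rw [evalM_apply, Finset.sum_apply]
    unfold evalF
    refine Finset.sum_congr rfl fun J _ => ?_
    rw [Pi.smul_apply, smul_eq_mul]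
    congr 1
    refine Finset.prod_congr rfl fun j _ => ?_
    change ((QQ M V (q j))ᵀ *ᵥ Pi.single (I j) 1) (J j) = _
    rw [mulVec_single_one, mulVec_single_one]
    rfl
  rw [h1]
  refine Submodule.sum_mem _ fun q _ => ?_
  by_cases hq : ∑ j, (q j).2 = 0
  · refine Submodule.sum_mem _ fun J _ => Submodule.smul_mem _ _ ?_
    by_cases h0 : ∃ j, QQ M V (q j) *ᵥ (Pi.single (J j) 1 : Bas l N → ℂ) = 0
    · obtain ⟨j, hj⟩ := h0
      have h2 : (fun I : κ → Bas l N => ∏ j, (QQ M V (q j) *ᵥ Pi.single (J j) 1) (I j)) = 0 := by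
        funext I
        exact Finset.prod_eq_zero (Finset.mem_univ j) (by rw [hj]; rfl)
      rw [h2]
      exact Submodule.zero_mem _
    · push Not at h0
      refine Submodule.subset_span ⟨fun j => QQ M V (q j) *ᵥ Pi.single (J j) 1,
        fun j => (q j).2, fun j => (QQ_homog M V (q j) _).resolve_right (h0 j), hq, rfl⟩
  · have h2 : ∑ J : κ → Bas l N,
      (cst ℂ c J • fun I : κ → Bas l N => ∏ j, (QQ M V (q j) *ᵥ Pi.single (J j) 1) (I j)) =
        0 := by
      funext I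
      rw [Finset.sum_apply, Pi.zero_apply]
      have h3 : evalF (cst ℂ c) (fun j => (QQ M V (q j))ᵀ *ᵥ
          (Pi.single (I j) 1 : Bas l N → ℂ)) = 0 := by
        refine evalF_eig hc (fun j => ((q j).2 : ℂ)) _ (fun j => ?_) ?_
        · rw [mulVec_mulVec, ← transpose_mul, QQ_right, transpose_smul, smul_mulVec]
        · intro h
          apply hq
          exact_mod_cast h
      rw [← h3]
      unfold evalF
      refine Finset.sum_congr rfl fun J _ => ?_
      rw [Pi.smul_apply, smul_eq_mul]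
      congr 1
      refine Finset.prod_congr rfl fun j _ => ?_
      change _ = ((QQ M V (q j))ᵀ *ᵥ Pi.single (I j) 1) (J j)
      rw [mulVec_single_one, mulVec_single_one]
      rfl
    rw [h2]
    exact Submodule.zero_mem _

end Pool.Agent.W437.CY
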