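import Mathlib
import Pool.Agent.W437.CY.RelE

/-!
# Products of a Hodge structure of low level and Hodge structures of Calabi-Yau type
-/

set_option linter.unusedSectionVars false

namespace Pool.Agent.W437.CY

open Matrix ComplexOrder Pool.Agent.W437.HC Pool.Agent.W437.HD Pool.Agent.W437.HP
  Pool.Agent.W437.HR

/-- A function of two variables whose sections are in two given subspaces is a sum of
products. -/
theorem exists_tensor {X Y : Type*} [Fintype X] [DecidableEq X] [Fintype Y] [DecidableEq Y]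
    (U : Submodule ℚ (X → ℚ)) (H : Submodule ℚ (Y → ℚ)) (c : X → Y → ℚ) (hH : ∀ x, c x ∈ H)
    (hU : ∀ y, (fun x => c x y) ∈ U) :
    ∃ (n : ℕ) (u : Fin n → X → ℚ) (h : Fin n → Y → ℚ), (∀ i, u i ∈ U) ∧ (∀ i, h i ∈ H) ∧
      ∀ x y, c x y = ∑ i, u i x * h i y := by
  obtain ⟨b, -⟩ : ∃ b : Module.Basis (Fin (Module.finrank ℚ H)) ℚ H, b = b :=
    ⟨Module.finBasis ℚ H, rfl⟩
  have hext : ∀ i, ∃ g : (Y → ℚ) →ₗ[ℚ] ℚ, g ∘ₗ H.subtype = b.coord i := fun i =>
    LinearMap.exists_extend _
  choose g hg using hext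
  refine ⟨_, fun i x => g i (c x), fun i => b i, fun i => ?_, fun i => (b i).2, fun x y => ?_⟩
  · have h1 : (fun x => g i (c x)) =
        ∑ y, g i (fun j => if y = j then 1 else 0) • fun x => c x y := by
      funext x
      rw [Finset.sum_apply, LinearMap.pi_apply_eq_sum_univ (g i) (c x)]
      refine Finset.sum_congr rfl fun y _ => ?_
      rw [Pi.smul_apply, smul_eq_mul, smul_eq_mul, mul_comm]
    change (fun x => g i (c x)) ∈ U
    rw [h1]
    exact Submodule.sum_mem _ fun y _ => Submodule.smul_mem _ _ (hU y)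
  · have h1 := b.sum_repr ⟨c x, hH x⟩
    have h2 := congrFun (congrArg Subtype.val h1) y
    have h3 : ∀ i, g i (c x) = b.repr ⟨c x, hH x⟩ i := by
      intro i
      have h4 := LinearMap.congr_fun (hg i) ⟨c x, hH x⟩
      exact h4
    simp only [h3]
    refine h2.symm.trans ?_
    rw [AddSubmonoidClass.coe_finsetSum, Finset.sum_apply]
    rfl

variable {ι : Type} [Fintype ι] [DecidableEq ι] {k N : ι → ℕ} {l d : ℕ}

section pulls

variable {κ : Type*} [Fintype κ] [DecidableEq κ]

theorem pull_PL_inl (u : (κ → Fin l) → ℚ) (P : κ → Fin l) :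
    pull (PL l N) u (fun j => Sum.inl (P j)) = u P := by
  unfold pull
  rw [Finset.sum_eq_single P]
  · have h1 : ∀ j, PL l N (P j) (Sum.inl (P j)) = 1 := by
      intro j
      change (1 : Matrix (Fin l) (Fin l) ℚ) (P j) (P j) = 1
      rw [Matrix.one_apply_eq]
    rw [Finset.prod_congr rfl (fun j _ => h1 j), Finset.prod_const_one, mul_one]
  · intro J _ hJ
    obtain ⟨j, hj⟩ := Function.ne_iff.1 hJ
    rw [Finset.prod_eq_zero (Finset.mem_univ j), mul_zero]
    change (1 : Matrix (Fin l) (Fin l) ℚ) (J j) (P j) = 0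
    rw [Matrix.one_apply_ne hj]
  · intro h
    exact absurd (Finset.mem_univ _) h

theorem pull_PL_zero (u : (κ → Fin l) → ℚ) (I : κ → Bas l N) (j : κ) (b : Σ i, Fin (N i))
    (h : I j = Sum.inr b) : pull (PL l N) u I = 0 := by
  unfold pull
  refine Finset.sum_eq_zero fun J _ => ?_
  rw [Finset.prod_eq_zero (Finset.mem_univ j), mul_zero]
  rw [h]
  rfl

theorem pull_RR_inr (u : (κ → Σ i, Fin (N i)) → ℚ) (P : κ → Σ i, Fin (N i)) :
    pull (RR l N) u (fun j => Sum.inr (P j)) = u P := by
  unfold pull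
  rw [Finset.sum_eq_single P]
  · have h1 : ∀ j, RR l N (P j) (Sum.inr (P j)) = 1 := by
      intro j
      change (if (Sum.inr (P j) : Bas l N) = Sum.inr (P j) then (1 : ℚ) else 0) = 1
      rw [if_pos rfl]
    rw [Finset.prod_congr rfl (fun j _ => h1 j), Finset.prod_const_one, mul_one]
  · intro J _ hJ
    obtain ⟨j, hj⟩ := Function.ne_iff.1 hJ
    rw [Finset.prod_eq_zero (Finset.mem_univ j), mul_zero]
    change (if (Sum.inr (P j) : Bas l N) = Sum.inr (J j) then (1 : ℚ) else 0) = 0
    rw [if_neg]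
    intro h
    exact hj (Sum.inr.inj h).symm
  · intro h
    exact absurd (Finset.mem_univ _) h

theorem pull_RR_zero (u : (κ → Σ i, Fin (N i)) → ℚ) (I : κ → Bas l N) (j : κ) (t : Fin l)
    (h : I j = Sum.inl t) : pull (RR l N) u I = 0 := by
  unfold pull
  refine Finset.sum_eq_zero fun J _ => ?_
  rw [Finset.prod_eq_zero (Finset.mem_univ j), mul_zero]
  rw [h]
  change (if (Sum.inl t : Bas l N) = Sum.inr (J j) then (1 : ℚ) else 0) = 0
  rw [if_neg Sum.inl_ne_inr]

end pulls

section slices

variable {κ : Type} [Fintype κ] [DecidableEq κ] (σ : κ → Bool)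

/-- The index function with the given parts. -/
def jn (P : {j // ¬σ j = true} → Fin l) (J : {j // σ j = true} → Σ i, Fin (N i)) :
    κ → Bas l N :=
  fun j => if h : σ j = true then Sum.inr (J ⟨j, h⟩) else Sum.inl (P ⟨j, h⟩)

theorem jn_true (P : {j // ¬σ j = true} → Fin l) (J : {j // σ j = true} → Σ i, Fin (N i))
    (j : {j // σ j = true}) : jn σ P J j = Sum.inr (J j) := by
  unfold jn
  rw [dif_pos j.2]

theorem jn_false (P : {j // ¬σ j = true} → Fin l) (J : {j // σ j = true} → Σ i, Fin (N i))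
    (j : {j // ¬σ j = true}) : jn σ P J j = Sum.inl (P j) := by
  unfold jn
  rw [dif_neg j.2]

theorem jn_update_true (P : {j // ¬σ j = true} → Fin l)
    (J : {j // σ j = true} → Σ i, Fin (N i)) (j : {j // σ j = true}) (b : Σ i, Fin (N i)) :
    jn σ P (Function.update J j b) = Function.update (jn σ P J) j (Sum.inr b) := by
  funext s
  by_cases hs : s = j
  · subst hs
    rw [Function.update_self, jn_true, Function.update_self]
  · rw [Function.update_of_ne hs]
    unfold jn
    by_cases h : σ s = true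
    · rw [dif_pos h, dif_pos h, Function.update_of_ne]
      intro h2
      exact hs (congrArg Subtype.val h2)
    · rw [dif_neg h, dif_neg h]

theorem jn_update_false (P : {j // ¬σ j = true} → Fin l)
    (J : {j // σ j = true} → Σ i, Fin (N i)) (j : {j // ¬σ j = true}) (t : Fin l) :
    jn σ (Function.update P j t) J = Function.update (jn σ P J) j (Sum.inl t) := by
  funext s
  by_cases hs : s = j
  · subst hs
    rw [Function.update_self, jn_false, Function.update_self]
  · rw [Function.update_of_ne hs]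
    unfold jn
    by_cases h : σ s = true
    · rw [dif_pos h, dif_pos h]
    · rw [dif_neg h, dif_neg h, Function.update_of_ne]
      intro h2
      exact hs (congrArg Subtype.val h2)

theorem act_slice_R (X : Matrix (Σ i, Fin (N i)) (Σ i, Fin (N i)) ℂ) (c : (κ → Bas l N) → ℂ)
    (P : {j // ¬σ j = true} → Fin l) (J : {j // σ j = true} → Σ i, Fin (N i)) :
    act X (fun J => c (jn σ P J)) J =
      act (Matrix.fromBlocks 0 0 0 X : Matrix (Bas l N) (Bas l N) ℂ) c (jn σ P J) := by
  unfold act
  rw [← Fintype.sum_subtype_add_sum_subtype (fun j => σ j = true)]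
  have h1 : ∑ j : {j // ¬σ j = true}, ∑ b, (Matrix.fromBlocks 0 0 0 X :
      Matrix (Bas l N) (Bas l N) ℂ) b (jn σ P J j) * c (Function.update (jn σ P J) j b) = 0 := by
    refine Finset.sum_eq_zero fun j _ => Finset.sum_eq_zero fun b _ => ?_
    rw [jn_false]
    rcases b with b | b <;> simp
  rw [h1, add_zero]
  refine Finset.sum_congr rfl fun j _ => ?_
  rw [jn_true, Fintype.sum_sum_type]
  simp only [Matrix.fromBlocks_apply₁₂, Matrix.fromBlocks_apply₂₂, Matrix.zero_apply, zero_mul,
    Finset.sum_const_zero, zero_add]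
  refine Finset.sum_congr rfl fun b _ => ?_
  rw [jn_update_true]

theorem act_slice_L (X : Matrix (Fin l) (Fin l) ℂ) (c : (κ → Bas l N) → ℂ)
    (P : {j // ¬σ j = true} → Fin l) (J : {j // σ j = true} → Σ i, Fin (N i)) :
    act X (fun P => c (jn σ P J)) P =
      act (Matrix.fromBlocks X 0 0 0 : Matrix (Bas l N) (Bas l N) ℂ) c (jn σ P J) := by
  unfold act
  rw [← Fintype.sum_subtype_add_sum_subtype (fun j => σ j = true)]
  have h1 : ∑ j : {j // σ j = true}, ∑ b, (Matrix.fromBlocks X 0 0 0 :
      Matrix (Bas l N) (Bas l N) ℂ) b (jn σ P J j) * c (Function.update (jn σ P J) j b) = 0 := by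
    refine Finset.sum_eq_zero fun j _ => Finset.sum_eq_zero fun b _ => ?_
    rw [jn_true]
    rcases b with b | b <;> simp
  rw [h1, zero_add]
  refine Finset.sum_congr rfl fun j _ => ?_
  rw [jn_false, Fintype.sum_sum_type]
  simp only [Matrix.fromBlocks_apply₁₁, Matrix.fromBlocks_apply₂₁, Matrix.zero_apply, zero_mul,
    Finset.sum_const_zero, add_zero]
  refine Finset.sum_congr rfl fun b _ => ?_
  rw [jn_update_false]

theorem exists_jn {I : κ → Bas l N} (h : (fun j => (I j).isRight) = σ) :
    ∃ (P : {j // ¬σ j = true} → Fin l) (J : {j // σ j = true} → Σ i, Fin (N i)),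
      I = jn σ P J := by
  have h1 : ∀ j : {j // σ j = true}, ∃ b, I j = Sum.inr b := by
    intro j
    have h2 := congrFun h j.1
    rw [j.2] at h2
    exact Sum.isRight_iff.1 h2
  have h2 : ∀ j : {j // ¬σ j = true}, ∃ t, I j = Sum.inl t := by
    intro j
    have h2 := congrFun h j.1
    have h3 := j.2
    rw [← h2] at h3
    rcases hI : I j.1 with t | b
    · exact ⟨t, rfl⟩
    · rw [hI] at h3
      exact absurd rfl h3
  choose J hJ using h1
  choose P hP using h2
  refine ⟨P, J, ?_⟩
  funext j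
  by_cases hj : σ j = true
  · have h3 := jn_true σ P J ⟨j, hj⟩
    rw [← hJ] at h3
    exact h3.symm
  · have h3 := jn_false σ P J ⟨j, hj⟩
    rw [← hP] at h3
    exact h3.symm

end slices

end Pool.Agent.W437.CY
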