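import Mathlib
import Pool.Agent.W437.CY.RelF

/-!
# Products of a Hodge structure of low level and Hodge structures of Calabi-Yau type
-/

set_option linter.unusedSectionVars false

namespace Pool.Agent.W437.CY

open Matrix ComplexOrder Pool.Agent.W437.HC Pool.Agent.W437.HD Pool.Agent.W437.HP
  Pool.Agent.W437.HR

variable {ι : Type} [Fintype ι] [DecidableEq ι] {k N : ι → ℕ} {l d : ℕ}
  (M : LowHS d l) (V : ∀ i, PolHS (k i) (N i))

theorem cK_blocks (S : Matrix (Fin l) (Fin l) ℚ)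
    (G : Matrix (Σ i, Fin (N i)) (Σ i, Fin (N i)) ℚ) :
    cK ℂ (Matrix.fromBlocks S 0 0 G) = Matrix.fromBlocks (cK ℂ S) 0 0 (cK ℂ G) := by
  ext x y
  rcases x with x | x <;> rcases y with y | y <;> simp [cK]

theorem skew_blocks {S : Matrix (Fin l) (Fin l) ℂ} {G : Matrix (Σ i, Fin (N i)) (Σ i, Fin (N i)) ℂ}
    {X : Matrix (Fin l) (Fin l) ℂ} {Y : Matrix (Σ i, Fin (N i)) (Σ i, Fin (N i)) ℂ}
    (hX : Xᵀ * S + S * X = 0) (hY : Yᵀ * G + G * Y = 0) :
    Matrix.fromBlocks S 0 0 G * Matrix.fromBlocks X 0 0 Y =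
      -(Matrix.fromBlocks X 0 0 Y)ᵀ * Matrix.fromBlocks S 0 0 G := by
  rw [fromBlocks_transpose, fromBlocks_neg, fromBlocks_multiply, fromBlocks_multiply]
  simp only [Matrix.mul_zero, Matrix.zero_mul, add_zero, zero_add, transpose_zero, neg_zero,
    Matrix.neg_mul]
  rw [eq_neg_of_add_eq_zero_right hX, eq_neg_of_add_eq_zero_right hY]

variable (hk : ∀ i, Odd (k i)) (hd : ∀ i, d < k i) (hs : ∀ i, (V i).IsSimple)
  (hv : ∀ i, (V i).HalfIndep)

include hk hd hs hv

/-- The tensors killed by the operator are killed by its second part. -/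
theorem act_em {κ : Type} [Fintype κ] [DecidableEq κ] {c : (κ → Bas l N) → ℚ}
    (hc : act (DM M V)ᵀ (cst ℂ c) = 0) : act (Em l N ℂ (gD V))ᵀ (cst ℂ c) = 0 := by
  obtain ⟨S, P, hpol, -, -⟩ := pol_glue (d := d) V hk
  obtain ⟨u, hu⟩ := M.unit
  obtain ⟨w, hw⟩ := hpol.unit
  obtain ⟨T, hT⟩ : ∃ T : Matrix (Bas l N) (Bas l N) ℚ,
      T = Matrix.fromBlocks M.S 0 0 (glue ℚ fun i => (V i).Q) := ⟨_, rfl⟩
  obtain ⟨T', hT'⟩ : ∃ T' : Matrix (Bas l N) (Bas l N) ℚ, T * T' = 1 := by
    refine ⟨Matrix.fromBlocks ((u⁻¹ : (Matrix _ _ ℚ)ˣ) : Matrix _ _ ℚ) 0 0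
      ((w⁻¹ : (Matrix _ _ ℚ)ˣ) : Matrix _ _ ℚ), ?_⟩
    rw [hT, fromBlocks_multiply, ← hu, ← hw, Units.mul_inv, Units.mul_inv]
    simp
  have hTC : cK ℂ T = Matrix.fromBlocks (cK ℂ M.S) 0 0 (cK ℂ (glue ℚ fun i => (V i).Q)) := by
    rw [hT, cK_blocks]
  have h1 : cK ℂ T * DM M V = -(DM M V)ᵀ * cK ℂ T := by
    rw [hTC, DM]
    exact skew_blocks M.spD hpol.spD
  have h2 : cK ℂ T * Em l N ℂ (gD V) = -(Em l N ℂ (gD V))ᵀ * cK ℂ T := by
    rw [hTC, Em_apply]
    refine skew_blocks ?_ hpol.spD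
    rw [transpose_zero, Matrix.zero_mul, Matrix.mul_zero, add_zero]
  have h3 : IsH (DM M V) (pull T c) := by
    unfold IsH
    rw [cst_pull, act_pull h1, act_neg_left, hc, neg_zero, pull_zero]
  have h4 := lieM_kills _ (Em_gD_mem M V hk hd hs hv) h3
  rw [cst_pull, act_pull h2, act_neg_left] at h4
  have h5 := congrArg (pull (cK ℂ T')) h4
  rw [pull_pull, ← cK_mul, hT', cK_one, pull_one, pull_zero] at h5
  exact neg_eq_zero.1 h5

/-- Every Hodge class on the products is in the system. -/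
theorem main {A : ∀ κ : Type, Submodule ℚ ((κ → Bas l N) → ℚ)} (hA : IsSystem M V A) {κ : Type}
    [Fintype κ] (c : (κ → Bas l N) → ℚ) (hc : IsHodgeClass M V c) : c ∈ A κ := by
  classical
  have hA0 : Sys0 V A := by
    refine ⟨?_, hA.mul, hA.perm, hA.diag, fun i j hij m hm => hA.cross i j hij m (hodge_pair M hm)⟩
    refine hA.low Empty _ (hodge_of_act M V ?_) fun I ⟨j, _⟩ => j.elim
    funext I
    unfold act
    exact Finset.sum_eq_zero fun j _ => j.elim
  have h0 := act_hodge M V hc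
  have h1 := act_em M V hk hd hs hv h0
  have h2 : act (Matrix.fromBlocks M.Dᵀ 0 0 0 : Matrix (Bas l N) (Bas l N) ℂ) (cst ℂ c) = 0 := by
    have h3 : (DM M V)ᵀ = Matrix.fromBlocks M.Dᵀ 0 0 0 + (Em l N ℂ (gD V))ᵀ := by
      rw [DM, Em_apply, fromBlocks_transpose, fromBlocks_transpose, fromBlocks_add]
      simp
    rw [h3, act_add_left, h1, add_zero] at h0
    exact h0
  rw [Em_apply, fromBlocks_transpose, transpose_zero, transpose_zero, transpose_zero] at h1
  have hsum : c = ∑ σ : κ → Bool, fun I : κ → Bas l N =>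
      if (fun j => (I j).isRight) = σ then c I else 0 := by
    funext I
    rw [Finset.sum_apply, Finset.sum_ite_eq, if_pos (Finset.mem_univ _)]
  rw [hsum]
  refine Submodule.sum_mem _ fun σ _ => ?_
  -- the two subspaces
  obtain ⟨U, hU⟩ : ∃ U : Submodule ℚ (({j // ¬σ j = true} → Fin l) → ℚ),
      ∀ u, u ∈ U ↔ act M.Dᵀ (cst ℂ u) = 0 :=
    ⟨{ carrier := {u | act M.Dᵀ (cst ℂ u) = 0}
       zero_mem' := by
        change act M.Dᵀ (cst ℂ 0) = 0
        rw [cst_zero, act_zero_right]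
       add_mem' := by
        intro u v hu hv
        change act M.Dᵀ (cst ℂ (u + v)) = 0
        change act M.Dᵀ (cst ℂ u) = 0 at hu
        change act M.Dᵀ (cst ℂ v) = 0 at hv
        rw [cst_add, act_add_right, hu, hv, add_zero]
       smul_mem' := by
        intro a u hu
        change act M.Dᵀ (cst ℂ (a • u)) = 0
        change act M.Dᵀ (cst ℂ u) = 0 at hu
        have h3 : cst ℂ (a • u) = (a : ℂ) • cst ℂ u := by
          funext I
          simp [cst]
        rw [h3, act_smul_right, hu, smul_zero] }, fun u => Iff.rfl⟩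
  obtain ⟨H, hH⟩ : ∃ H : Submodule ℚ (({j // σ j = true} → Σ i, Fin (N i)) → ℚ),
      ∀ u, u ∈ H ↔ act (gD V)ᵀ (cst ℂ u) = 0 :=
    ⟨{ carrier := {u | act (gD V)ᵀ (cst ℂ u) = 0}
       zero_mem' := by
        change act (gD V)ᵀ (cst ℂ 0) = 0
        rw [cst_zero, act_zero_right]
       add_mem' := by
        intro u v hu hv
        change act (gD V)ᵀ (cst ℂ (u + v)) = 0
        change act (gD V)ᵀ (cst ℂ u) = 0 at hu
        change act (gD V)ᵀ (cst ℂ v) = 0 at hv
        rw [cst_add, act_add_right, hu, hv, add_zero]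
       smul_mem' := by
        intro a u hu
        change act (gD V)ᵀ (cst ℂ (a • u)) = 0
        change act (gD V)ᵀ (cst ℂ u) = 0 at hu
        have h3 : cst ℂ (a • u) = (a : ℂ) • cst ℂ u := by
          funext I
          simp [cst]
        rw [h3, act_smul_right, hu, smul_zero] }, fun u => Iff.rfl⟩
  obtain ⟨n, u, h, hu, hh, huh⟩ := exists_tensor U H (fun P J => c (jn σ P J)) (fun P => by
      rw [hH]
      funext J
      have h3 := act_slice_R σ (gD V)ᵀ (cst ℂ c) P J
      rw [h1] at h3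
      exact h3) (fun J => by
      rw [hU]
      funext P
      have h3 := act_slice_L σ M.Dᵀ (cst ℂ c) P J
      rw [h2] at h3
      exact h3)
  have hcs : (fun I : κ → Bas l N => if (fun j => (I j).isRight) = σ then c I else 0) =
      ∑ i, fun I : κ → Bas l N => pull (RR l N) (h i) (fun j : {j // σ j = true} => I j) *
        pull (PL l N) (u i) (fun j : {j // ¬σ j = true} => I j) := by
    funext I
    rw [Finset.sum_apply]
    by_cases hI : (fun j => (I j).isRight) = σ
    · rw [if_pos hI]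
      obtain ⟨P, J, hPJ⟩ := exists_jn σ hI
      rw [hPJ]
      refine (huh P J).trans (Finset.sum_congr rfl fun i _ => ?_)
      have h3 : (fun j : {j // σ j = true} => jn σ P J j) = fun j => Sum.inr (J j) := by
        funext j
        exact jn_true σ P J j
      have h4 : (fun j : {j // ¬σ j = true} => jn σ P J j) = fun j => Sum.inl (P j) := by
        funext j
        exact jn_false σ P J j
      rw [h3, h4, pull_RR_inr, pull_PL_inl, mul_comm]
    · rw [if_neg hI]
      symm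
      refine Finset.sum_eq_zero fun i _ => ?_
      obtain ⟨j, hj⟩ := Function.ne_iff.1 hI
      by_cases hσ : σ j = true
      · rw [hσ] at hj
        rcases hIj : I j with t | b
        · rw [pull_RR_zero (h i) _ ⟨j, hσ⟩ t hIj, zero_mul]
        · rw [hIj] at hj
          exact absurd rfl hj
      · rcases hIj : I j with t | b
        · rw [hIj] at hj
          exact absurd (by simpa using hσ) (Ne.symm hj)
        · rw [pull_PL_zero (u i) _ ⟨j, hσ⟩ b hIj, mul_zero]
  rw [hcs]
  refine Submodule.sum_mem _ fun i _ => ?_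
  have h3 : pull (RR l N) (h i) ∈ A {j // σ j = true} :=
    tens_mem hA0 hk hs hv _ (h i) ((hH _).1 (hh i))
  have h4 : pull (PL l N) (u i) ∈ A {j // ¬σ j = true} := by
    refine hA.low _ _ (hodge_of_act M V ?_) fun I ⟨j, b, hb⟩ => pull_PL_zero _ _ j b hb
    have h5 : cK ℂ (PL l N) * (DM M V)ᵀ = M.Dᵀ * cK ℂ (PL l N) := by
      rw [cK_PL, DM, fromBlocks_transpose, fromCols_mul_fromBlocks, mul_fromCols]
      simp
    rw [cst_pull, act_pull h5, (hU _).1 (hu i), pull_zero]
  have h5 := hA.mul _ _ _ _ h3 h4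
  exact hA.perm _ _ (Equiv.sumCompl fun j => σ j = true) _ h5

end Pool.Agent.W437.CY
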